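import Pool.Agent.Lib.MP_72e2e6_nt.P3.M.Spec

/-!
# MP_72e2e6_nt, theorem T3p, M/GdT: the axioms `Good` for every large set of places
-/

namespace Pool.Agent.MP72P

open IntermediateField

/-- If `h` is a `(p - 1)`-st power in `K` then `ω` is trivial. -/
private theorem gdt_one (hHas : S_Has) (hHst : S_Hst) {p : ℕ} [Fact p.Prime] {K : Type} [Field K]
    [CharP K p] (hK : GFld p K) {J : Type} {av : J → AbsoluteValue K ℝ} {α : Kgs K} {h : K}
    (hs : HS p av α h) {y : K} (hy : y ^ (p - 1) = h) (g : GS p av α) : omS p av α g = 1 := by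
  obtain ⟨-, -, hGal, h0, halo, halp, -⟩ := hHst p K hK J av α h hs
  have hp : 1 ≤ p := (Fact.out : p.Prime).one_le
  have hy0 : y ≠ 0 := by
    rintro rfl
    refine hs.h0 ?_
    rw [← hy]
    have : CharP (Kgs K) p := charP_of_injective_algebraMap (algebraMap K (Kgs K)).injective p
    by_contra hne
    have h1 : p - 1 = 0 := by
      by_contra h2
      exact hne (zero_pow h2)
    have := (Fact.out : p.Prime).two_le
    omega
  have : CharP (Kgs K) p := charP_of_injective_algebraMap (algebraMap K (Kgs K)).injective p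
  have hyL : algebraMap K (Kgs K) y ≠ 0 := by simpa using hy0
  set c : Kgs K := α / algebraMap K (Kgs K) y with hc
  have hc1 : c ^ (p - 1) = 1 := by
    rw [hc, div_pow, hs.al, ← hy, map_pow]
    exact div_self (pow_ne_zero _ hyL)
  have hcp : c ^ p = c := by
    conv_lhs => rw [← Nat.sub_add_cancel hp, pow_succ, hc1, one_mul]
  have hb : c ∈ (⊥ : Subfield (Kgs K)) := (Subfield.mem_bot_iff_pow_eq_self (Kgs K) p).mpr hcp
  have hb' : c ∈ (algebraMap K (Kgs K)).fieldRange := (bot_le : (⊥ : Subfield (Kgs K)) ≤ _) hb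
  obtain ⟨c', hc'⟩ := hb'
  have hα : algebraMap K (Kgs K) (c' * y) = α := by
    rw [map_mul, hc', hc]
    field_simp
  have hal : alo p av α = algebraMap K (OmS p av α) (c' * y) := by
    apply Subtype.ext
    rw [halo]
    exact hα.symm
  have hCL : CharP (OmS p av α) p :=
    charP_of_injective_algebraMap (algebraMap K (OmS p av α)).injective p
  have halo0 : alo p av α ≠ 0 := by
    intro h2
    apply h0
    rw [← halo, h2]
    rfl
  have h3 := (hHas p K (OmS p av α) (alo p av α) h halo0 halp).1.2 g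
  rw [hal, AlgEquiv.commutes, ← hal] at h3
  have h4 : op (OmS p av α) (omS p av α g) = 1 := by
    have h5 : op (OmS p av α) (omS p av α g) * alo p av α = 1 * alo p av α := by
      rw [one_mul]
      exact h3.symm
    exact mul_right_cancel₀ halo0 h5
  have h6 : ZMod.castHom (dvd_refl p) (OmS p av α) (omS p av α g) =
      ZMod.castHom (dvd_refl p) (OmS p av α) 1 := by
    rw [map_one, ← h4, op]
    simp
  exact (ZMod.castHom (dvd_refl p) (OmS p av α)).injective h6

/-- If `h` is not a `(p - 1)`-st power in the completion then `ω` is not trivial there. -/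
private theorem gdt_ne (hHas : S_Has) (hHst : S_Hst) (hRgo : S_Rgo) {p : ℕ} [Fact p.Prime]
    {K : Type} [Field K] [CharP K p] (hK : GFld p K) {J : Type} {av : J → AbsoluteValue K ℝ}
    {α : Kgs K} {h : K} (hs : HS p av α h) (ι : ∀ j, Kgs K →ₐ[K] Kvs (av j)) {j : J}
    (hj : ∀ y : (av j).Completion, y ^ (p - 1) ≠ algebraMap K (av j).Completion h) :
    ∃ g ∈ DS p av α ι j, omS p av α g ≠ 1 := by
  by_contra hcon
  push Not at hcon
  obtain ⟨-, -, hGal, h0, halo, halp, -⟩ := hHst p K hK J av α h hs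
  obtain ⟨-, -, -, -, -, -, hloc⟩ := hRgo p K hK J av α h hs
  obtain ⟨-, -, h3, h4, -, -⟩ := hloc (av j) (ι j)
  have : CharP (av j).Completion p :=
    charP_of_injective_algebraMap (algebraMap K (av j).Completion).injective p
  have hfix : ∀ g : Gal(Kvs (av j)/(av j).Completion), g (ι j α) = ι j α := by
    intro g
    have hiα : ι j α ≠ 0 := by
      intro h5
      exact h0 ((map_eq_zero (ι j)).mp h5)
    have h6 : (ι j α) ^ (p - 1) =
        algebraMap (av j).Completion (Kvs (av j)) (algebraMap K (av j).Completion h) := by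
      rw [← map_pow, hs.al, AlgHom.commutes]
      exact IsScalarTower.algebraMap_apply K (av j).Completion (Kvs (av j)) h
    have h7 := (hHas p (av j).Completion (Kvs (av j)) (ι j α) _ hiα h6).1.2 g
    rw [h7, ← h4 g, hcon _ ⟨g, rfl⟩, op]
    have : Fact (1 < p) := ⟨(Fact.out : p.Prime).one_lt⟩
    rw [ZMod.val_one, Nat.cast_one, one_mul]
  have h8 : ι j α ∈ (⊥ : IntermediateField (av j).Completion (Kvs (av j))) := by
    rw [InfiniteGalois.mem_bot_iff_fixed]
    exact hfix
  obtain ⟨y, hy⟩ := IntermediateField.mem_bot.mp h8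
  refine hj y ((algebraMap (av j).Completion (Kvs (av j))).injective ?_)
  rw [map_pow, hy, ← map_pow, hs.al, AlgHom.commutes]
  exact IsScalarTower.algebraMap_apply K (av j).Completion (Kvs (av j)) h

/-- The axioms `Good` for every set of places as in `S_S0x`. -/
theorem gdt_main (hHas : S_Has) (hHst : S_Hst) (hRgo : S_Rgo) (hLts : S_Lts) (hGdx : S_Gdx)
    (p : ℕ) [Fact p.Prime] (K : Type) [Field K] [CharP K p] (hK : GFld p K) (J : Type) [Fintype J]
    (av : J → AbsoluteValue K ℝ) (α : Kgs K) (h : K) (hs : HS p av α h)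
    (hc : 2 ≤ Fintype.card J) (hsha : ShN p av h = PhN p av h)
    (hb : (∀ y : K, y ^ (p - 1) ≠ h) →
      ∃ j, ∀ y : (av j).Completion, y ^ (p - 1) ≠ algebraMap K (av j).Completion h)
    (ι : ∀ j, Kgs K →ₐ[K] Kvs (av j)) :
    ∃ (d : ℕ) (T : J → Type) (t : ∀ w, T w → Gal(Kvs (av w)/(av w).Completion)) (w₀ : J)
      (e : Fin d → Gal(Kvs (av w₀)/(av w₀).Completion)) (y₀ : Fin (d + 1) → GS p av α ⊕ J)
      (B N0 : AddSubgroup (OS av)),
      LTs p (omS p av α) (fun w => rOm p av α (ι w)) t w₀ e ∧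
      (fmS p av α ι B).Good (tsL (fun w => rOm p av α (ι w)) t w₀ e y₀) N0 := by
  have hne : Nonempty J := Fintype.card_pos_iff.mp (by omega)
  obtain ⟨b, hbs⟩ : ∃ b : J, (∀ g, omS p av α g = 1) ∨ ∃ g ∈ DS p av α ι b, omS p av α g ≠ 1 := by
    by_cases hy : ∀ y : K, y ^ (p - 1) ≠ h
    · obtain ⟨j, hj⟩ := hb hy
      exact ⟨j, Or.inr (gdt_ne hHas hHst hRgo hK hs ι hj)⟩
    · push Not at hy
      obtain ⟨y, hy⟩ := hy
      exact ⟨hne.some, Or.inl fun g => gdt_one hHas hHst hK hs hy g⟩
  obtain ⟨d, T, t, e, y, hT⟩ := hLts p K hK J av α h hs hsha ι b b hbs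
  exact ⟨d, T, t, b, e, fun k => Sum.inr (y k), BS p av b, NS p av, hT.lt,
    hGdx p K hK J av α h ι d T t b e y b hT⟩

end Pool.Agent.MP72P
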