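import Pool.Agent.Lib.MP_72e2e6_nt.P3.M.Spec

/-!
# MP_72e2e6_nt, theorem T3p, part M: small elements are in the image of `PsE`
-/

namespace Pool.Agent.MP72P

open IntermediateField Finset

private theorem bal_ssub {m : ℕ} {I A : Finset (Fin m)} (hA : A ∈ I.powerset.erase ∅) :
    I \ A ⊂ I := by
  rw [Finset.mem_erase, Finset.mem_powerset] at hA
  refine Finset.ssubset_iff_subset_ne.2 ⟨Finset.sdiff_subset, fun h => ?_⟩
  rw [Finset.sdiff_eq_self_iff_disjoint] at h
  exact hA.1 (Finset.disjoint_self_iff_empty _ |>.1 (h.mono_left hA.2))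

theorem tBal : S_Lc1 → S_Bal := by
  classical
  intro lc1 p _ K _ _ v Q ϖ R hLF m h D hh
  obtain ⟨_, _, hU, _, _, _, _, _, _, _, h11⟩ := lc1 p K v Q ϖ R hLF
  obtain ⟨ρ, hρ, hroot⟩ := h11 h hh
  choose! F hF1 hF2 using hroot
  obtain ⟨C, hC1, hC⟩ : ∃ C : ℝ, 1 ≤ C ∧ ∀ A : Finset (Fin m), ‖prE D A‖ ≤ C := by
    refine ⟨1 + ∑ A : Finset (Fin m), ‖prE D A‖, ?_, fun A => ?_⟩
    · have : 0 ≤ ∑ A : Finset (Fin m), ‖prE D A‖ := Finset.sum_nonneg fun _ _ => norm_nonneg _
      linarith
    · have := Finset.single_le_sum (f := fun A : Finset (Fin m) => ‖prE D A‖)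
        (fun _ _ => norm_nonneg _) (Finset.mem_univ A)
      linarith
  have hC0 : 0 < C := by linarith
  refine ⟨ρ / C ^ m, by positivity, fun Y hY => ?_⟩
  set r : ℝ := ρ / C ^ m with hr
  have hr0 : 0 < r := by positivity
  let y : Finset (Fin m) → v.Completion := Finset.strongInduction fun I ih =>
    F (Y I + h * ∑ A ∈ (I.powerset.erase ∅).attach, prE D A.1 * ih (I \ A.1) (bal_ssub A.2))
  have hy : ∀ I, y I = F (Y I + h * ∑ A ∈ I.powerset.erase ∅, prE D A * y (I \ A)) := by
    intro I
    have h1 : y I = F (Y I + h * ∑ A ∈ (I.powerset.erase ∅).attach, prE D A.1 * y (I \ A.1)) :=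
      Finset.strongInduction_eq _ I
    rw [h1, Finset.sum_attach (I.powerset.erase ∅) fun A => prE D A * y (I \ A)]
  have hx : ∀ (n : ℕ) (I : Finset (Fin m)), I.card = n →
      ‖Y I + h * ∑ A ∈ I.powerset.erase ∅, prE D A * y (I \ A)‖ ≤ C ^ n * r := by
    intro n
    induction n using Nat.strong_induction_on with
    | _ n ih =>
      intro I hI
      refine (IsUltrametricDist.norm_add_le_max _ _).trans (max_le ?_ ?_)
      · refine (hY I).trans ?_
        have : 1 ≤ C ^ n := one_le_pow₀ hC1
        nlinarith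
      · rw [Finset.mul_sum]
        refine IsUltrametricDist.norm_sum_le_of_forall_le_of_nonneg (by positivity) fun A hA => ?_
        have hlt : (I \ A).card < n := by
          rw [← hI]
          exact Finset.card_lt_card (bal_ssub hA)
        have h1 := ih _ hlt (I \ A) rfl
        have hle : ‖Y (I \ A) + h * ∑ B ∈ (I \ A).powerset.erase ∅, prE D B * y ((I \ A) \ B)‖ ≤ ρ := by
          refine h1.trans ?_
          have h2 : C ^ (I \ A).card ≤ C ^ m := by
            refine pow_le_pow_right₀ hC1 ?_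
            have := Finset.card_le_univ (I \ A)
            simpa using this
          calc C ^ (I \ A).card * r ≤ C ^ m * r := mul_le_mul_of_nonneg_right h2 hr0.le
            _ = ρ := by
              rw [hr]
              field_simp
        have h3 := hF2 _ hle
        rw [← hy] at h3
        have h4 : ‖y (I \ A)‖ * ‖h‖ ≤ C ^ (I \ A).card * r := h3.le.trans h1
        have h5 : C * C ^ (I \ A).card ≤ C ^ n := by
          rw [← pow_succ']
          exact pow_le_pow_right₀ hC1 hlt
        rw [norm_mul, norm_mul]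
        calc ‖h‖ * (‖prE D A‖ * ‖y (I \ A)‖) = ‖prE D A‖ * (‖y (I \ A)‖ * ‖h‖) := by ring
          _ ≤ C * (C ^ (I \ A).card * r) := by
            refine mul_le_mul (hC A) h4 (by positivity) hC0.le
          _ = (C * C ^ (I \ A).card) * r := by ring
          _ ≤ C ^ n * r := mul_le_mul_of_nonneg_right h5 hr0.le
  refine ⟨y, funext fun I => ?_⟩
  have hle : ‖Y I + h * ∑ A ∈ I.powerset.erase ∅, prE D A * y (I \ A)‖ ≤ ρ := by
    refine (hx _ I rfl).trans ?_
    have h2 : C ^ I.card ≤ C ^ m := by
      refine pow_le_pow_right₀ hC1 ?_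
      have := Finset.card_le_univ I
      simpa using this
    calc C ^ I.card * r ≤ C ^ m * r := mul_le_mul_of_nonneg_right h2 hr0.le
      _ = ρ := by
        rw [hr]
        field_simp
  have h3 := hF1 _ hle
  rw [← hy, Ph] at h3
  have h4 : cv (prE D) y I = y I + ∑ A ∈ I.powerset.erase ∅, prE D A * y (I \ A) := by
    rw [cv, ← Finset.add_sum_erase _ _ (Finset.empty_mem_powerset I), Finset.sdiff_empty]
    congr 1
    rw [prE, Finset.prod_empty, one_mul]
  rw [PsE, h4]
  linear_combination h3

end Pool.Agent.MP72P
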