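import Pool.Agent.Lib.MP_72e2e6_nt.P3.M.Spec

/-!
# MP_72e2e6_nt, theorem T3p, part M: module Bgl
-/

namespace Pool.Agent.MP72P

private theorem bgl_na_sub {K : Type} [Field K] {v : AbsoluteValue K ℝ} (hv : IsNonarchimedean v)
    (x y : K) : v (x - y) ≤ max (v x) (v y) := by
  have h := hv x (-y)
  rwa [AbsoluteValue.map_neg, ← sub_eq_add_neg] at h

private theorem bgl_eq {K : Type} [Field K] {v : AbsoluteValue K ℝ} (hv : IsNonarchimedean v)
    {x y : K} (h : v (x - y) < v x) : v y = v x := by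
  apply le_antisymm
  · have h1 : v y ≤ max (v x) (v (x - y)) := by
      have h2 := bgl_na_sub hv x (x - y)
      rwa [sub_sub_cancel] at h2
    rwa [max_eq_left h.le] at h1
  · by_contra hc
    push Not at hc
    have h1 : v x ≤ max (v (x - y)) (v y) := by
      have h2 := hv (x - y) y
      rwa [sub_add_cancel] at h2
    exact absurd h1 (not_le.mpr (max_lt h hc))

private theorem bgl_not {p : ℕ} [Fact p.Prime] {K : Type} [Field K] {v : AbsoluteValue K ℝ}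
    (hv : IsNonarchimedean v) {ϖ : K} (h0 : 0 < v ϖ) (h1 : v ϖ < 1)
    (hd : ∀ x, x ≠ 0 → ∃ n : ℤ, v x = v ϖ ^ n) (l : ℤ) (hl : 0 < l) (hpl : ¬ (p : ℤ) ∣ l) (z : K)
    (hz : v z = v ϖ ^ (-l)) : ¬ ∃ y : K, y ^ p - y = z := by
  rintro ⟨y, hy⟩
  have hp : 1 < p := (Fact.out : p.Prime).one_lt
  have hz1 : 1 < v z := by
    rw [hz, zpow_neg]
    apply (one_lt_inv₀ (zpow_pos h0 _)).mpr
    exact zpow_lt_one₀ h0 h1 hl
  by_cases hy1 : v y ≤ 1
  · have h2 : v (y ^ p - y) ≤ 1 := by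
      refine (bgl_na_sub hv _ _).trans (max_le ?_ hy1)
      rw [map_pow]
      exact pow_le_one₀ (v.nonneg _) hy1
    rw [hy] at h2
    exact absurd h2 (not_le.mpr hz1)
  · push Not at hy1
    have hy0 : y ≠ 0 := by
      rintro rfl
      rw [map_zero] at hy1
      exact absurd hy1 (by norm_num)
    have h3 : v y < v (y ^ p) := by
      rw [map_pow]
      calc v y = v y ^ 1 := (pow_one _).symm
        _ < v y ^ p := pow_lt_pow_right₀ hy1 hp
    have h4 : v (y ^ p - y) = v (y ^ p) := by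
      apply bgl_eq hv
      rw [sub_sub_cancel]
      exact h3
    obtain ⟨n, hn⟩ := hd y hy0
    rw [hy, hz, map_pow, hn, ← zpow_natCast, ← zpow_mul] at h4
    have h5 : -l = n * p := zpow_right_injective₀ h0 h1.ne h4
    exact hpl ⟨-n, by linarith⟩

private theorem bgl_lam {p : ℕ} (hp : 1 < p) {u M : ℝ} (h0 : 0 < u) (h1 : u < 1) :
    ∃ l : ℕ → ℤ, (∀ i, 0 < l i) ∧ (∀ i, ¬ (p : ℤ) ∣ l i) ∧ StrictMono l ∧
      ∀ i, M < u ^ (-(l i)) := by
  obtain ⟨N, hN⟩ := pow_unbounded_of_one_lt M ((one_lt_inv₀ h0).mpr h1)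
  refine ⟨fun i => p * (N + i) + 1, fun i => by positivity, fun i hd => ?_, fun i k hik => ?_,
    fun i => ?_⟩
  · have h2 : (p : ℤ) ∣ 1 := (Int.dvd_add_right (Dvd.intro _ rfl)).mp hd
    have h3 : p ∣ 1 := by exact_mod_cast h2
    exact absurd (Nat.dvd_one.mp h3) (by omega)
  · have hp0 : (0 : ℤ) < p := by exact_mod_cast (by omega : 0 < p)
    have h2 : (i : ℤ) < k := by exact_mod_cast hik
    have h3 : (p : ℤ) * (N + i) < p * (N + k) := mul_lt_mul_of_pos_left (by linarith) hp0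
    show (p : ℤ) * (N + i) + 1 < p * (N + k) + 1
    linarith
  · refine hN.trans_le ?_
    rw [zpow_neg, ← inv_zpow]
    have h2 : u⁻¹ ^ N = u⁻¹ ^ (N : ℤ) := (zpow_natCast _ _).symm
    rw [h2]
    apply zpow_le_zpow_right₀ ((one_le_inv₀ h0).mpr h1.le)
    have h3 : (N : ℤ) ≤ p * (N + i) := by
      have h4 : (1 : ℤ) ≤ p := by exact_mod_cast hp.le
      have h5 : (0 : ℤ) ≤ N + i := by positivity
      nlinarith
    linarith

theorem tBgl (hDsc : S_Dsc) (hApp : S_App) (hFiK : S_FiK) (hLc1 : S_Lc1) : S_Bgl := by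
  intro p _ K _ _ hG J _ av hP b C
  have hp : 1 < p := (Fact.out : p.Prime).one_lt
  obtain ⟨Q, ϖ, R, hLF⟩ := hDsc p K hG (av b) (hP.ntr b)
  have hna : ∀ j, IsNonarchimedean (av j) := fun j => by
    obtain ⟨Q', ϖ', R', h⟩ := hDsc p K hG (av j) (hP.ntr j)
    exact h.na
  obtain ⟨C₁, hC₁⟩ := hApp p K hG J av hP b 1 one_pos
  obtain ⟨l, hl0, hlp, hlm, hlM⟩ := bgl_lam (M := max C₁ 1) hp hLF.pi0 hLF.pi1
  choose D hDA hDb hDj using fun i : ℕ => hC₁ (ϖ ^ (-(l i)))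
  -- the values at `b`
  have hDv : ∀ i, av b (D i) = av b ϖ ^ (-(l i)) := fun i => by
    rw [← map_zpow₀]
    apply bgl_eq hLF.na
    rw [map_zpow₀]
    exact ((hDb i).trans (le_max_left _ _)).trans_lt (hlM i)
  -- the differences
  have hlt : ∀ i k, i < k → ¬ ∃ y : K, y ^ p - y = D k - D i := fun i k hik => by
    refine bgl_not (p := p) hLF.na hLF.pi0 hLF.pi1 hLF.disc (l k) (hl0 k) (hlp k) _ ?_
    rw [← hDv k]
    apply bgl_eq hLF.na
    rw [sub_sub_cancel, hDv, hDv]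
    exact zpow_lt_zpow_right_of_lt_one₀ hLF.pi0 hLF.pi1 (neg_lt_neg (hlm hik))
  let D' : ℕ → OS av := fun i => ⟨D i, hDA i⟩
  have hne : ∀ i k, D' k - D' i ∈ NS p av → i = k := by
    have h1 : ∀ i k, D' k - D' i ∈ NS p av → ¬ i < k := fun i k h hik => by
      obtain ⟨y, hy⟩ := h
      exact hlt i k hik ⟨y, hy⟩
    intro i k h
    rcases lt_trichotomy i k with h2 | h2 | h2
    · exact absurd h2 (h1 i k h)
    · exact h2
    · refine absurd h2 (h1 k i ?_)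
      have h3 := neg_mem h
      rwa [neg_sub] at h3
  -- the directions
  have hB : ∀ i, D' i ∈ BS p av b := fun i j hj => by
    obtain ⟨Q', ϖ', R', h⟩ := hDsc p K hG (av j) (hP.ntr j)
    obtain ⟨e1, -, -, -, -, -, -, e8, -⟩ := hLc1 p K (av j) Q' ϖ' R' h
    obtain ⟨θ, -, hθ⟩ := e8 (algebraMap K (av j).Completion (D i)) (by
      rw [e1]
      exact hDj i j hj)
    exact ⟨θ, hθ⟩
  -- the bound
  obtain ⟨e, he⟩ : ∃ e : ℕ, ∀ i : Fin C, ∀ j, av j (D i) ≤ 2 ^ e := by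
    obtain ⟨B, hB'⟩ := (Set.finite_range fun q : Fin C × J => av q.2 (D q.1)).bddAbove
    obtain ⟨e, he⟩ := pow_unbounded_of_one_lt B one_lt_two
    exact ⟨e, fun i j => (hB' ⟨(i, j), rfl⟩).trans he.le⟩
  refine ⟨e, ?_⟩
  have hF : ∀ i : Fin C, D' i ∈ FS av e := fun i j _ => he i j
  have hfin : {x | x ∈ FS av e ∧ x ∈ BS p av b}.Finite := by
    have h1 := hFiK p K hG J av hP (2 ^ e)
    have h2 : {x : OS av | (x : K) ∈ {f : K | f ∈ OS av ∧ ∀ j, av j f ≤ 2 ^ e}}.Finite :=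
      h1.preimage (Subtype.val_injective.injOn)
    refine h2.subset ?_
    rintro x ⟨hx, -⟩
    exact ⟨x.2, fun j => hx j (hna j)⟩
  have key := Set.ncard_le_ncard_of_injOn
    (s := (Set.univ : Set (Fin C)) ×ˢ {x | x ∈ FS av e ∧ x ∈ BS p av b ∧ x ∈ NS p av})
    (t := {x | x ∈ FS av e ∧ x ∈ BS p av b}) (fun q => D' q.1 + q.2)
    (by
      rintro ⟨i, x⟩ ⟨-, hx1, hx2, -⟩
      exact ⟨add_mem (hF i) hx1, add_mem (hB i) hx2⟩)
    (by
      rintro ⟨i, x⟩ ⟨-, -, -, hx3⟩ ⟨k, y⟩ ⟨-, -, -, hy3⟩ hxy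
      have hxy' : D' i + x = D' k + y := hxy
      have h1 : D' k - D' i = x - y := by
        rw [sub_eq_sub_iff_add_eq_add, add_comm x, ← hxy']
      have h2 : i = k := Fin.ext (hne i k (by
        rw [h1]
        exact sub_mem hx3 hy3))
      subst h2
      exact Prod.ext rfl (add_left_cancel hxy'))
    hfin
  rwa [Set.ncard_prod, Set.ncard_univ, Nat.card_fin] at key

end Pool.Agent.MP72P
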