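import Pool.Agent.Lib.MP_72e2e6_nt.P3.M.Spec

/-!
# MP_72e2e6_nt, theorem T3p, part M: the product `cv` on the functions on subsets
-/

namespace Pool.Agent.MP72P

open IntermediateField Finset

private lemma Cvl_assoc {m : ℕ} {L : Type} [CommRing L] (f g h : Finset (Fin m) → L) :
    cv (cv f g) h = cv f (cv g h) := by
  funext I
  unfold cv
  simp only [sum_mul, mul_sum]
  rw [sum_sigma', sum_sigma']
  refine sum_bij' (i := fun x _ => (⟨x.2, x.1 \ x.2⟩ : Σ _ : Finset (Fin m), Finset (Fin m)))
    (j := fun x _ => (⟨x.1 ∪ x.2, x.1⟩ : Σ _ : Finset (Fin m), Finset (Fin m))) ?_ ?_ ?_ ?_ ?_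
  · rintro ⟨A, B⟩ hx
    simp only [mem_sigma, mem_powerset] at hx ⊢
    exact ⟨hx.2.trans hx.1, sdiff_subset_sdiff hx.1 (Subset.refl B)⟩
  · rintro ⟨B, C⟩ hx
    simp only [mem_sigma, mem_powerset] at hx ⊢
    exact ⟨union_subset hx.1 (hx.2.trans sdiff_subset), subset_union_left⟩
  · rintro ⟨A, B⟩ hx
    simp only [mem_sigma, mem_powerset] at hx
    simp only [union_sdiff_of_subset hx.2]
  · rintro ⟨B, C⟩ hx
    simp only [mem_sigma, mem_powerset] at hx
    have hd : Disjoint B C := (disjoint_of_subset_left hx.2 sdiff_disjoint).symm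
    simp only [union_sdiff_cancel_left hd]
  · rintro ⟨A, B⟩ hx
    simp only [mem_sigma, mem_powerset] at hx
    have e : (I \ B) \ (A \ B) = I \ A := by
      ext x
      simp only [mem_sdiff]
      constructor
      · rintro ⟨⟨h1, h2⟩, h3⟩
        exact ⟨h1, fun h4 => h3 ⟨h4, h2⟩⟩
      · rintro ⟨h1, h2⟩
        exact ⟨⟨h1, fun h3 => h2 (hx.2 h3)⟩, fun h3 => h2 h3.1⟩
    simp only [e, mul_assoc]

private lemma Cvl_sg {m : ℕ} {L : Type} [CommRing L] (I : Finset (Fin m)) (x : L)
    (f : Finset (Fin m) → L) (I' : Finset (Fin m)) :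
    cv (sgE I x) f I' = if I ⊆ I' then x * f (I' \ I) else 0 := by
  unfold cv sgE
  simp only [ite_mul, zero_mul]
  rw [sum_ite_eq']
  simp only [mem_powerset]

theorem tCvl : S_Cvl := by
  intro m L _
  refine ⟨?_, Cvl_assoc, ?_, ?_, ?_, Cvl_sg, ?_, ?_, ?_, ?_⟩
  · intro f g
    funext I
    unfold cv
    refine sum_bij' (i := fun A _ => I \ A) (j := fun A _ => I \ A) ?_ ?_ ?_ ?_ ?_
    · intro A _
      exact mem_powerset.2 sdiff_subset
    · intro A _
      exact mem_powerset.2 sdiff_subset
    · intro A hA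
      exact Finset.sdiff_sdiff_eq_self (mem_powerset.1 hA)
    · intro A hA
      exact Finset.sdiff_sdiff_eq_self (mem_powerset.1 hA)
    · intro A hA
      simp only [Finset.sdiff_sdiff_eq_self (mem_powerset.1 hA)]
      exact mul_comm _ _
  · intro f g h
    funext I
    unfold cv
    simp only [Pi.add_apply, mul_add, sum_add_distrib]
  · intro c f g
    funext I
    unfold cv
    rw [mul_sum]
    exact sum_congr rfl fun A _ => mul_assoc _ _ _
  · intro a b
    funext I
    unfold cv prE
    simp only [Pi.add_apply]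
    exact (prod_add _ _ _).symm
  · intro x f
    funext I
    rw [Cvl_sg, if_pos (empty_subset _), sdiff_empty]
  · intro x f
    funext I
    rw [Cvl_sg]
    unfold sgE
    by_cases h : I = univ
    · subst h
      rw [if_pos (Subset.refl _), if_pos rfl, sdiff_self]
      rfl
    · rw [if_neg h, if_neg fun h' => h (univ_subset_iff.1 h')]
  · funext I
    unfold prE sgE
    by_cases h : I = ∅
    · subst h
      rw [prod_empty, if_pos rfl]
    · rw [if_neg h]
      obtain ⟨j, hj⟩ := nonempty_iff_ne_empty.2 h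
      exact prod_eq_zero hj rfl
  · intro L' _ σ f g I
    unfold cv
    rw [map_sum]
    exact sum_congr rfl fun A _ => map_mul σ _ _

end Pool.Agent.MP72P
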