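import Pool.Agent.Lib.MP_72e2e6_nt.P3.M.Spec

/-!
# MP_72e2e6_nt, theorem T3p, part M: Fn2 (properties of the functional)
-/

set_option autoImplicit false

namespace Pool.Agent.MP72P

open IntermediateField Finset

private lemma op_eq {p : ℕ} [Fact p.Prime] (L : Type) [Field L] [CharP L p] (c : ZMod p) :
    op L c = ZMod.castHom (dvd_refl p) L c := by
  rw [ZMod.castHom_apply, ZMod.cast_eq_val]
  rfl

private lemma rE_zero {p m : ℕ} {G : Type} (ω : G → ZMod p) (δ : Fin m → G → ZMod p) (g : G) :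
    rE ω δ g 0 = 0 := by
  funext I
  simp [rE]

private lemma rE_neg {p m : ℕ} {G : Type} (ω : G → ZMod p) (δ : Fin m → G → ZMod p) (g : G)
    (f : Finset (Fin m) → ZMod p) : rE ω δ g (-f) = -rE ω δ g f := by
  funext I
  simp [rE]

private lemma loc (hHas : S_Has) (hHst : S_Hst) (hRgo : S_Rgo) (p : ℕ) [Fact p.Prime] (K : Type)
    [Field K] [CharP K p] (hK : GFld p K) (J : Type) (av : J → AbsoluteValue K ℝ) (α : Kgs K)
    (h : K) (hh : HS p av α h) (v : AbsoluteValue K ℝ) (ι : Kgs K →ₐ[K] Kvs v) (m : ℕ)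
    (D : Fin m → OS av) (ϑ : Fin m → OmS p av α)
    (hϑ : ∀ i, ϑ i ^ p - ϑ i = algebraMap K (OmS p av α) (D i : K)) :
    ι α ≠ 0 ∧
    ι α ^ (p - 1) = algebraMap v.Completion (Kvs v) (algebraMap K v.Completion h) ∧
    (∀ j, ι (ϑ j : Kgs K) ^ p - ι (ϑ j : Kgs K) =
      algebraMap v.Completion (Kvs v) (algebraMap K v.Completion (D j : K))) ∧
    (∀ g : Gal(Kvs v/v.Completion), g (ι α) = op (Kvs v) (omS p av α (rOm p av α ι g)) * ι α) ∧
    (∀ j (g : Gal(Kvs v/v.Completion)), g (ι (ϑ j : Kgs K)) = ι (ϑ j : Kgs K) +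
      op (Kvs v) (hS p av α (D j : K) (rOm p av α ι g))) := by
  have hchp : CharP v.Completion p :=
    charP_of_injective_algebraMap (algebraMap K v.Completion).injective p
  obtain ⟨-, -, -, hα0, -, -, -, -, -, -, -, -, -, -, -, -⟩ := hHst p K hK J av α h hh
  obtain ⟨-, -, -, -, -, -, hR⟩ := hRgo p K hK J av α h hh
  obtain ⟨-, -, hg, hom, hhS, -⟩ := hR v ι
  have hι0 : ι α ≠ 0 := by
    intro h0
    apply hα0
    exact (map_eq_zero ι).mp h0
  have hιp : ι α ^ (p - 1) = algebraMap v.Completion (Kvs v) (algebraMap K v.Completion h) := by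
    rw [← map_pow, hh.al, AlgHom.commutes]
    exact IsScalarTower.algebraMap_apply K v.Completion (Kvs v) h
  have hϑ' : ∀ j, ι (ϑ j : Kgs K) ^ p - ι (ϑ j : Kgs K) =
      algebraMap v.Completion (Kvs v) (algebraMap K v.Completion (D j : K)) := by
    intro j
    have h1 : ((ϑ j : Kgs K)) ^ p - (ϑ j : Kgs K) = algebraMap K (Kgs K) (D j : K) :=
      congrArg (fun x : OmS p av α => (x : Kgs K)) (hϑ j)
    rw [← map_pow, ← map_sub, h1, AlgHom.commutes]
    exact IsScalarTower.algebraMap_apply K v.Completion (Kvs v) _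
  refine ⟨hι0, hιp, hϑ', ?_, ?_⟩
  · intro g
    rw [hom]
    exact (hHas p v.Completion (Kvs v) (ι α) _ hι0 hιp).1.2 g
  · intro j g
    rw [hhS _ (D j).2]
    obtain ⟨-, h2, -, -, -, h6⟩ := hHas p v.Completion (Kvs v) 1 1 one_ne_zero
      (by rw [one_pow, map_one])
    obtain ⟨c, hc⟩ := h2 (algebraMap K v.Completion (D j : K)) (ι (ϑ j : Kgs K)) (by
      rw [Ph, map_one, one_mul]
      exact hϑ' j)
    rw [hc g, h6 g, one_mul, sub_self, add_zero, mul_one]

/-- Existence of the local crossed homomorphism. -/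
private lemma exf (hSep : S_Sep) (hRlc : S_Rlc) (p : ℕ) [Fact p.Prime] (K : Type)
    [Field K] [CharP K p] (v : AbsoluteValue K ℝ) (m : ℕ) (β : Kvs v) (h : v.Completion)
    (ϑ : Fin m → Kvs v) (D : Fin m → v.Completion) (hβ : β ≠ 0)
    (hβp : β ^ (p - 1) = algebraMap v.Completion (Kvs v) h)
    (hϑ : ∀ j, ϑ j ^ p - ϑ j = algebraMap v.Completion (Kvs v) (D j))
    (ω : Gal(Kvs v/v.Completion) → ZMod p) (δ : Fin m → Gal(Kvs v/v.Completion) → ZMod p)
    (hω : ∀ g, g β = op (Kvs v) (ω g) * β) (hδ : ∀ j g, g (ϑ j) = ϑ j + op (Kvs v) (δ j g))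
    (Y : Finset (Fin m) → v.Completion) :
    ∃ c : Gal(Kvs v/v.Completion) → Finset (Fin m) → ZMod p, RlE p β ϑ c Y := by
  have hchp : CharP v.Completion p :=
    charP_of_injective_algebraMap (algebraMap K v.Completion).injective p
  obtain ⟨-, -, -, -, h5, -, -⟩ := hRlc p v.Completion (Kvs v) m β h ϑ D hβ hβp hϑ ω δ hω hδ
  refine h5 ⊤ Y ?_ (Subring.mem_top _) (fun _ => Subring.mem_top _) (fun _ => Subring.mem_top _)
  intro x _
  obtain ⟨y, hy⟩ := (hSep p v.Completion β h hβ hβp).2.1 x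
  exact ⟨y, Subring.mem_top _, hy⟩

theorem tFn2 : S_Dsc → S_Has → S_Sep → S_Hst → S_Rgo → S_Rlc → S_Omr → S_Rsl → S_Bal →
    S_Fn2 := by
  intro hDsc hHas hSep hHst hRgo hRlc hOmr hRsl hBal
  intro p _ K _ _ hK J av α h ι d T t w₀ e y b HT m D hD ϑ hϑ η lam hlam
  have hh := HT.hs
  have hloc := fun j => loc hHas hHst hRgo p K hK J av α h hh (av j) (ι j) m D ϑ hϑ
  have hchp : ∀ j, CharP (av j).Completion p := fun j =>
    charP_of_injective_algebraMap (algebraMap K (av j).Completion).injective p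
  refine ⟨?_, ?_, ?_⟩
  · -- (1)
    intro Y hY
    obtain ⟨-, -, hgal, hα0, haloc, halop, -, -, -, hr1, hr2, -, -, -, -, -⟩ :=
      hHst p K hK J av α h hh
    have halo0 : alo p av α ≠ 0 := by
      intro h0
      apply hα0
      rw [← haloc, h0]
      rfl
    have hhO : h ∈ OS av := by
      intro v h1 _ h3
      exact (hh.hu v h1 h3).le
    have hω := (hHas p K (OmS p av α) (alo p av α) h halo0 halop).1.2
    have hδ : ∀ (j : Fin m) (g : GS p av α), g (ϑ j) = ϑ j +
        op (OmS p av α) (hS p av α (D j : K) g) := by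
      intro j g
      obtain ⟨-, h2, -, -, -, h6⟩ := hHas p K (OmS p av α) 1 1 one_ne_zero
        (by rw [one_pow, map_one])
      obtain ⟨c, hc⟩ := h2 (D j : K) (ϑ j) (by
        rw [Ph, map_one, one_mul]
        exact hϑ j)
      rw [hc g, h6 g, one_mul, sub_self, add_zero, mul_one]
      rfl
    obtain ⟨O, hO1, hO2⟩ := hOmr p K hK J av α h hh
    obtain ⟨q1, -, -, -, q5, -, -⟩ := hRlc p K (OmS p av α) m (alo p av α) h ϑ
      (fun i => (D i : K)) halo0 halop hϑ (omS p av α) (fun i => hS p av α (D i : K)) hω hδ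
    obtain ⟨c, hc⟩ := q5 O Y hO2 (by rw [halop]; exact hO1 h hhO)
      (fun j => hO1 _ (D j).2) (fun I => hO1 _ (hY I))
    have hcoc := q1 c Y hc
    have hval := hlam (fun j I => algebraMap K (av j).Completion (Y I))
      (fun j g => c (rOm p av α (ι j) g)) (c, 0)
      (fun j => hRsl p K hK J av α h hh (av j) (ι j) m ϑ c Y hc) hcoc (by
        intro j i
        simp only [psi, Pi.zero_apply, rE_zero, sub_zero])
    rw [hval]
    refine Finset.sum_eq_zero fun i _ => ?_
    simp only [psi, Pi.zero_apply, rE_zero, sub_zero, sub_self, mul_zero]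
  · -- (2)
    have hfin := hh.fin
    have hne := hh.nem
    have hb : ∀ j, ∃ r : ℝ, 0 < r ∧ ∀ Y : Finset (Fin m) → (av j).Completion,
        (∀ I, ‖Y I‖ ≤ r) → ∃ y : Finset (Fin m) → (av j).Completion,
          PsE p (algebraMap K (av j).Completion h)
            (fun i => algebraMap K (av j).Completion (D i : K)) y = Y := by
      intro j
      obtain ⟨Q, ϖ, R, hLF⟩ := hDsc p K hK (av j) (hh.pls.ntr j)
      refine hBal p K (av j) Q ϖ R hLF m _ _ ?_
      intro h0
      exact hh.h0 ((algebraMap K (av j).Completion).injective (by rw [h0, map_zero]))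
    choose r hr0 hr using hb
    obtain ⟨j₀, hj₀⟩ := Finite.exists_min r
    refine ⟨r j₀, hr0 j₀, ?_⟩
    intro Y hY
    have hy : ∀ j, ∃ y : Finset (Fin m) → (av j).Completion,
          PsE p (algebraMap K (av j).Completion h)
            (fun i => algebraMap K (av j).Completion (D i : K)) y = Y j :=
      fun j => hr j (Y j) fun I => (hY j I).trans (hj₀ j)
    choose z hz using hy
    have hf : ∀ j, ∃ c : Gal(Kvs (av j)/(av j).Completion) → Finset (Fin m) → ZMod p,
        RlE p (ι j α) (fun i => ι j (ϑ i : Kgs K)) c (Y j) := by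
      intro j
      obtain ⟨a1, a2, a3, a4, a5⟩ := hloc j
      exact exf hSep hRlc p K (av j) m (ι j α) _ _ _ a1 a2 a3 _ _ a4 a5 (Y j)
    choose f hf using hf
    have hε : ∀ j, ∃ ε : Finset (Fin m) → ZMod p, ∀ g, f j g = ε -
        rE (omS p av α) (fun i => hS p av α (D i : K)) (rOm p av α (ι j) g) ε := by
      intro j
      obtain ⟨a1, a2, a3, a4, a5⟩ := hloc j
      have := hchp j
      obtain ⟨-, -, -, h4, -, -, -⟩ := hRlc p (av j).Completion (Kvs (av j)) m (ι j α) _ _ _
        a1 a2 a3 _ _ a4 a5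
      have h5 := hf j
      rw [← hz j] at h5
      exact h4 (f j) (z j) h5
    choose ε hε using hε
    have hval := hlam Y f (0, -ε) hf ⟨IsLocallyConstant.const 0, fun g g' => by
        simp only [Pi.zero_apply, rE_zero, add_zero]⟩ (by
        intro j i
        rw [hε j]
        simp only [psi, Pi.zero_apply, Pi.neg_apply, rE_neg]
        abel)
    rw [hval]
    refine Finset.sum_eq_zero fun i _ => ?_
    rw [hε w₀]
    simp only [psi, Pi.zero_apply, Pi.neg_apply, rE_neg, Pi.sub_apply]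
    ring
  · -- (3)
    intro hη
    classical
    obtain ⟨i₀, hi₀⟩ := Function.ne_iff.mp hη
    obtain ⟨f₀, ⟨hf1, hf2, hf3⟩, -⟩ := HT.lt.u0 0 (by simp) (Pi.single i₀ 1)
    obtain ⟨a1, a2, a3, a4, a5⟩ := hloc w₀
    have := hchp w₀
    have hchL : CharP (Kvs (av w₀)) p :=
      charP_of_injective_algebraMap (algebraMap (av w₀).Completion (Kvs (av w₀))).injective p
    obtain ⟨-, -, -, -, -, -, hR⟩ := hRgo p K hK J av α h hh
    obtain ⟨-, -, -, hom, -, -⟩ := hR (av w₀) (ι w₀)
    obtain ⟨-, s2, s3⟩ := hSep p (av w₀).Completion (ι w₀ α) _ a1 a2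
    obtain ⟨x, β, hx⟩ := s3 f₀ (by
      have : (fun (g : Gal(Kvs (av w₀)/(av w₀).Completion)) (x : ZMod p) =>
          omc p (ι w₀ α) g * x) =
          fun g x => omS p av α (rOm p av α (ι w₀) g) * x := by
        funext g x
        rw [hom]
      rw [this]
      exact hf1)
    obtain ⟨-, -, b3, -, -, -⟩ := hHas p (av w₀).Completion (Kvs (av w₀)) (ι w₀ α) _ a1 a2
    obtain ⟨-, y₁, hy1, hy2⟩ := b3 x (by
      obtain ⟨y, hy⟩ := s2 (algebraMap _ _ x)
      rw [a2] at hy
      exact ⟨y, hy⟩)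
    -- the corrected root
    have hroot : ∃ y₂ : Kvs (av w₀), Ph p (ι w₀ α ^ (p - 1)) y₂ = algebraMap _ _ x ∧
        ∀ g : Gal(Kvs (av w₀)/(av w₀).Completion), g y₂ = y₂ + op (Kvs (av w₀)) (f₀ g) * ι w₀ α := by
      refine ⟨y₁ - op (Kvs (av w₀)) β * ι w₀ α, ?_, ?_⟩
      · have hp1 : ι w₀ α ^ p = ι w₀ α ^ (p - 1) * ι w₀ α := by
          rw [← pow_succ, Nat.sub_add_cancel (Fact.out : p.Prime).one_le]
        have hβp : op (Kvs (av w₀)) β ^ p = op (Kvs (av w₀)) β := by
          rw [op_eq, ← map_pow, ZMod.pow_card]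
        rw [← hy1, ← a2]
        simp only [Ph]
        rw [sub_pow_char, mul_pow, hβp, hp1]
        ring
      · intro g
        have hgop : g (op (Kvs (av w₀)) β) = op (Kvs (av w₀)) β := by
          simp only [op, map_natCast]
        rw [map_sub, map_mul, hgop, hy2 g, a4 g, hx g, ← hom g]
        simp only [op_eq, map_add, map_sub, map_mul]
        ring
    obtain ⟨y₂, hy3, hy4⟩ := hroot
    -- the families
    set xx : ∀ j, (av j).Completion := Pi.single w₀ x with hxx
    set cc : ∀ j, Gal(Kvs (av j)/(av j).Completion) → ZMod p := Pi.single w₀ f₀ with hcc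
    refine ⟨xx, ?_⟩
    have hRl : ∀ j, RlE p (ι j α) (fun i => ι j (ϑ i : Kgs K))
        (fun g => sgE (univ : Finset (Fin m)) (cc j g)) (sgE univ (xx j)) := by
      intro j
      obtain ⟨b1, b2, b3, b4, b5⟩ := hloc j
      have := hchp j
      obtain ⟨-, -, -, -, -, h6, -⟩ := hRlc p (av j).Completion (Kvs (av j)) m (ι j α) _ _ _
        b1 b2 b3 _ _ b4 b5
      by_cases hj : j = w₀
      · subst hj
        refine h6 (cc j) (xx j) y₂ ?_ ?_
        · rw [hxx, Pi.single_eq_same]
          exact hy3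
        · rw [hcc, Pi.single_eq_same]
          exact hy4
      · refine h6 (cc j) (xx j) 0 ?_ ?_
        · rw [hxx, Pi.single_eq_of_ne hj, map_zero, Ph,
            zero_pow (Fact.out : p.Prime).ne_zero, mul_zero, sub_zero]
        · intro g
          rw [hcc, Pi.single_eq_of_ne hj, map_zero, Pi.zero_apply]
          simp only [op, ZMod.val_zero, Nat.cast_zero, zero_mul, add_zero]
    have hsg0 : ∀ I : Finset (Fin m), sgE (m := m) I (0 : ZMod p) = 0 := by
      intro I
      funext I'
      simp [sgE]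
    have hval := hlam (fun j => sgE univ (xx j)) (fun j g => sgE univ (cc j g)) (0, 0) hRl
      ⟨IsLocallyConstant.const 0, fun g g' => by
        simp only [Pi.zero_apply, rE_zero, add_zero]⟩ (by
        intro j i
        simp only [psi, Pi.zero_apply, rE_zero, sub_zero]
        symm
        by_cases hj : j = w₀
        · subst hj
          rw [hcc, Pi.single_eq_same, hf2 i]
          exact hsg0 _
        · rw [hcc, Pi.single_eq_of_ne hj]
          exact hsg0 _)
    rw [hval]
    have hterm : ∀ i, η i * ((sgE (univ : Finset (Fin m)) (cc w₀ (e i))) univ -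
        psi (rE (omS p av α) fun i => hS p av α (D i : K)) (0, 0) w₀
          (rOm p av α (ι w₀) (e i)) univ) = if i = i₀ then η i else 0 := by
      intro i
      simp only [psi, Pi.zero_apply, rE_zero, sub_zero]
      rw [hcc, Pi.single_eq_same, hf3 i]
      by_cases hi : i = i₀
      · subst hi
        simp [sgE]
      · simp [sgE, hi]
    rw [Finset.sum_congr rfl fun i _ => hterm i]
    simpa using hi₀

end Pool.Agent.MP72P
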