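import Pool.Agent.Lib.MP_72e2e6_nt.P3.M.Spec

/-!
# MP_72e2e6_nt, theorem T3p, part M: Fnl, the functional
-/

namespace Pool.Agent.MP72P

open IntermediateField Finset

private theorem Fnl_abs {p m d : ℕ} {J G : Type} [Group G] [TopologicalSpace G]
    {Γ : J → Type} [∀ j, Group (Γ j)] {X : J → Type} [∀ j, AddCommGroup (X j)]
    (r : ∀ j, Γ j →* G) (ρ : G → (Finset (Fin m) → ZMod p) → Finset (Fin m) → ZMod p)
    (hadd : ∀ g x y, ρ g (x + y) = ρ g x + ρ g y)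
    (R : ∀ j, (Γ j → Finset (Fin m) → ZMod p) → X j → Prop)
    (hR : ∀ j f f' Y Y', R j f Y → R j f' Y' → R j (f + f') (Y + Y') ∧ R j (f - f') (Y - Y'))
    (hR0 : ∀ j f, R j f 0 → ∃ ε, ∀ g, f g = ε - ρ (r j g) ε)
    (T : J → Type) (t : ∀ j, T j → Γ j) (w₀ : J) (e : Fin d → Γ w₀)
    (hex : ∀ Y : ∀ j, X j, ∃ (f : ∀ j, Γ j → Finset (Fin m) → ZMod p)
      (ζ : (G → Finset (Fin m) → ZMod p) × (J → Finset (Fin m) → ZMod p)),
      (∀ j, R j (f j) (Y j)) ∧ Coc ρ ζ.1 ∧ ∀ j i, psi ρ ζ j (r j (t j i)) = f j (t j i))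
    (hT : ∀ ζ : (G → Finset (Fin m) → ZMod p) × (J → Finset (Fin m) → ZMod p), Coc ρ ζ.1 →
      (∀ j i, psi ρ ζ j (r j (t j i)) = 0) → ∀ i, psi ρ ζ w₀ (r w₀ (e i)) = 0)
    (η : Fin d → ZMod p) :
    ∃ lam : (∀ j, X j) →+ ZMod p, ∀ (Y : ∀ j, X j) (f : ∀ j, Γ j → Finset (Fin m) → ZMod p)
      (ζ : (G → Finset (Fin m) → ZMod p) × (J → Finset (Fin m) → ZMod p)),
      (∀ j, R j (f j) (Y j)) → Coc ρ ζ.1 →
      (∀ j i, psi ρ ζ j (r j (t j i)) = f j (t j i)) →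
      lam Y = ∑ i, η i * (f w₀ (e i) univ - psi ρ ζ w₀ (r w₀ (e i)) univ) := by
  have hsub : ∀ g x y, ρ g (x - y) = ρ g x - ρ g y := fun g x y => by
    have h1 := hadd g (x - y) y
    rw [sub_add_cancel] at h1
    rw [h1, add_sub_cancel_right]
  have hpa : ∀ (ζ ζ' : (G → Finset (Fin m) → ZMod p) × (J → Finset (Fin m) → ZMod p)) w g,
      psi ρ (ζ + ζ') w g = psi ρ ζ w g + psi ρ ζ' w g := fun ζ ζ' w g => by
    simp only [psi, Prod.fst_add, Prod.snd_add, Pi.add_apply, hadd]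
    abel
  have hps : ∀ (ζ ζ' : (G → Finset (Fin m) → ZMod p) × (J → Finset (Fin m) → ZMod p)) w g,
      psi ρ (ζ - ζ') w g = psi ρ ζ w g - psi ρ ζ' w g := fun ζ ζ' w g => by
    simp only [psi, Prod.fst_sub, Prod.snd_sub, Pi.sub_apply, hsub]
    abel
  have hca : ∀ Z Z' : G → Finset (Fin m) → ZMod p, Coc ρ Z → Coc ρ Z' → Coc ρ (Z + Z') :=
    fun Z Z' hZ hZ' => ⟨hZ.loc.add hZ'.loc, fun g h => by
      simp only [Pi.add_apply, hZ.mul, hZ'.mul, hadd]
      abel⟩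
  have hcs : ∀ Z Z' : G → Finset (Fin m) → ZMod p, Coc ρ Z → Coc ρ Z' → Coc ρ (Z - Z') :=
    fun Z Z' hZ hZ' => ⟨hZ.loc.sub hZ'.loc, fun g h => by
      simp only [Pi.sub_apply, hZ.mul, hZ'.mul, hsub]
      abel⟩
  -- independence of the choices
  have hV : ∀ (Y : ∀ j, X j) (f f' : ∀ j, Γ j → Finset (Fin m) → ZMod p)
      (ζ ζ' : (G → Finset (Fin m) → ZMod p) × (J → Finset (Fin m) → ZMod p)),
      (∀ j, R j (f j) (Y j)) → (∀ j, R j (f' j) (Y j)) → Coc ρ ζ.1 → Coc ρ ζ'.1 →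
      (∀ j i, psi ρ ζ j (r j (t j i)) = f j (t j i)) →
      (∀ j i, psi ρ ζ' j (r j (t j i)) = f' j (t j i)) →
      ∀ i, f w₀ (e i) - psi ρ ζ w₀ (r w₀ (e i)) = f' w₀ (e i) - psi ρ ζ' w₀ (r w₀ (e i)) := by
    intro Y f f' ζ ζ' hf hf' hζ hζ' ht ht' i
    have h1 : ∀ j, ∃ ε : Finset (Fin m) → ZMod p, ∀ g, (f j - f' j) g = ε - ρ (r j g) ε := by
      intro j
      have h2 := (hR j _ _ _ _ (hf j) (hf' j)).2
      rw [sub_self] at h2
      exact hR0 j _ h2
    choose ε hε using h1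
    have h3 : ∀ j g, psi ρ (ζ - ζ' + (0, ε)) j (r j g) =
        psi ρ ζ j (r j g) - psi ρ ζ' j (r j g) - (f j g - f' j g) := by
      intro j g
      rw [hpa, hps]
      have h4 : psi ρ ((0, ε) : (G → Finset (Fin m) → ZMod p) × (J → Finset (Fin m) → ZMod p)) j
          (r j g) = -(ε j - ρ (r j g) (ε j)) := by
        simp only [psi, Pi.zero_apply, zero_sub]
      rw [h4, ← hε j g, Pi.sub_apply]
      abel
    have h5 : Coc ρ (ζ - ζ' + (0, ε)).1 := by
      have h6 := hcs _ _ hζ hζ'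
      have h7 : (ζ - ζ' + ((0, ε) : (G → Finset (Fin m) → ZMod p) ×
          (J → Finset (Fin m) → ZMod p))).1 = ζ.1 - ζ'.1 := by
        simp
      rw [h7]
      exact h6
    have h8 := hT _ h5 (fun j i => by
      rw [h3, ht, ht']
      abel) i
    rw [h3] at h8
    have h9 : f w₀ (e i) - psi ρ ζ w₀ (r w₀ (e i)) - (f' w₀ (e i) - psi ρ ζ' w₀ (r w₀ (e i))) =
        -(psi ρ ζ w₀ (r w₀ (e i)) - psi ρ ζ' w₀ (r w₀ (e i)) - (f w₀ (e i) - f' w₀ (e i))) := by
      abel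
    rw [h8, neg_zero] at h9
    exact sub_eq_zero.1 h9
  choose f ζ hf hζ ht using hex
  let V : (∀ j, X j) → ZMod p := fun Y =>
    ∑ i, η i * (f Y w₀ (e i) univ - psi ρ (ζ Y) w₀ (r w₀ (e i)) univ)
  have hV1 : ∀ (Y : ∀ j, X j) (f' : ∀ j, Γ j → Finset (Fin m) → ZMod p)
      (ζ' : (G → Finset (Fin m) → ZMod p) × (J → Finset (Fin m) → ZMod p)),
      (∀ j, R j (f' j) (Y j)) → Coc ρ ζ'.1 →
      (∀ j i, psi ρ ζ' j (r j (t j i)) = f' j (t j i)) →
      V Y = ∑ i, η i * (f' w₀ (e i) univ - psi ρ ζ' w₀ (r w₀ (e i)) univ) := by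
    intro Y f' ζ' hf' hζ' ht'
    refine Finset.sum_congr rfl fun i _ => ?_
    have h1 := congrFun (hV Y (f Y) f' (ζ Y) ζ' (hf Y) hf' (hζ Y) hζ' (ht Y) ht' i) univ
    simp only [Pi.sub_apply] at h1
    rw [h1]
  refine ⟨AddMonoidHom.mk' V fun Y Y' => ?_, hV1⟩
  rw [hV1 (Y + Y') (f Y + f Y') (ζ Y + ζ Y') (fun j => (hR j _ _ _ _ (hf Y j) (hf Y' j)).1)
    (hca _ _ (hζ Y) (hζ Y')) (fun j i => by
      rw [hpa, ht, ht]
      rfl)]
  simp only [V]
  rw [← Finset.sum_add_distrib]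
  refine Finset.sum_congr rfl fun i _ => ?_
  rw [hpa]
  simp only [Pi.add_apply]
  ring

/-- The hypotheses of `S_Rlc` for the completions. -/
private theorem Fnl_loc (hHas : S_Has) (hH : S_Hst) (hR : S_Rgo) (p : ℕ) [Fact p.Prime] (K : Type)
    [Field K] [CharP K p] (hG : GFld p K) (J : Type) (av : J → AbsoluteValue K ℝ) (α : Kgs K) (h : K)
    (hs : HS p av α h) (m : ℕ) (D : Fin m → OS av) (ϑ : Fin m → OmS p av α)
    (hϑ : ∀ i, ϑ i ^ p - ϑ i = algebraMap K (OmS p av α) (D i : K)) (v : AbsoluteValue K ℝ)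
    (ι : Kgs K →ₐ[K] Kvs v) :
    ι α ≠ 0 ∧ ι α ^ (p - 1) = algebraMap v.Completion (Kvs v) (algebraMap K v.Completion h) ∧
    (∀ i, ι (ϑ i : Kgs K) ^ p - ι (ϑ i : Kgs K) =
      algebraMap v.Completion (Kvs v) (algebraMap K v.Completion (D i : K))) ∧
    (∀ g : Gal(Kvs v/v.Completion), g (ι α) = op (Kvs v) (omS p av α (rOm p av α ι g)) * ι α) ∧
    ∀ i (g : Gal(Kvs v/v.Completion)), g (ι (ϑ i : Kgs K)) =
      ι (ϑ i : Kgs K) + op (Kvs v) (hS p av α (D i : K) (rOm p av α ι g)) := by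
  obtain ⟨-, -, hgal, hα0, halo, halp, -⟩ := hH p K hG J av α h hs
  obtain ⟨-, -, -, -, -, -, hR'⟩ := hR p K hG J av α h hs
  obtain ⟨-, -, hres, -⟩ := hR' v ι
  have hne : alo p av α ≠ 0 := by
    intro h0
    apply hα0
    rw [← halo, h0]
    rfl
  have hop : ∀ c : ZMod p, ι ((op (OmS p av α) c : OmS p av α) : Kgs K) = op (Kvs v) c := by
    intro c
    have h1 : ((op (OmS p av α) c : OmS p av α) : Kgs K) = op (Kgs K) c := by
      rw [op, op]
      rfl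
    rw [h1, op, op, map_natCast]
  refine ⟨?_, ?_, fun i => ?_, fun g => ?_, fun i g => ?_⟩
  · rw [Ne, map_eq_zero]
    exact hα0
  · rw [← map_pow, hs.al, AlgHom.commutes, ← IsScalarTower.algebraMap_apply]
  · have h1 : ι ((ϑ i ^ p - ϑ i : OmS p av α) : Kgs K) =
        ι ((algebraMap K (OmS p av α) (D i : K) : OmS p av α) : Kgs K) := by
      rw [hϑ i]
    have h2 : ((ϑ i ^ p - ϑ i : OmS p av α) : Kgs K) = (ϑ i : Kgs K) ^ p - (ϑ i : Kgs K) := rfl
    have h3 : ((algebraMap K (OmS p av α) (D i : K) : OmS p av α) : Kgs K) =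
        algebraMap K (Kgs K) (D i : K) := rfl
    rw [h2, h3, map_sub, map_pow, AlgHom.commutes] at h1
    rw [h1, ← IsScalarTower.algebraMap_apply]
  · have h1 := ((hHas p K (OmS p av α) (alo p av α) h hne halp).1).2 (rOm p av α ι g)
    have h2 := hres g (alo p av α)
    rw [halo, h1] at h2
    rw [h2]
    have h3 : ((op (OmS p av α) (omc p (alo p av α) (rOm p av α ι g)) * alo p av α :
        OmS p av α) : Kgs K) = ((op (OmS p av α) (omc p (alo p av α) (rOm p av α ι g)) :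
          OmS p av α) : Kgs K) * ((alo p av α : OmS p av α) : Kgs K) := rfl
    rw [h3, map_mul, hop, halo]
    rfl
  · have hh := hHas p K (OmS p av α) (1 : OmS p av α) 1 one_ne_zero (by rw [one_pow, map_one])
    obtain ⟨c, hc⟩ := hh.2.1 (D i : K) (ϑ i) (by
      rw [Ph, map_one, one_mul, hϑ i])
    have h1 := hc (rOm p av α ι g)
    rw [hh.2.2.2.2.2, one_mul, sub_self, add_zero, mul_one] at h1
    rw [hres g (ϑ i), h1]
    have h3 : ((ϑ i + op (OmS p av α) (hP p 1 (D i : K) (rOm p av α ι g)) :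
        OmS p av α) : Kgs K) = (ϑ i : Kgs K) +
          ((op (OmS p av α) (hP p 1 (D i : K) (rOm p av α ι g)) : OmS p av α) : Kgs K) := rfl
    rw [h3, map_add, hop]
    rfl

theorem tFnl : S_Dsc → S_Lc2 → S_Has → S_Sep → S_Hst → S_Rgo → S_Uni2 → S_Act2 → S_Rlc →
    S_Tkz → S_Fnl := by
  classical
  intro _ _ hHas hSep hH hR hU hA hRlc hTkz p _ K _ _ hG J av α h ι d T t w₀ e y b hT m D hD ϑ hϑ η
  obtain ⟨-, -, -, -, -, -, hch, hh2, -, -, -, -, -, hhom, -, -⟩ := hH p K hG J av α h hT.hs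
  set ρ : GS p av α → (Finset (Fin m) → ZMod p) → Finset (Fin m) → ZMod p :=
    rE (omS p av α) fun i => hS p av α (D i : K) with hρ
  have hact : ActP p (omS p av α) ρ := hA p (GS p av α) (omS p av α) hch m
    (fun i => hS p av α (D i : K)) (fun i => hhom (D i) (D i).2)
  set T' := tsL (fun j => rOm p av α (ι j)) t w₀ e fun k => Sum.inr (y k) with hT'
  have hnz : NeZero p := ⟨(Fact.out : p.Prime).ne_zero⟩
  have hcard : Nat.card (Finset (Fin m) → ZMod p) = p ^ (2 ^ m) := by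
    rw [Nat.card_eq_fintype_card, Fintype.card_fun, ZMod.card, Fintype.card_finset, Fintype.card_fin]
  obtain ⟨hu, -⟩ := hU p (GS p av α) J d (omS p av α) (DS p av α ι) T' hch hh2 hT.ok
    (Finset (Fin m) → ZMod p) (2 ^ m) hcard ρ hact
  have hchp : ∀ j, CharP (av j).Completion p := fun j =>
    charP_of_injective_algebraMap (algebraMap K (av j).Completion).injective p
  have hloc := fun j => Fnl_loc hHas hH hR p K hG J av α h hT.hs m D ϑ hϑ (av j) (ι j)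
  have hrl := fun j => hRlc p (av j).Completion (Kvs (av j)) m (ι j α)
    (algebraMap K (av j).Completion h) (fun i => ι j (ϑ i : Kgs K))
    (fun i => algebraMap K (av j).Completion (D i : K)) (hloc j).1 (hloc j).2.1 (hloc j).2.2.1
    (fun g => omS p av α (rOm p av α (ι j) g))
    (fun i g => hS p av α (D i : K) (rOm p av α (ι j) g)) (hloc j).2.2.2.1 (hloc j).2.2.2.2
  refine Fnl_abs (p := p) (m := m) (d := d) (X := fun j => Finset (Fin m) → (av j).Completion)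
    (fun j => rOm p av α (ι j)) ρ hact.add
    (fun j f Y => RlE p (ι j α) (fun i => ι j (ϑ i : Kgs K)) f Y)
    (fun j f f' Y Y' h1 h2 => (hrl j).2.1 f f' Y Y' h1 h2)
    (fun j f h1 => (hrl j).2.2.1 f h1) T t w₀ e (fun Y => ?_) (fun ζ h1 h2 i => ?_) η
  · have h1 : ∀ j, ∃ f : Gal(Kvs (av j)/(av j).Completion) → Finset (Fin m) → ZMod p,
        RlE p (ι j α) (fun i => ι j (ϑ i : Kgs K)) f (Y j) := by
      intro j
      have h2 := (hSep p (av j).Completion (ι j α) (algebraMap K (av j).Completion h)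
        (hloc j).1 (hloc j).2.1).2.1
      refine (hrl j).2.2.2.2.1 ⊤ (Y j) (fun x _ => ?_) (Subring.mem_top _)
        (fun _ => Subring.mem_top _) (fun _ => Subring.mem_top _)
      obtain ⟨z, hz⟩ := h2 x
      exact ⟨z, Subring.mem_top _, hz⟩
    choose f hf using h1
    have hcf : ∀ j, Coc (fun g => ρ (rOm p av α (ι j) g)) (f j) := fun j =>
      (hrl j).1 (f j) (Y j) (hf j)
    have hfin : {i : (w : J) × T w | f i.1 (t i.1 i.2) ≠ 0}.Finite := by
      have := hT.hs.fin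
      have h2 : ∀ j, {i : T j | f j (t j i) ≠ 0}.Finite := by
        intro j
        have h3 : f j 1 = 0 := by
          have h4 := (hcf j).mul 1 1
          rw [mul_one, map_one, hact.one] at h4
          exact left_eq_add.1 h4
        exact hT.lt.conv j {g | f j g = 0} ((hcf j).loc.isOpen_fiber 0) h3
      have h4 : {i : (w : J) × T w | f i.1 (t i.1 i.2) ≠ 0} =
          ⋃ j, (fun i : T j => (⟨j, i⟩ : (w : J) × T w)) '' {i : T j | f j (t j i) ≠ 0} := by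
        ext ⟨j, i⟩
        simp only [Set.mem_ofPred_eq, Set.mem_iUnion, Set.mem_image]
        constructor
        · intro h5
          exact ⟨j, i, h5, rfl⟩
        · rintro ⟨j', i', h5, h6⟩
          obtain ⟨rfl, h7⟩ := Sigma.mk.inj h6
          obtain rfl := eq_of_heq h7
          exact h5
      rw [h4]
      exact Set.finite_iUnion fun j => (h2 j).image _
    obtain ⟨ζ, ⟨hζ1, hζ2, -⟩, -⟩ := hu (fun i => f i.1 (t i.1 i.2)) hfin fun _ => 0
    exact ⟨f, ζ, hf, hζ1, fun j i => hζ2 ⟨j, i⟩⟩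
  · have h3 := hTkz p K hG J av α h ι d T t w₀ e y b hT m D hD ζ h1 h2
    exact h3.2 w₀ _ ⟨e i, rfl⟩

end Pool.Agent.MP72P
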