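import Pool.Agent.Lib.MP_72e2e6_nt.P3.M.Spec

/-!
# MP_72e2e6_nt, theorem T3p, part M: the axioms `Fm.Good`
-/

namespace Pool.Agent.MP72P

open IntermediateField Finset

theorem tGdx : S_Na → S_FiK → S_Has → S_Hst → S_Bgl → S_Nds → S_Gdx := by
  classical
  intro na fik _ hst bgl nds p _ K _ _ hG J av α h ι d T t w₀ e y b H
  obtain ⟨_, _, _, _, _, _, hch, hH2, _, _, _, _, _, hhom, hadd, _⟩ :=
    hst p K hG J av α h H.hs
  have hfin : Finite J := H.hs.fin
  have hft : Fintype J := Fintype.ofFinite J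
  refine ⟨hch, fun x => hhom (x : K) x.2, fun x x' g => hadd (x : K) x.2 (x' : K) x'.2 g, hH2,
    ?_, ?_, ?_, H.ok, ?_, ?_, ?_⟩
  · intro n
    have h1 := fik p K hG J av H.hs.pls (2 ^ n)
    refine (h1.preimage (f := (Subtype.val : OS av → K)) Subtype.val_injective.injOn).subset ?_
    intro x hx
    exact ⟨x.2, fun j => hx j (na p K (av j))⟩
  · intro n n' hn x hx j hj
    exact (hx j hj).trans (pow_le_pow_right₀ one_le_two hn)
  · intro x
    have h1 : ∀ j, ∃ n : ℕ, av j (x : K) < 2 ^ n := fun j =>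
      pow_unbounded_of_one_lt _ one_lt_two
    choose n hn using h1
    refine ⟨Finset.univ.sup n, fun j _ => (hn j).le.trans ?_⟩
    exact pow_le_pow_right₀ one_le_two (Finset.le_sup (f := n) (Finset.mem_univ j))
  · intro x
    have h1 : p • x = 0 := by
      refine Subtype.ext ?_
      rw [nsmul_eq_mul]
      show (((p : ℕ) : OS av) : K) * (x : K) = 0
      have h2 : (((p : ℕ) : OS av) : K) = ((p : ℕ) : K) := rfl
      rw [h2, CharP.cast_eq_zero, zero_mul]
    rw [h1]
    exact zero_mem _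
  · exact fun C => bgl p K hG J av H.hs.pls b C
  · exact fun z hz hz' => nds p K hG J av α h ι d T t w₀ e y b H z hz hz'

end Pool.Agent.MP72P
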