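import Pool.Agent.Lib.MP_72e2e6_nt.P3.M.Spec

/-!
# MP_72e2e6_nt, theorem T3p, part M: Lnz
-/

namespace Pool.Agent.MP72P

open IntermediateField Finset

private theorem Lnz_norm {K : Type} [Field K] {v : AbsoluteValue K ℝ} (x : K) :
    ‖algebraMap K v.Completion x‖ = v x :=
  UniformSpace.Completion.norm_coe (WithAbs.toAbs v x)

theorem tLnz : S_Str → S_Den → S_Lnz := by
  intro hS hD p _ K _ _ hG J _ _ av hav μ₀ hμ hμ0 j κ hκ
  by_contra hcon
  push Not at hcon
  have h0 : ∀ y : (av j).Completion, μ₀ (Pi.single j y) = 0 := fun y => by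
    have h1 := hcon (κ⁻¹ * y)
    rwa [← mul_assoc, mul_inv_cancel₀ hκ, one_mul] at h1
  obtain ⟨r, hr, hcr⟩ := hμ.con
  refine hμ0 (AddMonoidHom.ext fun y => ?_)
  rw [AddMonoidHom.zero_apply]
  obtain ⟨x, hx⟩ := hD K J av hav y (r / 2) (half_pos hr)
  obtain ⟨f, hf, hfx⟩ := hS p K hG J av hav j (fun _ => x) (r / 2) (half_pos hr)
  let f' : ∀ i, (av i).Completion := fun i => algebraMap K (av i).Completion f
  have h1 : μ₀ f' = 0 := hμ.van f hf
  let u : ∀ i, (av i).Completion := fun i => if i = j then 0 else y i - f' i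
  have h2 : y = f' + (Pi.single j (y j - f' j) + u) := by
    funext i
    simp only [Pi.add_apply, u]
    by_cases hi : i = j
    · subst hi
      simp
    · rw [Pi.single_eq_of_ne hi, if_neg hi]
      ring
  have h3 : μ₀ u = 0 := by
    apply hcr
    intro i
    simp only [u]
    by_cases hi : i = j
    · rw [if_pos hi, norm_zero]
      exact hr.le
    · rw [if_neg hi]
      have h4 : y i - f' i = (y i - algebraMap K (av i).Completion x) -
          algebraMap K (av i).Completion (f - x) := by
        simp only [f', map_sub]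
        ring
      rw [h4]
      refine (norm_sub_le _ _).trans ?_
      rw [Lnz_norm, ← norm_neg, neg_sub]
      have h5 := hx i
      have h6 := hfx i hi
      linarith
  rw [h2, map_add, map_add, h1, h3, h0]
  simp

end Pool.Agent.MP72P
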