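import Pool.Agent.Lib.MP_72e2e6_nt.P3.M.Spec

/-!
# MP_72e2e6_nt, theorem T3p, part M: the first derivative of the pair
-/

namespace Pool.Agent.MP72P

open IntermediateField Finset

section alg

variable {p m : ℕ} {G : Type}

private theorem ndf_sum {I : Finset (Fin m)} (F : Finset (Fin (m + 1)) → ZMod p) :
    ∑ A ∈ (I.image Fin.succ).powerset, F A = ∑ A ∈ I.powerset, F (A.image Fin.succ) := by
  rw [Finset.powerset_image, Finset.sum_image]
  intro A _ B _ h
  exact Finset.image_injective (Fin.succ_injective m) h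

private theorem ndf_nm (I : Finset (Fin m)) : (0 : Fin (m + 1)) ∉ I.image Fin.succ := by
  intro h
  obtain ⟨j, -, hj⟩ := Finset.mem_image.1 h
  exact Fin.succ_ne_zero j hj

private theorem ndf_sd (I A : Finset (Fin m)) :
    I.image Fin.succ \ A.image Fin.succ = (I \ A).image Fin.succ :=
  (Finset.image_sdiff (f := Fin.succ) I A (Fin.succ_injective m)).symm

private theorem ndf_pr (δ : Fin (m + 1) → ZMod p) (A : Finset (Fin m)) :
    ∏ j ∈ A.image Fin.succ, δ j = ∏ j ∈ A, δ j.succ :=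
  Finset.prod_image fun _ _ _ _ h => Fin.succ_injective m h

private theorem ndfA (ω : G → ZMod p) (δ : Fin (m + 1) → G → ZMod p) (g : G)
    (f : Finset (Fin (m + 1)) → ZMod p) (I : Finset (Fin m)) :
    rE ω δ g f (I.image Fin.succ) =
      rE ω (fun j => δ j.succ) g (fun I' => f (I'.image Fin.succ)) I := by
  unfold rE
  rw [ndf_sum]
  congr 1
  refine Finset.sum_congr rfl fun A _ => ?_
  rw [ndf_pr (fun j => δ j g) A, ndf_sd]

private theorem ndfB (ω : G → ZMod p) (δ : Fin (m + 1) → G → ZMod p) (g : G)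
    (f : Finset (Fin (m + 1)) → ZMod p) (I : Finset (Fin m)) :
    rE ω δ g f (insert 0 (I.image Fin.succ)) =
      rE ω (fun j => δ j.succ) g (fun I' => f (insert 0 (I'.image Fin.succ))) I +
        δ 0 g * rE ω (fun j => δ j.succ) g (fun I' => f (I'.image Fin.succ)) I := by
  unfold rE
  rw [Finset.sum_powerset_insert (ndf_nm I), ndf_sum, ndf_sum, mul_add, mul_left_comm (δ 0 g),
    Finset.mul_sum (a := δ 0 g)]
  congr 2
  · refine Finset.sum_congr rfl fun A _ => ?_
    beta_reduce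
    rw [ndf_pr (fun j => δ j g) A, ← ndf_sd]
    congr 2
    rw [Finset.insert_sdiff_of_notMem _ (ndf_nm A)]
  · refine Finset.sum_congr rfl fun A _ => ?_
    beta_reduce
    rw [Finset.prod_insert (ndf_nm A), ndf_pr (fun j => δ j g) A, ← ndf_sd, mul_assoc]
    congr 3
    rw [Finset.insert_sdiff_insert, Finset.sdiff_insert_of_notMem (ndf_nm I)]

private theorem ndf_sub (ω : G → ZMod p) (δ : Fin m → G → ZMod p) (g : G)
    (f f' : Finset (Fin m) → ZMod p) : rE ω δ g (f - f') = rE ω δ g f - rE ω δ g f' := by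
  funext I
  unfold rE
  rw [Pi.sub_apply, ← mul_sub, ← Finset.sum_sub_distrib]
  congr 1
  refine Finset.sum_congr rfl fun A _ => ?_
  rw [Pi.sub_apply, mul_sub]

private theorem ndf_zero (ω : G → ZMod p) (δ : Fin m → G → ZMod p) (g : G) :
    rE ω δ g 0 = 0 := by
  have h := ndf_sub ω δ g 0 0
  rwa [sub_self, sub_self] at h

private theorem ndf_neg (ω : G → ZMod p) (δ : Fin m → G → ZMod p) (g : G)
    (f : Finset (Fin m) → ZMod p) : rE ω δ g (-f) = -rE ω δ g f := by
  have h := ndf_sub ω δ g 0 f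
  rwa [zero_sub, ndf_zero, zero_sub] at h

private theorem ndf_id (ω : G → ZMod p) (δ : Fin m → G → ZMod p) (g : G) (h1 : ω g = 1)
    (h2 : ∀ j, δ j g = 0) (f : Finset (Fin m) → ZMod p) : rE ω δ g f = f := by
  funext I
  unfold rE
  rw [h1, one_mul, Finset.sum_eq_single ∅]
  · rw [Finset.prod_empty, one_mul, Finset.sdiff_empty]
  · intro A _ hA
    obtain ⟨j, hj⟩ := Finset.nonempty_iff_ne_empty.2 hA
    rw [Finset.prod_eq_zero hj (h2 j), zero_mul]
  · intro h
    exact absurd (Finset.empty_mem_powerset I) h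

private theorem ndf_univ : (univ : Finset (Fin (m + 1))) = insert 0 ((univ : Finset (Fin m)).image Fin.succ) := by
  ext j
  refine ⟨fun _ => ?_, fun _ => Finset.mem_univ _⟩
  rcases Fin.eq_zero_or_eq_succ j with h | ⟨i, rfl⟩
  · rw [h]
    exact Finset.mem_insert_self _ _
  · exact Finset.mem_insert_of_mem (Finset.mem_image_of_mem _ (Finset.mem_univ i))

end alg

theorem tNdf : S_Has → S_Hst → S_Rgo → S_Uni2 → S_Act2 → S_Lk1 → S_Ndf := by
  intro hHas hHst hRgo hUni hAct hLk1 p _ K _ _ hGF J av α h ι d T t w₀ e y b hTs m D hD z hz x ζ' hζ1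
    hζ2 hζ3
  obtain ⟨-, -, -, -, -, -, hω, hH2, -, -, -, -, -, hHom, -, -⟩ := hHst p K hGF J av α h hTs.hs
  obtain ⟨-, -, -, -, -, -, hloc⟩ := hRgo p K hGF J av α h hTs.hs
  obtain ⟨b₂, hz1, hz2⟩ := ((hLk1 p K hGF J av α h hTs.hs hTs.sha ι).1 z).1 hz
  -- the data
  obtain ⟨ω, hωd⟩ : ∃ ω, ω = omS p av α := ⟨_, rfl⟩
  obtain ⟨δ', hδ'⟩ : ∃ δ' : Fin (m + 1) → GS p av α → ZMod p,
      δ' = fun i => hS p av α ((Fin.cons x D : Fin (m + 1) → OS av) i : K) := ⟨_, rfl⟩
  obtain ⟨δ, hδ⟩ : ∃ δ : Fin m → GS p av α → ZMod p, δ = fun i => hS p av α (D i : K) := ⟨_, rfl⟩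
  have hδs : (fun j : Fin m => δ' j.succ) = δ := by rw [hδ, hδ']; rfl
  have hδ0 : δ' 0 = hS p av α (x : K) := by rw [hδ']; rfl
  rw [← hωd, ← hδ'] at hζ1 hζ2
  rw [← hωd] at hω hH2
  have hρ' : ActP p ω (rE ω δ') := hAct p _ ω hω _ δ' fun i => by
    rw [hδ']
    exact hHom _ (SetLike.coe_mem _)
  have hρ : ActP p ω (rE ω δ) := hAct p _ ω hω _ δ fun i => by
    rw [hδ]
    exact hHom _ (SetLike.coe_mem _)
  obtain ⟨a, ha⟩ : ∃ a : J → ZMod p, a = fun w => z.2 w - z.2 b := ⟨_, rfl⟩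
  -- `a` at the places
  have ha0 : ∀ w, a w ≠ 0 → w ≠ b ∧ ∀ g ∈ DS p av α ι w, ω g = 1 := by
    intro w hw
    refine ⟨?_, ?_⟩
    · rintro rfl
      rw [ha] at hw
      exact hw (sub_self _)
    · intro g hg
      by_contra hg1
      rw [hωd] at hg1
      rcases hTs.bs with hb | hb
      · exact hg1 (hb g)
      · apply hw
        rw [ha]
        change z.2 w - z.2 b = 0
        rw [hz2 w ⟨g, hg, hg1⟩, hz2 b hb, sub_self]
  have hDz : ∀ w, w ≠ b → ∀ (g : _) (j : Fin m), δ j (rOm p av α (ι w) g) = 0 := by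
    intro w hw g j
    obtain ⟨-, -, -, -, hf, -⟩ := hloc (av w) (ι w)
    rw [hδ]
    change hS p av α (D j : K) _ = 0
    rw [hf _ (D j).2 g]
    have hcK : CharP (av w).Completion p :=
      charP_of_injective_algebraMap (algebraMap K (av w).Completion).injective p
    have hcV : CharP (Kvs (av w)) p :=
      charP_of_injective_algebraMap (algebraMap (av w).Completion (Kvs (av w))).injective p
    obtain ⟨-, -, -, -, h5, h6⟩ := hHas p (av w).Completion (Kvs (av w)) 1 1 one_ne_zero (by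
      rw [one_pow, map_one])
    obtain ⟨y, hy⟩ := hD j w hw
    obtain ⟨c, hc⟩ := (h5 (algebraMap K (av w).Completion (D j : K))
      ⟨algebraMap (av w).Completion (Kvs (av w)) y, by
        unfold Ph
        rw [map_one, one_mul, ← map_pow, ← map_sub, hy]⟩).2 ⟨y, by
        unfold Ph
        rw [one_mul, hy]⟩
    rw [hc g, h6 g, one_mul, sub_self]
  have hfix : ∀ (w : J) (g : _), rE ω δ (rOm p av α (ι w) g) (sgE ∅ (a w)) = sgE ∅ (a w) := by
    intro w g
    by_cases hw : a w = 0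
    · have h0 : (sgE ∅ (a w) : Finset (Fin m) → ZMod p) = 0 := by
        funext I
        unfold sgE
        rw [hw]
        simp
      rw [h0, ndf_zero]
    · obtain ⟨h1, h2⟩ := ha0 w hw
      exact ndf_id ω δ _ (h2 _ ⟨g, rfl⟩) (fun j => hDz w h1 g j) _
  -- the modified pair
  obtain ⟨C, hC⟩ : ∃ C : Finset (Fin (m + 1)) → ZMod p, C = sgE ∅ (z.2 b) := ⟨_, rfl⟩
  obtain ⟨u, hu⟩ : ∃ u : (GS p av α → Finset (Fin (m + 1)) → ZMod p) ×
      (J → Finset (Fin (m + 1)) → ZMod p),
      u = (fun g => ζ'.1 g - (C - rE ω δ' g C), fun w => ζ'.2 w - C) := ⟨_, rfl⟩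
  have hu1 : ∀ g, u.1 g = ζ'.1 g - (C - rE ω δ' g C) := fun g => by rw [hu]
  have hu2 : ∀ w, u.2 w = ζ'.2 w - C := fun w => by rw [hu]
  have hpsi : ∀ w g, psi (rE ω δ') u w g = psi (rE ω δ') ζ' w g := by
    intro w g
    unfold psi
    rw [hu1, hu2, ndf_sub]
    abel
  have hucoc : Coc (rE ω δ') u.1 := by
    refine ⟨?_, ?_⟩
    · have h1 : u.1 = fun g => ζ'.1 g - (C - rE ω δ' g C) := funext hu1
      rw [h1]
      exact hζ1.loc.sub ((IsLocallyConstant.const C).sub (hρ'.loc C))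
    · intro g g'
      rw [hu1, hu1, hu1, hζ1.mul, hρ'.mul, ndf_sub, ndf_sub]
      abel
  -- the part `0`
  have hz0 : ((fun g I => u.1 g (I.image Fin.succ), fun w I => u.2 w (I.image Fin.succ)) :
      (GS p av α → Finset (Fin m) → ZMod p) × (J → Finset (Fin m) → ZMod p)) =
      (0, fun w => sgE ∅ (a w)) := by
    have hcard : Nat.card (Finset (Fin m) → ZMod p) = p ^ Nat.card (Finset (Fin m)) := by
      rw [Nat.card_fun, Nat.card_zmod]
    obtain ⟨hU, -⟩ := hUni p (GS p av α) J d ω (DS p av α ι) _ hω hH2 (by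
      rw [hωd]
      exact hTs.ok) (Finset (Fin m) → ZMod p) _ hcard (rE ω δ) hρ
    refine (hU (fun _ => 0) (by simp) (fun k => sgE ∅ (a (y k)))).unique ⟨?_, ?_, ?_⟩ ⟨?_, ?_, ?_⟩
    · refine ⟨?_, ?_⟩
      · exact hucoc.loc.comp fun (f : Finset (Fin (m + 1)) → ZMod p) (I : Finset (Fin m)) =>
          f (I.image Fin.succ)
      · intro g g'
        funext I
        change u.1 (g * g') (I.image Fin.succ) = u.1 g (I.image Fin.succ) +
          rE ω δ g (fun I' => u.1 g' (I'.image Fin.succ)) I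
        rw [hucoc.mul, Pi.add_apply, ndfA, hδs]
    · rintro ⟨w, i⟩
      funext I
      have h1 := congrFun (hζ2 w i) (I.image Fin.succ)
      rw [← hpsi] at h1
      change u.1 _ (I.image Fin.succ) - (u.2 w (I.image Fin.succ) -
        rE ω δ _ (fun I' => u.2 w (I'.image Fin.succ)) I) = 0
      rw [← hδs, ← ndfA]
      exact h1
    · intro k
      funext I
      change u.2 (y k) (I.image Fin.succ) = sgE ∅ (a (y k)) I
      rw [hu2, Pi.sub_apply, hζ3, hC, ha]
      unfold sgE
      by_cases hI : I = ∅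
      · rw [hI, Finset.image_empty, if_pos rfl, if_pos rfl, if_pos rfl]
      · rw [if_neg (fun h => hI (Finset.image_eq_empty.1 h)),
          if_neg (fun h => hI (Finset.image_eq_empty.1 h)), if_neg hI, sub_zero]
    · refine ⟨IsLocallyConstant.const 0, fun g g' => ?_⟩
      change (0 : Finset (Fin m) → ZMod p) = 0 + rE ω δ g 0
      rw [ndf_zero, add_zero]
    · rintro ⟨w, i⟩
      change (0 : Finset (Fin m) → ZMod p) - (sgE ∅ (a w) - rE ω δ (rOm p av α (ι w) (t w i))
        (sgE ∅ (a w))) = 0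
      rw [hfix, sub_self, sub_zero]
    · intro k
      rfl
  have h01 : ∀ g (I : Finset (Fin m)), u.1 g (I.image Fin.succ) = 0 := fun g I =>
    congrFun (congrFun (congrArg Prod.fst hz0) g) I
  have h02 : ∀ w, (fun I : Finset (Fin m) => u.2 w (I.image Fin.succ)) = sgE ∅ (a w) := fun w =>
    congrFun (congrArg Prod.snd hz0) w
  -- the part `1`
  have hkey : ∀ (w : J) (g : _) (I : Finset (Fin m)),
      psi (rE ω δ') ζ' w (rOm p av α (ι w) g) (insert 0 (I.image Fin.succ)) =
        sgE ∅ (hS p av α (x : K) (rOm p av α (ι w) g) * a w) I -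
          psi (rE ω δ) ((fun g I => -u.1 g (insert 0 (I.image Fin.succ)),
            fun w I => -u.2 w (insert 0 (I.image Fin.succ))) :
            (GS p av α → Finset (Fin m) → ZMod p) × (J → Finset (Fin m) → ZMod p)) w
            (rOm p av α (ι w) g) I := by
    intro w g I
    rw [← hpsi]
    unfold psi
    rw [Pi.sub_apply, Pi.sub_apply, Pi.sub_apply, Pi.sub_apply, ndfB, hδs, hδ0, h02, hfix]
    have e1 : (fun I' : Finset (Fin m) => -u.2 w (insert 0 (I'.image Fin.succ))) =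
        -(fun I' : Finset (Fin m) => u.2 w (insert 0 (I'.image Fin.succ))) := rfl
    have e2 : (sgE ∅ (hS p av α (x : K) (rOm p av α (ι w) g) * a w) : Finset (Fin m) → ZMod p) I =
        hS p av α (x : K) (rOm p av α (ι w) g) * sgE ∅ (a w) I := by
      unfold sgE
      split_ifs
      · rfl
      · rw [mul_zero]
    dsimp only
    rw [e2, e1, ndf_neg, Pi.neg_apply]
    ring
  refine ⟨(fun g I => -u.1 g (insert 0 (I.image Fin.succ)),
    fun w I => -u.2 w (insert 0 (I.image Fin.succ))), ?_, ?_, ?_⟩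
  · rw [← hωd, ← hδ]
    refine ⟨?_, ?_⟩
    · exact hucoc.loc.comp fun (f : Finset (Fin (m + 1)) → ZMod p) (I : Finset (Fin m)) =>
        -f (insert 0 (I.image Fin.succ))
    · intro g g'
      funext I
      change -u.1 (g * g') (insert 0 (I.image Fin.succ)) = -u.1 g (insert 0 (I.image Fin.succ)) +
        rE ω δ g (-(fun I' : Finset (Fin m) => u.1 g' (insert 0 (I'.image Fin.succ)))) I
      have e1 : (fun I' : Finset (Fin m) => u.1 g' (I'.image Fin.succ)) = 0 := funext fun I' => h01 g' I'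
      rw [hucoc.mul, Pi.add_apply, ndfB, hδs, e1, ndf_zero, Pi.zero_apply, mul_zero, add_zero, ndf_neg,
        Pi.neg_apply]
      ring
  · intro w i
    rw [← hωd, ← hδ]
    funext I
    have h1 := hkey w (t w i) I
    rw [hζ2 w i] at h1
    rw [ha] at h1
    exact (sub_eq_zero.1 h1.symm).symm
  · intro i
    rw [← hωd, ← hδ', ← hδ]
    have h1 := hkey w₀ (e i) univ
    rw [ha] at h1
    rw [← h1, ndf_univ]

end Pool.Agent.MP72P
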