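import Pool.Agent.Lib.MP_72e2e6_nt.P3.M.Spec

/-!
# MP_72e2e6_nt, block M: the value in Nd
-/

namespace Pool.Agent.MP72P

open Finset Polynomial

open scoped Classical

private theorem ndv_fp {p : ℕ} [Fact p.Prime] {L : Type} [Field L] [CharP L p] (z : L)
    (hz : z ^ p = z) : ∃ a : ZMod p, op L a = z := by
  have hop : ∀ a : ZMod p, op L a = ZMod.castHom (dvd_refl p) L a := fun a => by
    rw [ZMod.castHom_apply, op, ZMod.natCast_val]
  by_contra h
  push Not at h
  have hp1 : 1 < p := (Fact.out : p.Prime).one_lt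
  have hP : (X ^ p - X : L[X]) ≠ 0 := FiniteField.X_pow_card_sub_X_ne_zero L hp1
  have hdeg : (X ^ p - X : L[X]).natDegree = p := FiniteField.X_pow_card_sub_X_natDegree_eq L hp1
  have hinj : Function.Injective (ZMod.castHom (dvd_refl p) L) := RingHom.injective _
  let S : Finset L := insert z (univ.image (ZMod.castHom (dvd_refl p) L))
  have hS : S ⊆ (X ^ p - X : L[X]).roots.toFinset := by
    intro x hx
    rw [Multiset.mem_toFinset, mem_roots hP]
    rcases Finset.mem_insert.mp hx with h' | h'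
    · simp [h', hz]
    · obtain ⟨a, -, ha⟩ := Finset.mem_image.mp h'
      rw [← ha]
      have : (ZMod.castHom (dvd_refl p) L) a ^ p = (ZMod.castHom (dvd_refl p) L) a := by
        rw [← map_pow, ZMod.pow_card]
      simp only [IsRoot, eval_sub, eval_pow, eval_X, this, sub_self]
  have hc : S.card = p + 1 := by
    rw [Finset.card_insert_of_notMem, Finset.card_image_of_injective _ hinj, Finset.card_univ,
      ZMod.card]
    intro h'
    obtain ⟨a, -, ha⟩ := Finset.mem_image.mp h'
    exact h a ((hop a).trans ha)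
  have h1 := Finset.card_le_card hS
  have h2 := Multiset.toFinset_card_le (X ^ p - X : L[X]).roots
  have h3 := card_roots' (X ^ p - X : L[X])
  omega

private theorem ndv_op0 {p : ℕ} [Fact p.Prime] (L : Type) [Field L] :
    op L (0 : ZMod p) = 0 := by
  simp [op]

private theorem ndv_op1 {p : ℕ} [Fact p.Prime] (L : Type) [Field L] :
    op L (1 : ZMod p) = 1 := by
  have : Fact (1 < p) := ⟨(Fact.out : p.Prime).one_lt⟩
  simp [op, ZMod.val_one]

private theorem ndv_alg {p : ℕ} [Fact p.Prime] (k L : Type) [Field k] [Field L] [Algebra k L]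
    (a : ZMod p) : algebraMap k L (op k a) = op L a := by
  unfold op
  rw [map_natCast]

theorem tNdv : S_Dsc → S_Has → S_Sep → S_Hst → S_Rgo → S_Lk1 → S_Rlc → S_Ndf → S_Ndv := by
  intro _ hHas hSep _ hRgo hLk1 hRlc hNdf
  intro p _ K _ _ hG J av α h ι d T t w₀ e y b hT m D hD ϑ hϑ η lam hlam z hz
  obtain ⟨-, -, -, -, -, -, hR⟩ := hRgo p K hG J av α h hT.hs
  have hα0 : α ≠ 0 := by
    intro h0
    have h1 := hT.hs.al
    have hp1 : p - 1 ≠ 0 := by
      have := (Fact.out : p.Prime).one_lt
      omega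
    rw [h0, zero_pow hp1] at h1
    exact hT.hs.h0 ((map_eq_zero (algebraMap K (Kgs K))).mp h1.symm)
  have hch : ∀ j, CharP (av j).Completion p := fun j =>
    charP_of_injective_algebraMap (algebraMap K (av j).Completion).injective p
  have hch' : ∀ j, CharP (Kvs (av j)) p := fun j => by
    have := hch j
    exact charP_of_injective_algebraMap (algebraMap (av j).Completion (Kvs (av j))).injective p
  -- the places with nonzero `a`
  have hA : ∀ j, z.2 j ≠ z.2 b → j ≠ b ∧ ∀ g ∈ DS p av α ι j, omS p av α g = 1 := by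
    intro j hj
    refine ⟨fun h0 => hj (by rw [h0]), fun g hg => ?_⟩
    by_contra hne
    obtain ⟨b₂, -, hb₂⟩ := ((hLk1 p K hG J av α h hT.hs hT.sha ι).1 z).mp hz
    rcases hT.bs with h1 | h1
    · exact hne (h1 g)
    · exact hj ((hb₂ j ⟨g, hg, hne⟩).trans (hb₂ b h1).symm)
  have hcomm : ∀ (j : J) (x : K), ι j (algebraMap K (Kgs K) x) =
      algebraMap (av j).Completion (Kvs (av j)) (algebraMap K (av j).Completion x) := by
    intro j x
    rw [AlgHom.commutes]
    exact IsScalarTower.algebraMap_apply K (av j).Completion (Kvs (av j)) x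
  have hαh : ∀ j, (ι j α) ^ (p - 1) = algebraMap (av j).Completion (Kvs (av j))
      (algebraMap K (av j).Completion h) := by
    intro j
    rw [← map_pow, hT.hs.al, hcomm]
  have hια : ∀ j, ι j α ≠ 0 := fun j => by
    intro h0
    exact hα0 ((map_eq_zero (ι j)).mp h0)
  have hϑK : ∀ i, (ϑ i : Kgs K) ^ p - (ϑ i : Kgs K) = algebraMap K (Kgs K) (D i : K) := by
    intro i
    have := congrArg (fun x : OmS p av α => (x : Kgs K)) (hϑ i)
    exact this
  have hϑj : ∀ j i, (ι j (ϑ i : Kgs K)) ^ p - ι j (ϑ i : Kgs K) =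
      algebraMap (av j).Completion (Kvs (av j)) (algebraMap K (av j).Completion (D i : K)) := by
    intro j i
    rw [← map_pow, ← map_sub, hϑK i, hcomm]
  have hB : ∀ j, ∃ (α₀ : (av j).Completion) (ϑ₀ : Fin m → (av j).Completion), z.2 j ≠ z.2 b →
      algebraMap (av j).Completion (Kvs (av j)) α₀ = ι j α ∧
      ∀ i, algebraMap (av j).Completion (Kvs (av j)) (ϑ₀ i) = ι j (ϑ i : Kgs K) := by
    intro j
    by_cases hj : z.2 j = z.2 b
    · exact ⟨0, 0, fun h0 => absurd hj h0⟩
    obtain ⟨hjb, hω⟩ := hA j hj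
    have := hch j
    have := hch' j
    obtain ⟨⟨-, ha⟩, -⟩ := hHas p (av j).Completion (Kvs (av j)) (ι j α)
      (algebraMap K (av j).Completion h) (hια j) (hαh j)
    obtain ⟨α₀, hα₀⟩ := (InfiniteGalois.mem_range_algebraMap_iff_fixed
      (k := (av j).Completion) (K := Kvs (av j)) (ι j α)).mpr fun g => by
        rw [ha g, ← (hR (av j) (ι j)).2.2.2.1 g, hω _ ⟨g, rfl⟩, ndv_op1, one_mul]
    have hthe : ∀ i, ∃ x₀ : (av j).Completion,
        algebraMap (av j).Completion (Kvs (av j)) x₀ = ι j (ϑ i : Kgs K) := by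
      intro i
      obtain ⟨y₀, hy₀⟩ := hD i j hjb
      have e1 := congrArg (algebraMap (av j).Completion (Kvs (av j))) hy₀
      rw [map_sub, map_pow] at e1
      obtain ⟨a, ha⟩ := ndv_fp (p := p)
        (ι j (ϑ i : Kgs K) - algebraMap (av j).Completion (Kvs (av j)) y₀) (by
          rw [sub_pow_char]
          linear_combination hϑj j i - e1)
      refine ⟨y₀ + op _ a, ?_⟩
      rw [map_add, ndv_alg, ha]
      ring
    choose ϑ₀ hϑ₀ using hthe
    exact ⟨α₀, ϑ₀, fun _ => ⟨hα₀, hϑ₀⟩⟩
  choose α₀ ϑ₀ hαϑ using hB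
  let q : ∀ j, Finset (Fin m) → (av j).Completion := fun j I => if z.2 j = z.2 b then 0 else
    op (av j).Completion (z.2 j - z.2 b) * α₀ j ^ p *
      cv (prE fun i => algebraMap K (av j).Completion (D i : K)) (prE (ϑ₀ j)) I
  refine ⟨q, fun j hj => ?_, fun j hj => ⟨α₀ j, ϑ₀ j, (hαϑ j hj).1, (hαϑ j hj).2, fun I => ?_⟩, ?_⟩
  · funext I
    exact if_pos hj
  · exact if_neg hj
  intro x ζ' hζ1 hζ2 hζ3
  obtain ⟨ζ, c1, c2, c3⟩ := hNdf p K hG J av α h ι d T t w₀ e y b hT m D hD z hz x ζ' hζ1 hζ2 hζ3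
  have hrel : ∀ j, RlE p (ι j α) (fun i => ι j (ϑ i : Kgs K))
      (fun g => sgE (m := m) ∅ (hS p av α (x : K) (rOm p av α (ι j) g) * (z.2 j - z.2 b)))
      (fun I => algebraMap K (av j).Completion (x : K) * q j I) := by
    intro j
    have := hch j
    have := hch' j
    by_cases hj : z.2 j = z.2 b
    · refine ⟨0, fun I => ?_, fun g I => ?_⟩
      · have hq : q j I = 0 := if_pos hj
        beta_reduce
        rw [hq, mul_zero, map_zero]
        have hp0 : p ≠ 0 := (Fact.out : p.Prime).ne_zero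
        simp [PsE, cv, hp0]
      · have h0 : ∀ I' : Finset (Fin m), sgE (m := m) ∅
            (hS p av α (x : K) (rOm p av α (ι j) g) * (z.2 j - z.2 b)) I' = 0 := by
          intro I'
          rw [hj, sub_self, mul_zero]
          unfold sgE
          split_ifs <;> rfl
        simp only [h0, ndv_op0]
        simp [cv]
    · obtain ⟨e1, e2⟩ := hαϑ j hj
      obtain ⟨-, -, -, -, -, -, h7⟩ := hRlc p (av j).Completion (Kvs (av j)) m (ι j α)
        (algebraMap K (av j).Completion h) (fun i => ι j (ϑ i : Kgs K))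
        (fun i => algebraMap K (av j).Completion (D i : K)) (hια j) (hαh j) (hϑj j)
        (fun _ => 1) (fun _ _ => 0) (fun g => by rw [← e1, AlgEquiv.commutes, ndv_op1, one_mul])
        (fun i g => by rw [← e2 i, AlgEquiv.commutes, ndv_op0, add_zero])
      obtain ⟨-, s2, -⟩ := hSep p (av j).Completion 1 1 one_ne_zero (by rw [one_pow, map_one])
      obtain ⟨-, -, a3, -⟩ := hHas p (av j).Completion (Kvs (av j)) 1 1 one_ne_zero
        (by rw [one_pow, map_one])
      obtain ⟨ξ₀, hξ₀⟩ := s2 (algebraMap (av j).Completion (Kvs (av j))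
        (algebraMap K (av j).Completion (x : K)))
      obtain ⟨-, ξ, hξ, hgξ⟩ := a3 (algebraMap K (av j).Completion (x : K))
        ⟨ξ₀, by rw [map_one]; rwa [one_pow] at hξ₀⟩
      have hS' : ∀ g, hS p av α (x : K) (rOm p av α (ι j) g) =
          hP p (1 : Kvs (av j)) (algebraMap K (av j).Completion (x : K)) g :=
        (hR (av j) (ι j)).2.2.2.2.1 (x : K) x.2
      have h8 := h7 (α₀ j) (ϑ₀ j) e1 e2 (algebraMap K (av j).Completion (x : K)) ξ
        (fun g => hS p av α (x : K) (rOm p av α (ι j) g)) (z.2 j - z.2 b)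
        (by
          rw [map_one] at hξ
          unfold Ph at hξ
          rw [one_mul] at hξ
          exact hξ)
        (fun g => by rw [hgξ g, mul_one, hS' g])
      have hq : (fun I => algebraMap K (av j).Completion (x : K) * q j I) = fun I =>
          algebraMap K (av j).Completion (x : K) * (op (av j).Completion (z.2 j - z.2 b) *
            α₀ j ^ p * cv (prE fun i => algebraMap K (av j).Completion (D i : K))
              (prE (ϑ₀ j)) I) := by
        funext I
        have : q j I = _ := if_neg hj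
        rw [this]
      rw [hq]
      exact h8
  have hfin := hlam (fun j I => algebraMap K (av j).Completion (x : K) * q j I)
    (fun j g => sgE (m := m) ∅ (hS p av α (x : K) (rOm p av α (ι j) g) * (z.2 j - z.2 b))) ζ
    hrel c1 c2
  rw [hfin]
  exact Finset.sum_congr rfl fun i _ => by rw [c3 i]

end Pool.Agent.MP72P
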