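import Pool.Agent.Lib.MP_72e2e6_nt.P3.M.Spec

/-!
# MP_72e2e6_nt, theorem T3p, part M: a ring in `OmS` which is closed under roots
-/

namespace Pool.Agent.MP72P

open IntermediateField Finset

private theorem omr_as (p : ℕ) [Fact p.Prime] (L : Type) [Field L] [CharP L p] [IsSepClosed L]
    (m : L) : ∃ θ : L, θ ^ p - θ = m := by
  obtain ⟨x, hx⟩ := IsSepClosed.exists_root_C_mul_X_pow_add_C_mul_X_add_C (n := p) (1 : L) (-1)
    (-m) (CharP.cast_eq_zero L p) (Fact.out : p.Prime).two_le (neg_ne_zero.2 one_ne_zero)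
  exact ⟨x, by linear_combination hx⟩

open Polynomial in
private theorem omr_int {p : ℕ} [Fact p.Prime] {A L : Type} [CommRing A] [Field L] [Algebra A L]
    (θ : L) (h : IsIntegral A (θ ^ p - θ)) : IsIntegral A θ := by
  have hA : Nontrivial A := (algebraMap A L).domain_nontrivial
  have hp1 : 1 < p := (Fact.out : p.Prime).one_lt
  have hX : (X : A[X]).degree < (p : ℕ) := by
    rw [degree_X]
    exact_mod_cast hp1
  have hm : (X ^ p - X : A[X]).Monic := monic_X_pow_sub hX
  have hd : (X ^ p - X : A[X]).natDegree = p := by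
    rw [natDegree_sub_eq_left_of_natDegree_lt, natDegree_X_pow]
    rw [natDegree_X, natDegree_X_pow]
    exact hp1
  refine IsIntegral.of_aeval_monic hm (by rw [hd]; exact (Fact.out : p.Prime).ne_zero) ?_
  rw [map_sub, map_pow, aeval_X]
  exact h

theorem tOmr : S_Twb → S_Hst → S_Omr := by
  intro twb hst p _ K _ _ hG J av α h hs
  obtain ⟨_, _, _, hα0, halo, halp, _⟩ := hst p K hG J av α h hs
  have hT := twb p (OS av) K (Kgs K) α h hα0 hs.al
  obtain ⟨_, _, _, _, _, h6, h7⟩ := hT
  have hp1 : p - 1 ≠ 0 := by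
    have := (Fact.out : p.Prime).two_le
    omega
  have hchar : CharP (Kgs K) p := charP_of_injective_algebraMap (algebraMap K (Kgs K)).injective p
  -- the elements `h`, `h⁻¹`
  have hh : h ∈ OS av := fun v h1 _ h3 => (hs.hu v h1 h3).le
  have hh' : h⁻¹ ∈ OS av := fun v h1 _ h3 => by
    rw [map_inv₀, hs.hu v h1 h3, inv_one]
  have hmap : ∀ f : OS av, algebraMap (OS av) (Kgs K) f = algebraMap K (Kgs K) (f : K) :=
    fun f => rfl
  have hαi : IsIntegral (OS av) α := by
    refine IsIntegral.of_pow (Nat.pos_of_ne_zero hp1) ?_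
    rw [hs.al]
    exact isIntegral_algebraMap (x := (⟨h, hh⟩ : OS av))
  have hαi' : IsIntegral (OS av) α⁻¹ := by
    refine IsIntegral.of_pow (Nat.pos_of_ne_zero hp1) ?_
    rw [inv_pow, hs.al, ← map_inv₀]
    exact isIntegral_algebraMap (x := (⟨h⁻¹, hh'⟩ : OS av))
  refine ⟨(integralClosure (OS av) (Kgs K)).toSubring.comap (OmS p av α).val.toRingHom, ?_, ?_⟩
  · intro f hf
    show IsIntegral (OS av) (algebraMap K (Kgs K) f)
    exact isIntegral_algebraMap (x := (⟨f, hf⟩ : OS av))
  · intro x hx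
    have hx' : IsIntegral (OS av) (x : Kgs K) := hx
    obtain ⟨y, hy⟩ := omr_as p (Kgs K) ((x : Kgs K) * α⁻¹ ^ p)
    have hyi : IsIntegral (OS av) (y ^ p - y) := by
      rw [hy]
      exact hx'.mul (hαi'.pow p)
    have hyO : y ∈ OmS p av α := by
      refine h6 y ?_ hyi
      rw [hy]
      exact mul_mem x.2 (pow_mem (inv_mem h7) p)
    have hyi' : IsIntegral (OS av) y := omr_int y hyi
    refine ⟨⟨α * y, mul_mem h7 hyO⟩, ?_, ?_⟩
    · show IsIntegral (OS av) (α * y)
      exact hαi.mul hyi'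
    · refine Subtype.ext ?_
      show (α * y) ^ p - ((alo p av α : OmS p av α) : Kgs K) ^ (p - 1) * (α * y) = (x : Kgs K)
      rw [halo]
      have h8 : α ^ (p - 1) * α = α ^ p := by
        rw [← pow_succ]
        congr 1
        omega
      have h9 : α ^ p * α⁻¹ ^ p = 1 := by
        rw [← mul_pow, mul_inv_cancel₀ hα0, one_pow]
      rw [mul_pow]
      linear_combination α ^ p * hy + x * h9 - y * h8

end Pool.Agent.MP72P
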