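import Pool.Agent.Lib.MP_72e2e6_nt.P3.M.Spec

/-!
# MP_72e2e6_nt, theorem T3p, part M: Rk1, rank one
-/

namespace Pool.Agent.MP72P

open IntermediateField Finset

private theorem Rk1_card0 (p : ℕ) [Fact p.Prime] (Q : Type) [AddCommGroup Q] [Finite Q]
    [Module (ZMod p) Q] : Nat.card (Q →+ ZMod p) = Nat.card Q := by
  have hnz : NeZero p := ⟨(Fact.out : p.Prime).ne_zero⟩
  have h0 : Module.Finite (ZMod p) Q := Module.Finite.of_finite
  have h3 : Module.Finite (ZMod p) (Module.Dual (ZMod p) Q) := inferInstance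
  have h4 : Nat.card (Module.Dual (ZMod p) Q) =
      Nat.card (ZMod p) ^ Module.finrank (ZMod p) (Module.Dual (ZMod p) Q) :=
    Module.natCard_eq_pow_finrank
  have h5 : Nat.card Q = Nat.card (ZMod p) ^ Module.finrank (ZMod p) Q :=
    Module.natCard_eq_pow_finrank
  have h6 : Module.finrank (ZMod p) (Module.Dual (ZMod p) Q) = Module.finrank (ZMod p) Q :=
    Subspace.dual_finrank_eq
  let e : (Q →+ ZMod p) ≃ Module.Dual (ZMod p) Q := {
    toFun := fun f => AddMonoidHom.toZModLinearMap p f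
    invFun := fun f => f.toAddMonoidHom
    left_inv := fun f => by ext; rfl
    right_inv := fun f => by ext; rfl }
  rw [Nat.card_congr e, h4, h5, h6]

private theorem Rk1_card {p : ℕ} [Fact p.Prime] (Q : Type) [AddCommGroup Q] [Finite Q]
    (hQ : ∀ x : Q, p • x = 0) : Finite (Q →+ ZMod p) ∧ Nat.card (Q →+ ZMod p) = Nat.card Q := by
  have hnz : NeZero p := ⟨(Fact.out : p.Prime).ne_zero⟩
  have h1 : Finite (Q →+ ZMod p) :=
    Finite.of_injective (fun (f : Q →+ ZMod p) (x : Q) => f x)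
      fun f g h => AddMonoidHom.ext (congrFun h)
  let iQ : Module (ZMod p) Q := AddCommGroup.zmodModule hQ
  exact ⟨h1, Rk1_card0 p Q⟩

private theorem Rk1_pig {p : ℕ} [Fact p.Prime] (G V : Type) [AddCommGroup G]
    (hp : ∀ x : G, p • x = 0)
    (H : AddSubgroup G) (hH : H.index ≠ 0) (f : V → G →+ ZMod p) (hf : ∀ v, ∀ x ∈ H, f v x = 0)
    (hV : H.index < Nat.card V) : ∃ v v' : V, v ≠ v' ∧ f v = f v' := by
  have h1 : Finite (G ⧸ H) := (AddSubgroup.finiteIndex_iff_finite_quotient).1 ⟨hH⟩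
  have h2 : ∀ x : G ⧸ H, p • x = 0 := fun x => by
    obtain ⟨y, rfl⟩ := QuotientAddGroup.mk_surjective x
    rw [← QuotientAddGroup.mk_nsmul, hp, QuotientAddGroup.mk_zero]
  obtain ⟨h3, h4⟩ := Rk1_card (p := p) (G ⧸ H) h2
  by_contra hcon
  push Not at hcon
  let F : V → (G ⧸ H →+ ZMod p) := fun v => QuotientAddGroup.lift H (f v) (hf v)
  have hF : Function.Injective F := by
    intro v v' hv
    by_contra hne
    apply hcon v v' hne
    ext x
    exact DFunLike.congr_fun hv (x : G ⧸ H)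
  have h5 := Nat.card_le_card_of_injective F hF
  rw [h4] at h5
  exact absurd hV (not_lt.2 h5)

private theorem Rk1_norm {K : Type} [Field K] {v : AbsoluteValue K ℝ} (x : K) :
    ‖algebraMap K v.Completion x‖ = v x :=
  UniformSpace.Completion.norm_coe (WithAbs.toAbs v x)

/-- The numerical part. -/
private theorem Rk1_num (p D R : ℕ) (hp : 2 ≤ p) (hD : 1 ≤ D) (c0 a0 : ℕ) (_hc0 : 1 ≤ c0)
    (ha0 : 1 ≤ a0) (a c : ℕ → ℕ) (c' a' : ℕ → ℕ)
    (hc' : ∀ N, 1 ≤ c' N) (h1 : ∀ N, a N * c0 = a0 * c' N * p ^ (N * D))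
    (h2 : ∀ N, a0 * c N = a' N * c0 * p ^ ((R + N) * D)) (h3 : ∀ N, a' N ≤ a0) :
    ∃ N, c N < a N * a N := by
  refine ⟨c0 ^ 3 * p ^ (R * D), ?_⟩
  set N := c0 ^ 3 * p ^ (R * D) with hN
  have h4 : p ^ (N * D) ≤ a N * c0 := by
    rw [h1 N]
    calc p ^ (N * D) = 1 * 1 * p ^ (N * D) := by ring
      _ ≤ a0 * c' N * p ^ (N * D) := by
        gcongr
        exact hc' N
  have h5 : c N ≤ c0 * p ^ ((R + N) * D) := by
    have h6 : a0 * c N ≤ a0 * (c0 * p ^ ((R + N) * D)) := by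
      rw [h2 N, ← mul_assoc]
      gcongr
      exact h3 N
    exact Nat.le_of_mul_le_mul_left h6 ha0
  have h7 : N < p ^ (N * D) := by
    calc N < p ^ N := Nat.lt_pow_self hp
      _ ≤ p ^ (N * D) := Nat.pow_le_pow_right (by omega) (by nlinarith)
  have h8 : c0 ^ 2 * c N < c0 ^ 2 * (a N * a N) := by
    calc c0 ^ 2 * c N ≤ c0 ^ 2 * (c0 * p ^ ((R + N) * D)) := by gcongr
      _ = (c0 ^ 3 * p ^ (R * D)) * p ^ (N * D) := by rw [add_mul, pow_add]; ring
      _ < p ^ (N * D) * p ^ (N * D) := by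
        rw [← hN]
        exact Nat.mul_lt_mul_of_pos_right h7 (by positivity)
      _ ≤ (a N * c0) * (a N * c0) := by gcongr
      _ = c0 ^ 2 * (a N * a N) := by ring
  exact Nat.lt_of_mul_lt_mul_left h8

theorem tRk1 : S_Na → S_Den → S_Frc → S_Dgu → S_Chi → S_Rk1 := by
  intro hNa hDen hFrc hDgu hChi p _ K _ _ hG J _ _ av hav μ₀ μ hμ₀ hμ hne
  obtain ⟨hd1, -, -, hd4⟩ := hDgu p K hG
  choose d ϖ hdϖ using fun j => hd1 (av j) (hav.ntr j)
  have hFml : Fml p av d ϖ := ⟨hav, hdϖ⟩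
  have hpi0 : ∀ j, 0 < av j (ϖ j) := fun j => by
    obtain ⟨-, R, hR⟩ := hdϖ j
    exact hR.pi0
  have hpi1 : ∀ j, av j (ϖ j) < 1 := fun j => by
    obtain ⟨-, R, hR⟩ := hdϖ j
    exact hR.pi1
  have hd0 : ∀ j, 1 ≤ d j := fun j => (hd4 (av j) (d j) (ϖ j) (hdϖ j)).1
  obtain ⟨r₀, hr₀, hc₀⟩ := hμ₀.con
  obtain ⟨r₁, hr₁, hc₁⟩ := hμ.con
  have hr : 0 < min r₀ r₁ := lt_min hr₀ hr₁
  -- the ball
  have hmem : ∀ (n : ℤ) (x : K), x ∈ BlZ av ϖ (fun _ => n) ↔ ∀ j, av j x ≤ av j (ϖ j) ^ n := by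
    intro n x
    constructor
    · intro h j
      have h1 := h j (hNa p K (av j))
      rwa [abs_of_pos (zpow_pos (hpi0 j) n)] at h1
    · intro h j _
      rw [abs_of_pos (zpow_pos (hpi0 j) n)]
      exact h j
  obtain ⟨R, hR⟩ : ∃ R : ℕ, ∀ j, av j (ϖ j) ^ R ≤ min r₀ r₁ := by
    have h1 : ∀ j, ∃ R : ℕ, av j (ϖ j) ^ R < min r₀ r₁ := fun j =>
      exists_pow_lt_of_lt_one hr (hpi1 j)
    choose R' hR' using h1
    refine ⟨Finset.univ.sup R', fun j => ?_⟩
    refine (pow_le_pow_of_le_one (hpi0 j).le (hpi1 j).le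
      (Finset.le_sup (f := R') (Finset.mem_univ j))).trans (hR' j).le
  -- sizes
  have hfin : ∀ n : ℤ, Finite ↥(OSA av ⊓ BlZ av ϖ fun _ => n) := fun n =>
    (hChi p K hG J av d ϖ hFml fun _ => n).1
  have hidx : ∀ n : ℤ, (OSA av ⊔ BlZ av ϖ fun _ => n).index ≠ 0 := fun n =>
    (hChi p K hG J av d ϖ hFml fun _ => n).2.1
  have hchi : ∀ (n : ℤ) (k : ℕ), Nat.card ↥(OSA av ⊓ BlZ av ϖ fun _ => n) *
      (OSA av ⊔ BlZ av ϖ fun _ => n + k).index =
        Nat.card ↥(OSA av ⊓ BlZ av ϖ fun _ => n + k) * (OSA av ⊔ BlZ av ϖ fun _ => n).index *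
          p ^ (k * ∑ j, d j) := by
    intro n k
    have h1 := (hChi p K hG J av d ϖ hFml fun _ => n).2.2 fun _ => k
    rw [h1, Finset.prod_pow_eq_pow_sum, ← Finset.sum_mul, mul_comm k]
  have hD : 1 ≤ ∑ j, d j := by
    obtain ⟨j0⟩ := ‹Nonempty J›
    exact (hd0 j0).trans (Finset.single_le_sum (fun _ _ => Nat.zero_le _) (Finset.mem_univ j0))
  have hcpos : ∀ n : ℤ, 1 ≤ (OSA av ⊔ BlZ av ϖ fun _ => n).index := fun n =>
    Nat.one_le_iff_ne_zero.2 (hidx n)
  have hapos : ∀ n : ℤ, 1 ≤ Nat.card ↥(OSA av ⊓ BlZ av ϖ fun _ => n) := fun n => by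
    have := hfin n
    exact Nat.card_pos
  obtain ⟨N, hN⟩ := Rk1_num p (∑ j, d j) R (Fact.out : p.Prime).two_le hD
    ((OSA av ⊔ BlZ av ϖ fun _ => (0 : ℤ)).index) (Nat.card ↥(OSA av ⊓ BlZ av ϖ fun _ => (0 : ℤ)))
    (hcpos 0) (hapos 0)
    (fun N => Nat.card ↥(OSA av ⊓ BlZ av ϖ fun _ => (-(N : ℤ))))
    (fun N => (OSA av ⊔ BlZ av ϖ fun _ => ((R + N : ℕ) : ℤ)).index)
    (fun N => (OSA av ⊔ BlZ av ϖ fun _ => (-(N : ℤ))).index)
    (fun N => Nat.card ↥(OSA av ⊓ BlZ av ϖ fun _ => ((R + N : ℕ) : ℤ)))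
    (fun N => hcpos _) (fun N => by
      have h1 := hchi (-(N : ℤ)) N
      rw [neg_add_cancel] at h1
      exact h1) (fun N => by
      have h1 := hchi 0 (R + N)
      rw [zero_add] at h1
      exact h1) (fun N => by
      have := hfin 0
      refine Nat.card_le_card_of_injective
        (AddSubgroup.inclusion (inf_le_inf_left (OSA av) ?_)) (AddSubgroup.inclusion_injective _)
      intro x hx
      rw [hmem] at hx ⊢
      intro j
      refine (hx j).trans ?_
      rw [zpow_natCast, zpow_zero]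
      exact pow_le_one₀ (hpi0 j).le (hpi1 j).le)
  -- the maps
  let dg : K →+ ∀ j, (av j).Completion :=
    AddMonoidHom.mk' (fun x j => algebraMap K (av j).Completion x) (fun x y => by
      funext j
      exact map_add _ x y)
  let A : AddSubgroup K := OSA av ⊓ BlZ av ϖ fun _ => (-(N : ℤ))
  let F : A × A → K →+ ZMod p := fun q =>
    μ.comp (dg.comp (AddMonoidHom.mulLeft (q.1 : K))) -
      μ₀.comp (dg.comp (AddMonoidHom.mulLeft (q.2 : K)))
  have hFa : ∀ q x, F q x = μ (dg ((q.1 : K) * x)) - μ₀ (dg ((q.2 : K) * x)) := fun q x => rfl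
  have hball : ∀ (a : A) (x : K), x ∈ BlZ av ϖ (fun _ => ((R + N : ℕ) : ℤ)) → ∀ j,
      ‖dg ((a : K) * x) j‖ ≤ min r₀ r₁ := by
    intro a x hx j
    have h1 := (hmem _ _).1 a.2.2 j
    have h2 := (hmem _ _).1 hx j
    have h3 : ‖dg ((a : K) * x) j‖ = av j a * av j x := by
      rw [← map_mul]
      exact Rk1_norm _
    rw [h3]
    calc av j a * av j x ≤ av j (ϖ j) ^ (-(N : ℤ)) * av j (ϖ j) ^ ((R + N : ℕ) : ℤ) :=
          mul_le_mul h1 h2 ((av j).nonneg _) (zpow_pos (hpi0 j) _).le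
      _ = av j (ϖ j) ^ R := by
        rw [← zpow_add₀ (hpi0 j).ne', ← zpow_natCast]
        congr 1
        push_cast
        ring
      _ ≤ _ := hR j
  have hker : ∀ q, ∀ x ∈ OSA av ⊔ BlZ av ϖ (fun _ => ((R + N : ℕ) : ℤ)), F q x = 0 := by
    intro q x hx
    have h1 : OSA av ⊔ BlZ av ϖ (fun _ => ((R + N : ℕ) : ℤ)) ≤ (F q).ker := by
      refine sup_le ?_ ?_
      · intro x hx
        rw [AddMonoidHom.mem_ker, hFa]
        have h2 : μ (dg ((q.1 : K) * x)) = 0 := hμ.van _ (mul_mem q.1.2.1 hx)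
        have h3 : μ₀ (dg ((q.2 : K) * x)) = 0 := hμ₀.van _ (mul_mem q.2.2.1 hx)
        rw [h2, h3, sub_zero]
      · intro x hx
        rw [AddMonoidHom.mem_ker, hFa]
        have h2 : μ (dg ((q.1 : K) * x)) = 0 :=
          hc₁ _ fun j => (hball q.1 x hx j).trans (min_le_right _ _)
        have h3 : μ₀ (dg ((q.2 : K) * x)) = 0 :=
          hc₀ _ fun j => (hball q.2 x hx j).trans (min_le_left _ _)
        rw [h2, h3, sub_zero]
    exact h1 hx
  obtain ⟨q, q', hqq, hF⟩ := Rk1_pig (p := p) K (A × A) (fun x => by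
    rw [nsmul_eq_mul, CharP.cast_eq_zero, zero_mul]) _ (hidx _) F hker (by
    rw [Nat.card_prod]
    exact hN)
  -- the difference
  have hKl : ∀ x : K, μ (dg (((q.1 : K) - q'.1) * x)) = μ₀ (dg (((q.2 : K) - q'.2) * x)) := by
    intro x
    have h1 := DFunLike.congr_fun hF x
    rw [hFa, hFa] at h1
    rw [sub_mul, sub_mul, map_sub, map_sub, map_sub, map_sub]
    linear_combination h1
  set a : K := (q.1 : K) - q'.1 with ha
  set b : K := (q.2 : K) - q'.2 with hb
  have hall : ∀ y : ∀ j, (av j).Completion,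
      μ (fun j => algebraMap K (av j).Completion a * y j) =
        μ₀ (fun j => algebraMap K (av j).Completion b * y j) := by
    intro y
    obtain ⟨M, hM⟩ : ∃ M : ℝ, ∀ j, av j a ≤ M ∧ av j b ≤ M := by
      obtain ⟨M, hM⟩ := (Set.finite_range fun j => max (av j a) (av j b)).bddAbove
      exact ⟨M, fun j => ⟨(le_max_left _ _).trans (hM ⟨j, rfl⟩),
        (le_max_right _ _).trans (hM ⟨j, rfl⟩)⟩⟩
    have hM1 : 0 < max M 1 := lt_of_lt_of_le one_pos (le_max_right _ _)
    obtain ⟨x, hx⟩ := hDen K J av hav y (min r₀ r₁ / max M 1) (div_pos hr hM1)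
    have key : ∀ s : K, (∀ j, av j s ≤ M) → ∀ j,
        ‖algebraMap K (av j).Completion s * y j - dg (s * x) j‖ ≤ min r₀ r₁ := by
      intro s hs j
      have h1 : algebraMap K (av j).Completion s * y j - dg (s * x) j =
          -(algebraMap K (av j).Completion s * (algebraMap K (av j).Completion x - y j)) := by
        have h2 : dg (s * x) j = algebraMap K (av j).Completion s *
          algebraMap K (av j).Completion x := map_mul (algebraMap K (av j).Completion) s x
        rw [h2]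
        ring
      rw [h1, norm_neg, norm_mul, Rk1_norm]
      calc av j s * ‖algebraMap K (av j).Completion x - y j‖ ≤
            max M 1 * (min r₀ r₁ / max M 1) :=
            mul_le_mul ((hs j).trans (le_max_left _ _)) (hx j).le (norm_nonneg _) hM1.le
        _ = min r₀ r₁ := mul_div_cancel₀ _ hM1.ne'
    have h1 : μ (fun j => algebraMap K (av j).Completion a * y j) = μ (dg (a * x)) := by
      have h2 := hc₁ ((fun j => algebraMap K (av j).Completion a * y j) - dg (a * x))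
        (fun j => (key a (fun j => (hM j).1) j).trans (min_le_right _ _))
      rw [map_sub] at h2
      exact sub_eq_zero.1 h2
    have h2 : μ₀ (fun j => algebraMap K (av j).Completion b * y j) = μ₀ (dg (b * x)) := by
      have h2 := hc₀ ((fun j => algebraMap K (av j).Completion b * y j) - dg (b * x))
        (fun j => (key b (fun j => (hM j).2) j).trans (min_le_left _ _))
      rw [map_sub] at h2
      exact sub_eq_zero.1 h2
    rw [h1, h2]
    exact hKl x
  have ha0 : a ≠ 0 := by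
    intro ha0
    have hb0 : b ≠ 0 := by
      intro hb0
      apply hqq
      refine Prod.ext (Subtype.ext (sub_eq_zero.1 ha0)) (Subtype.ext (sub_eq_zero.1 hb0))
    apply hne
    ext y
    have h1 := hall fun j => (algebraMap K (av j).Completion b)⁻¹ * y j
    have h2 : (fun j => algebraMap K (av j).Completion b *
        ((algebraMap K (av j).Completion b)⁻¹ * y j)) = y := by
      funext j
      rw [← mul_assoc, mul_inv_cancel₀, one_mul]
      rw [Ne, map_eq_zero]
      exact hb0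
    rw [h2, ha0] at h1
    have h3 : (fun j => algebraMap K (av j).Completion (0 : K) *
        ((algebraMap K (av j).Completion b)⁻¹ * y j)) = 0 := by
      funext j
      rw [map_zero, zero_mul]
      rfl
    rw [h3, map_zero] at h1
    rw [← h1]
    rfl
  refine ⟨b / a, fun y => ?_⟩
  have h1 := hall fun j => (algebraMap K (av j).Completion a)⁻¹ * y j
  have hae : ∀ j, algebraMap K (av j).Completion a ≠ 0 := fun j => by
    rw [Ne, map_eq_zero]
    exact ha0
  have h2 : (fun j => algebraMap K (av j).Completion a *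
      ((algebraMap K (av j).Completion a)⁻¹ * y j)) = y := by
    funext j
    rw [← mul_assoc, mul_inv_cancel₀ (hae j), one_mul]
  have h3 : (fun j => algebraMap K (av j).Completion b *
      ((algebraMap K (av j).Completion a)⁻¹ * y j)) =
      fun j => algebraMap K (av j).Completion (b / a) * y j := by
    funext j
    rw [map_div₀, div_eq_mul_inv, mul_assoc]
  rw [h2, h3] at h1
  exact h1

end Pool.Agent.MP72P
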