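import Pool.Agent.Lib.MP_72e2e6_nt.P3.M.Spec

/-!
# MP_72e2e6_nt, theorem T3p, part M: Rlc, crossed homomorphisms for `rE` and elements of the base field
-/

set_option autoImplicit false

namespace Pool.Agent.MP72P

open IntermediateField Finset

/-! ### The product `cv` -/

section cv

variable {m : ℕ} {L : Type} [CommRing L]

private theorem rlc_smul2 (C : S_Cvl) (c : L) (f g : Finset (Fin m) → L) :
    cv f (fun I => c * g I) = fun I => c * cv f g I := by
  obtain ⟨c1, -, -, c4, -⟩ := C m L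
  rw [c1 f, c4]
  funext I
  rw [c1 g f]

private theorem rlc_add2 (C : S_Cvl) (f g h : Finset (Fin m) → L) :
    cv f (fun I => g I + h I) = fun I => cv f g I + cv f h I := by
  obtain ⟨-, -, c3, -⟩ := C m L
  exact c3 f g h

private theorem rlc_sub2 (C : S_Cvl) (f g h : Finset (Fin m) → L) :
    cv f (fun I => g I - h I) = fun I => cv f g I - cv f h I := by
  have h1 : (fun I => g I - h I) = fun I => g I + (-1) * h I := by
    funext I
    ring
  rw [h1, rlc_add2 C, rlc_smul2 C]
  funext I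
  ring

private theorem rlc_zero2 (C : S_Cvl) (f : Finset (Fin m) → L) :
    cv f (fun _ => (0 : L)) = fun _ => 0 := by
  have h1 := rlc_smul2 C 0 f f
  simp only [zero_mul] at h1
  exact h1

private theorem rlc_one (C : S_Cvl) (f : Finset (Fin m) → L) : cv (prE (0 : Fin m → L)) f = f := by
  obtain ⟨-, -, -, -, -, -, c7, -, c9, -⟩ := C m L
  rw [c9, c7]
  funext I
  rw [one_mul]

private theorem rlc_inv (C : S_Cvl) (a : Fin m → L) (f : Finset (Fin m) → L) :
    cv (prE (-a)) (cv (prE a) f) = f := by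
  obtain ⟨-, c2, -, -, c5, -⟩ := C m L
  rw [← c2, c5, neg_add_cancel, rlc_one C]

private theorem rlc_inv' (C : S_Cvl) (a : Fin m → L) (f : Finset (Fin m) → L) :
    cv (prE a) (cv (prE (-a)) f) = f := by
  have h := rlc_inv C (-a) f
  rwa [neg_neg] at h

private theorem rlc_inj (C : S_Cvl) (a : Fin m → L) {f g : Finset (Fin m) → L}
    (h : cv (prE a) f = cv (prE a) g) : f = g := by
  rw [← rlc_inv C a f, h, rlc_inv C]

end cv

/-! ### The prime field -/

private theorem rlc_op (p : ℕ) [Fact p.Prime] (L : Type) [Field L] [CharP L p] (c : ZMod p) :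
    op L c = ZMod.castHom (dvd_refl p) L c := by
  rw [op, ZMod.castHom_apply, ZMod.natCast_val]

private theorem rlc_op_pow (p : ℕ) [Fact p.Prime] (L : Type) [Field L] [CharP L p] (c : ZMod p) :
    op L c ^ p = op L c := by
  rw [rlc_op, ← map_pow, ZMod.pow_card]

private theorem rlc_op_inj (p : ℕ) [Fact p.Prime] (L : Type) [Field L] [CharP L p] {c d : ZMod p}
    (h : op L c = op L d) : c = d := by
  rw [rlc_op, rlc_op] at h
  exact (ZMod.castHom (dvd_refl p) L).injective h

/-- The elements with `x ^ p = x` are in the prime field. -/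
private theorem rlc_fix (p : ℕ) [hp : Fact p.Prime] (L : Type) [Field L] [CharP L p] (x : L)
    (hx : x ^ p = x) : ∃ c : ZMod p, x = op L c := by
  classical
  have hne0 : (Polynomial.X ^ p - Polynomial.X : Polynomial L) ≠ 0 :=
    FiniteField.X_pow_card_sub_X_ne_zero _ hp.out.one_lt
  let T : Finset L := (Polynomial.X ^ p - Polynomial.X : Polynomial L).roots.toFinset
  let S : Finset L := univ.image fun c : ZMod p => op L c
  have hmT : ∀ y : L, y ∈ T ↔ y ^ p = y := by
    intro y
    simp only [T, Multiset.mem_toFinset]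
    rw [Polynomial.mem_roots hne0, Polynomial.IsRoot.def, Polynomial.eval_sub, Polynomial.eval_pow,
      Polynomial.eval_X, sub_eq_zero]
  have hST : S ⊆ T := by
    intro y hy
    obtain ⟨c, -, rfl⟩ := Finset.mem_image.1 hy
    rw [hmT]
    exact rlc_op_pow p L c
  have hcT : T.card ≤ S.card := by
    have h1 : S.card = p := by
      simp only [S]
      rw [Finset.card_image_of_injective _ fun c d h => rlc_op_inj p L h, Finset.card_univ,
        ZMod.card]
    rw [h1]
    refine (Multiset.toFinset_card_le _).trans ((Polynomial.card_roots' _).trans ?_)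
    rw [FiniteField.X_pow_card_sub_X_natDegree_eq _ hp.out.one_lt]
  have hxS : x ∈ S := by
    rw [Finset.eq_of_subset_of_card_le hST hcT, hmT]
    exact hx
  obtain ⟨c, -, hc⟩ := Finset.mem_image.1 hxS
  exact ⟨c, hc.symm⟩

/-! ### The operator `PsE` -/

section

variable {p : ℕ} [hp : Fact p.Prime] {L : Type} [Field L] [CharP L p] {m : ℕ}

private theorem rlc_frob (C : S_Cvl) (f g : Finset (Fin m) → L) (I : Finset (Fin m)) :
    cv f g I ^ p = cv (fun I' => f I' ^ p) (fun I' => g I' ^ p) I :=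
  (C m L).2.2.2.2.2.2.2.2.2 L (frobenius L p) f g I

omit hp [CharP L p] in
private theorem rlc_prE_pow (a : Fin m → L) :
    (fun I' => prE a I' ^ p) = prE fun j => a j ^ p := by
  funext I
  rw [prE, prE, Finset.prod_pow]

/-- The element `α Θ e`. -/
private theorem rlc_star (C : S_Cvl) (α : L) (ϑ : Fin m → L) (e : Finset (Fin m) → L)
    (I : Finset (Fin m)) :
    PsE p (α ^ (p - 1)) (fun j => ϑ j ^ p - ϑ j) (fun I' => α * cv (prE ϑ) e I') I =
      α ^ p * cv (prE ϑ) (cv (prE fun j => ϑ j ^ p - ϑ j) fun I' => e I' ^ p - e I') I := by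
  obtain ⟨c1, c2, -, -, c5, -⟩ := C m L
  have e1 : (α * cv (prE ϑ) e I) ^ p =
      α ^ p * cv (prE ϑ) (cv (prE fun j => ϑ j ^ p - ϑ j) fun I' => e I' ^ p) I := by
    rw [mul_pow, rlc_frob C, rlc_prE_pow, ← c2, c5]
    congr 3
    funext j
    simp
  have e2 : cv (prE fun j => ϑ j ^ p - ϑ j) (fun I' => α * cv (prE ϑ) e I') I =
      α * cv (prE ϑ) (cv (prE fun j => ϑ j ^ p - ϑ j) e) I := by
    rw [rlc_smul2 C, ← c2, c1 (prE fun j => ϑ j ^ p - ϑ j), c2]
  rw [PsE, e1, e2, rlc_sub2 C, rlc_sub2 C]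
  have e3 : α ^ (p - 1) * α = α ^ p := by
    rw [← pow_succ, Nat.sub_add_cancel hp.out.one_lt.le]
  linear_combination (-cv (prE ϑ) (cv (prE fun j => ϑ j ^ p - ϑ j) e) I) * e3

/-- The kernel of `PsE`. -/
private theorem rlc_ker (C : S_Cvl) {α : L} (hα : α ≠ 0) (ϑ : Fin m → L)
    (y : Finset (Fin m) → L)
    (hy : ∀ I, PsE p (α ^ (p - 1)) (fun j => ϑ j ^ p - ϑ j) y I = 0) :
    ∃ e : Finset (Fin m) → ZMod p, ∀ I, y I = α * cv (prE ϑ) (fun I' => op L (e I')) I := by
  have h1 : y = fun I => α * cv (prE ϑ) (cv (prE (-ϑ)) fun I' => α⁻¹ * y I') I := by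
    rw [rlc_inv' C]
    funext I
    rw [mul_inv_cancel_left₀ hα]
  set e' : Finset (Fin m) → L := cv (prE (-ϑ)) fun I' => α⁻¹ * y I' with he'
  rw [h1] at hy
  simp only [rlc_star C] at hy
  have h2 : cv (prE ϑ) (cv (prE fun j => ϑ j ^ p - ϑ j) fun I' => e' I' ^ p - e' I') =
      cv (prE ϑ) (cv (prE fun j => ϑ j ^ p - ϑ j) fun _ => 0) := by
    rw [rlc_zero2 C, rlc_zero2 C]
    funext I
    exact (mul_eq_zero.1 (hy I)).resolve_left (pow_ne_zero _ hα)
  have h3 := rlc_inj C _ (rlc_inj C _ h2)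
  have h4 : ∀ I, ∃ c : ZMod p, e' I = op L c := fun I =>
    rlc_fix p L _ (sub_eq_zero.1 (congrFun h3 I))
  choose e he using h4
  refine ⟨e, fun I => ?_⟩
  have h5 : e' = fun I' => op L (e I') := funext he
  rw [← h5]
  exact congrFun h1 I

private theorem rlc_psE_sub (C : S_Cvl) (h : L) (D : Fin m → L) (y z : Finset (Fin m) → L)
    (I : Finset (Fin m)) :
    PsE p h D (fun I' => y I' - z I') I = PsE p h D y I - PsE p h D z I := by
  rw [PsE, PsE, PsE, rlc_sub2 C, sub_pow_char]
  ring

private theorem rlc_psE_add (C : S_Cvl) (h : L) (D : Fin m → L) (y z : Finset (Fin m) → L)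
    (I : Finset (Fin m)) :
    PsE p h D (fun I' => y I' + z I') I = PsE p h D y I + PsE p h D z I := by
  rw [PsE, PsE, PsE, rlc_add2 C, add_pow_char]
  ring

end

private theorem rlc_prE_map {m : ℕ} {A B : Type} [CommRing A] [CommRing B] (σ : A →+* B)
    (a : Fin m → A) : (fun I' => σ (prE a I')) = prE fun j => σ (a j) := by
  funext I
  rw [prE, prE, map_prod]

private theorem rlc_psE_map (C : S_Cvl) {p m : ℕ} {A B : Type} [CommRing A] [CommRing B]
    (σ : A →+* B) (h : A) (D : Fin m → A) (y : Finset (Fin m) → A) (I : Finset (Fin m)) :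
    σ (PsE p h D y I) = PsE p (σ h) (fun j => σ (D j)) (fun I' => σ (y I')) I := by
  rw [PsE, PsE, map_sub, map_mul, map_pow, (C m A).2.2.2.2.2.2.2.2.2 B σ, rlc_prE_map]

/-! ### The Galois group -/

section

variable {p : ℕ} [hp : Fact p.Prime] {k L : Type} [Field k] [Field L] [Algebra k L] [CharP L p]
  {m : ℕ}

omit hp [CharP L p] in
private theorem rlc_gal_op (g : Gal(L/k)) (c : ZMod p) : g (op L c) = op L c := by
  rw [op, map_natCast]

private theorem rlc_rE (C : S_Cvl) (ω : Gal(L/k) → ZMod p) (δ : Fin m → Gal(L/k) → ZMod p)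
    (g : Gal(L/k)) (f : Finset (Fin m) → ZMod p) (I : Finset (Fin m)) :
    op L (rE ω δ g f I) =
      op L (ω g) * cv (prE fun j => op L (δ j g)) (fun I' => op L (f I')) I := by
  have h1 : rE ω δ g f I = ω g * cv (prE fun j => δ j g) f I := rfl
  rw [h1, rlc_op, map_mul, (C m (ZMod p)).2.2.2.2.2.2.2.2.2 L (ZMod.castHom (dvd_refl p) L),
    rlc_prE_map]
  simp only [rlc_op p L]

/-- The action on `α Θ f`. -/
private theorem rlc_act (C : S_Cvl) (α : L) (ϑ : Fin m → L) (ω : Gal(L/k) → ZMod p)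
    (δ : Fin m → Gal(L/k) → ZMod p) (hω : ∀ g, g α = op L (ω g) * α)
    (hδ : ∀ j g, g (ϑ j) = ϑ j + op L (δ j g)) (g : Gal(L/k)) (f : Finset (Fin m) → ZMod p)
    (I : Finset (Fin m)) :
    g (α * cv (prE ϑ) (fun I' => op L (f I')) I) =
      α * cv (prE ϑ) (fun I' => op L (rE ω δ g f I')) I := by
  obtain ⟨c1, c2, -, -, c5, -, -, -, -, c10⟩ := C m L
  have h1 : g (cv (prE ϑ) (fun I' => op L (f I')) I) =
      cv (fun I' => g (prE ϑ I')) (fun I' => g (op L (f I'))) I :=
    c10 L (g : L →+* L) _ _ I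
  have h2 : (fun I' => g (prE ϑ I')) = prE fun j => g (ϑ j) := rlc_prE_map (g : L →+* L) ϑ
  have h3 : (fun j => g (ϑ j)) = ϑ + fun j => op L (δ j g) := by
    funext j
    exact hδ j g
  have h4 : (fun I' => g (op L (f I'))) = fun I' => op L (f I') := by
    funext I'
    exact rlc_gal_op g _
  have h5 : (fun I' => op L (rE ω δ g f I')) = fun I' => op L (ω g) *
      cv (prE fun j => op L (δ j g)) (fun I'' => op L (f I'')) I' := by
    funext I'
    exact rlc_rE C ω δ g f I'
  rw [map_mul, h1, h2, h3, h4, hω, h5, rlc_smul2 C, ← c5, c2]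
  ring

private theorem rlc_cancel (C : S_Cvl) {α : L} (hα : α ≠ 0) (ϑ : Fin m → L)
    {f g : Finset (Fin m) → ZMod p}
    (h : ∀ I, α * cv (prE ϑ) (fun I' => op L (f I')) I =
      α * cv (prE ϑ) (fun I' => op L (g I')) I) : f = g := by
  have h1 : cv (prE ϑ) (fun I' => op L (f I')) = cv (prE ϑ) (fun I' => op L (g I')) := by
    funext I
    exact mul_left_cancel₀ hα (h I)
  have h2 := rlc_inj C _ h1
  funext I
  exact rlc_op_inj p L (congrFun h2 I)

private theorem rlc_opadd (C : S_Cvl) (α : L) (ϑ : Fin m → L) (f g : Finset (Fin m) → ZMod p)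
    (I : Finset (Fin m)) :
    α * cv (prE ϑ) (fun I' => op L ((f + g) I')) I =
      α * cv (prE ϑ) (fun I' => op L (f I')) I + α * cv (prE ϑ) (fun I' => op L (g I')) I := by
  have h1 : (fun I' => op L ((f + g) I')) = fun I' => op L (f I') + op L (g I') := by
    funext I'
    rw [rlc_op, rlc_op, rlc_op, Pi.add_apply, map_add]
  rw [h1, rlc_add2 C]
  ring

private theorem rlc_opsub (C : S_Cvl) (α : L) (ϑ : Fin m → L) (f g : Finset (Fin m) → ZMod p)
    (I : Finset (Fin m)) :
    α * cv (prE ϑ) (fun I' => op L ((f - g) I')) I =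
      α * cv (prE ϑ) (fun I' => op L (f I')) I - α * cv (prE ϑ) (fun I' => op L (g I')) I := by
  have h1 : (fun I' => op L ((f - g) I')) = fun I' => op L (f I') - op L (g I') := by
    funext I'
    rw [rlc_op, rlc_op, rlc_op, Pi.sub_apply, map_sub]
  rw [h1, rlc_sub2 C]
  ring

end

private theorem rlc_lc {K L : Type} [Field K] [Field L] [Algebra K L] [Algebra.IsIntegral K L]
    (x : L) : IsLocallyConstant fun σ : Gal(L/K) => σ x := by
  have : FiniteDimensional K K⟮x⟯ :=
    IntermediateField.adjoin.finiteDimensional (Algebra.IsIntegral.isIntegral x)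
  have hop := IntermediateField.fixingSubgroup_isOpen K⟮x⟯ (L := L) (K := K)
  rw [IsLocallyConstant.iff_exists_open]
  intro σ
  refine ⟨(fun τ => σ⁻¹ * τ) ⁻¹' (K⟮x⟯.fixingSubgroup : Set Gal(L/K)),
    hop.preimage (continuous_const_mul _), ?_, ?_⟩
  · simp only [Set.mem_preimage, inv_mul_cancel]
    exact one_mem K⟮x⟯.fixingSubgroup
  · intro τ hτ
    have h1 : (σ⁻¹ * τ) x = x := by
      have h2 : σ⁻¹ * τ ∈ K⟮x⟯.fixingSubgroup := hτ
      rw [IntermediateField.mem_fixingSubgroup_iff] at h2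
      exact h2 x (IntermediateField.mem_adjoin_simple_self K x)
    have h3 : σ ((σ⁻¹ * τ) x) = τ x := by
      rw [← AlgEquiv.mul_apply, mul_inv_cancel_left]
    rw [← h3, h1]

/-- Solution of the equation `PsE y = Y`. -/
private theorem rlc_solve {p : ℕ} {L : Type} [Field L] {m : ℕ} (h : L) (D : Fin m → L)
    (Y : Finset (Fin m) → L) (O : Subring L) (hO : ∀ x ∈ O, ∃ y ∈ O, Ph p h y = x) (hh : h ∈ O)
    (hD : ∀ j, D j ∈ O) (hY : ∀ I, Y I ∈ O) (n : ℕ) :
    ∃ y : Finset (Fin m) → L, ∀ I : Finset (Fin m), I.card < n →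
      y I ∈ O ∧ PsE p h D y I = Y I := by
  classical
  induction n with
  | zero => exact ⟨fun _ => 0, fun I hI => absurd hI (Nat.not_lt_zero _)⟩
  | succ n ih =>
    obtain ⟨y, hy⟩ := ih
    -- the new values
    have hnew : ∀ I : Finset (Fin m), ∃ z : L, I.card = n → z ∈ O ∧
        Ph p h z = Y I + h * ∑ A ∈ I.powerset.erase ∅, prE D A * y (I \ A) := by
      intro I
      by_cases hI : I.card = n
      · obtain ⟨z, hz, hz'⟩ := hO (Y I + h * ∑ A ∈ I.powerset.erase ∅, prE D A * y (I \ A)) (by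
          refine add_mem (hY I) (mul_mem hh (sum_mem fun A hA => ?_))
          rw [Finset.mem_erase, Finset.mem_powerset] at hA
          refine mul_mem (prod_mem fun j _ => hD j) (hy _ ?_).1
          rw [← hI]
          exact Finset.card_lt_card (Finset.sdiff_ssubset hA.2 (Finset.nonempty_iff_ne_empty.2 hA.1)))
        exact ⟨z, fun _ => ⟨hz, hz'⟩⟩
      · exact ⟨0, fun h' => absurd h' hI⟩
    choose z hz using hnew
    refine ⟨fun I => if I.card = n then z I else y I, fun I hI => ?_⟩
    -- the values of `PsE`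
    have hps : PsE p h D (fun I => if I.card = n then z I else y I) I =
        Ph p h (if I.card = n then z I else y I) -
          h * ∑ A ∈ I.powerset.erase ∅, prE D A * y (I \ A) := by
      rw [PsE, cv, ← Finset.add_sum_erase _ _ (Finset.empty_mem_powerset I)]
      have e1 : ∑ A ∈ I.powerset.erase ∅, prE D A *
          (if (I \ A).card = n then z (I \ A) else y (I \ A)) =
          ∑ A ∈ I.powerset.erase ∅, prE D A * y (I \ A) := by
        refine Finset.sum_congr rfl fun A hA => ?_
        rw [Finset.mem_erase, Finset.mem_powerset] at hA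
        have h1 : (I \ A).card < I.card :=
          Finset.card_lt_card (Finset.sdiff_ssubset hA.2 (Finset.nonempty_iff_ne_empty.2 hA.1))
        rw [if_neg (by omega)]
      rw [e1, Finset.sdiff_empty]
      have e2 : prE D (∅ : Finset (Fin m)) = 1 := by rw [prE, Finset.prod_empty]
      rw [e2, Ph]
      ring
    rw [hps]
    by_cases hIn : I.card = n
    · obtain ⟨h1, h2⟩ := hz I hIn
      simp only [if_pos hIn]
      exact ⟨h1, by rw [h2]; ring⟩
    · obtain ⟨h1, h2⟩ := hy I (by omega)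
      simp only [if_neg hIn]
      refine ⟨h1, ?_⟩
      rw [← h2, PsE, cv, ← Finset.add_sum_erase _ _ (Finset.empty_mem_powerset I),
        Finset.sdiff_empty]
      have e2 : prE D (∅ : Finset (Fin m)) = 1 := by rw [prE, Finset.prod_empty]
      rw [e2, Ph]
      ring

/-- **Rlc**. Crossed homomorphisms for `rE ω δ` and elements of `k`. -/
theorem tRlc (C : S_Cvl) : S_Rlc := by
  classical
  intro p hp k L _ _ _ _ _ m α h ϑ D hα hh hD ω δ hω hδ
  have hL : CharP L p := charP_of_injective_algebraMap (algebraMap k L).injective p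
  obtain ⟨c1, c2, c3, c4, c5, c6, c7, c8, c9, c10⟩ := C m L
  have hD' : (fun j => ϑ j ^ p - ϑ j) = fun j => algebraMap k L (D j) := funext hD
  -- (3)
  have r3 : ∀ c : Gal(L/k) → Finset (Fin m) → ZMod p,
      RlE p α ϑ c (0 : Finset (Fin m) → k) →
      ∃ e : Finset (Fin m) → ZMod p, ∀ g, c g = e - rE ω δ g e := by
    rintro c ⟨y, hy1, hy2⟩
    obtain ⟨e₀, he₀⟩ := rlc_ker C hα ϑ y fun I => by rw [hy1, Pi.zero_apply, map_zero]
    have hrneg : ∀ g, rE ω δ g (-e₀) = -rE ω δ g e₀ := by
      intro g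
      funext I
      rw [rE, Pi.neg_apply, rE]
      simp only [Pi.neg_apply, mul_neg, Finset.sum_neg_distrib]
    refine ⟨-e₀, fun g => ?_⟩
    apply rlc_cancel C hα ϑ
    intro I
    have h1 := hy2 g I
    rw [he₀, rlc_act C α ϑ ω δ hω hδ] at h1
    rw [hrneg, sub_neg_eq_add, neg_add_eq_sub, rlc_opsub C]
    linear_combination -h1
  -- (2)
  have r2s : ∀ (c c' : Gal(L/k) → Finset (Fin m) → ZMod p) (Y Y' : Finset (Fin m) → k),
      RlE p α ϑ c Y → RlE p α ϑ c' Y' → RlE p α ϑ (c - c') (Y - Y') := by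
    rintro c c' Y Y' ⟨y, hy1, hy2⟩ ⟨y', hy1', hy2'⟩
    refine ⟨fun I => y I - y' I, fun I => ?_, fun g I => ?_⟩
    · rw [rlc_psE_sub C, hy1, hy1', Pi.sub_apply, map_sub]
    · rw [map_sub, hy2, hy2', Pi.sub_apply, rlc_opsub C]
      ring
  refine ⟨?_, ?_, r3, ?_, ?_, ?_, ?_⟩
  · -- (1)
    rintro c Y ⟨y, -, hy2⟩
    constructor
    · have hl : ∀ I, IsLocallyConstant fun g : Gal(L/k) => g (y I) := fun I => rlc_lc (y I)
      rw [IsLocallyConstant.iff_eventually_eq]
      intro g
      have h1 : ∀ I, ∀ᶠ g' in nhds g, g' (y I) = g (y I) := fun I =>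
        (IsLocallyConstant.iff_eventually_eq _).1 (hl I) g
      filter_upwards [Filter.eventually_all.2 h1] with g' hg'
      apply rlc_cancel C hα ϑ
      intro I
      have h2 := hy2 g I
      have h3 := hy2 g' I
      rw [hg' I] at h3
      linear_combination h2 - h3
    · intro g g'
      apply rlc_cancel C hα ϑ
      intro I
      have h1 := hy2 g I
      have h2 := congrArg g (hy2 g' I)
      have h3 := hy2 (g * g') I
      rw [map_add, rlc_act C α ϑ ω δ hω hδ] at h2
      rw [AlgEquiv.mul_apply] at h3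
      rw [rlc_opadd C]
      linear_combination h2 + h1 - h3
  · -- (2)
    intro c c' Y Y' hY hY'
    refine ⟨?_, r2s c c' Y Y' hY hY'⟩
    obtain ⟨y, hy1, hy2⟩ := hY
    obtain ⟨y', hy1', hy2'⟩ := hY'
    refine ⟨fun I => y I + y' I, fun I => ?_, fun g I => ?_⟩
    · rw [rlc_psE_add C, hy1, hy1', Pi.add_apply, map_add]
    · rw [map_add, hy2, hy2', Pi.add_apply, rlc_opadd C]
      ring
  · -- (4)
    intro c y₀ hc
    apply r3
    have h1 : RlE p α ϑ (0 : Gal(L/k) → Finset (Fin m) → ZMod p) (PsE p h D y₀) := by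
      refine ⟨fun I => algebraMap k L (y₀ I), fun I => ?_, fun g I => ?_⟩
      · rw [rlc_psE_map C, hD', hh]
      · have e1 : (fun I' => op L ((0 : Gal(L/k) → Finset (Fin m) → ZMod p) g I')) =
            fun _ => (0 : L) := by
          funext I'
          rw [rlc_op]
          exact map_zero _
        rw [e1, rlc_zero2 C, mul_zero, add_zero, AlgEquiv.commutes]
    have h2 := r2s _ _ _ _ hc h1
    rwa [sub_zero, sub_self] at h2
  · -- (5)
    intro O Y hO1 hO2 hO3 hO4
    obtain ⟨y, hy⟩ := rlc_solve (p := p) (α ^ (p - 1)) (fun j => algebraMap k L (D j))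
      (fun I => algebraMap k L (Y I)) O hO1 hO2 hO3 hO4 (m + 1)
    have hcard : ∀ I : Finset (Fin m), I.card < m + 1 := by
      intro I
      have := Finset.card_le_univ I
      rw [Fintype.card_fin] at this
      omega
    have hps : ∀ I, PsE p (α ^ (p - 1)) (fun j => ϑ j ^ p - ϑ j) y I = algebraMap k L (Y I) := by
      intro I
      rw [hD']
      exact (hy I (hcard I)).2
    have hg : ∀ g : Gal(L/k), ∃ e : Finset (Fin m) → ZMod p,
        ∀ I, g (y I) - y I = α * cv (prE ϑ) (fun I' => op L (e I')) I := by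
      intro g
      apply rlc_ker C hα ϑ (fun I => g (y I) - y I)
      intro I
      rw [rlc_psE_sub C, hps]
      have h1 := congrArg g (hps I)
      rw [AlgEquiv.commutes] at h1
      have h2 : g (PsE p (α ^ (p - 1)) (fun j => ϑ j ^ p - ϑ j) y I) =
          PsE p (α ^ (p - 1)) (fun j => ϑ j ^ p - ϑ j) (fun I' => g (y I')) I := by
        have h3 := rlc_psE_map C (p := p) (g : L →+* L) (α ^ (p - 1)) (fun j => ϑ j ^ p - ϑ j) y I
        have h4 : (g : L →+* L) (α ^ (p - 1)) = α ^ (p - 1) := by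
          rw [hh]
          exact AlgEquiv.commutes g h
        have h5 : (fun j => (g : L →+* L) (ϑ j ^ p - ϑ j)) = fun j => ϑ j ^ p - ϑ j := by
          funext j
          rw [hD]
          exact AlgEquiv.commutes g (D j)
        rw [h4, h5] at h3
        exact h3
      rw [← h2, h1, sub_self]
    choose c hc using hg
    refine ⟨c, y, hps, fun g I => ?_⟩
    rw [← hc g I]
    ring
  · -- (6)
    intro c x y hy hgy
    refine ⟨sgE univ y, fun I => ?_, fun g I => ?_⟩
    · rw [PsE, c1, c8]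
      have e2 : prE (fun j => ϑ j ^ p - ϑ j) (∅ : Finset (Fin m)) = 1 := by
        rw [prE, Finset.prod_empty]
      rw [e2, mul_one]
      by_cases hI : I = univ
      · rw [sgE, sgE, if_pos hI, if_pos hI, ← hy, Ph]
      · rw [sgE, sgE, if_neg hI, if_neg hI, map_zero, zero_pow hp.out.ne_zero, mul_zero, sub_zero]
    · have e1 : (fun I' : Finset (Fin m) => op L (sgE univ (c g) I')) =
          sgE univ (op L (c g)) := by
        funext I'
        rw [sgE, sgE]
        split_ifs
        · rfl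
        · rw [rlc_op, map_zero]
      rw [e1, c1, c8]
      have e2 : prE ϑ (∅ : Finset (Fin m)) = 1 := by rw [prE, Finset.prod_empty]
      rw [e2, mul_one]
      by_cases hI : I = univ
      · rw [sgE, sgE, if_pos hI, if_pos hI, hgy]
        ring
      · rw [sgE, sgE, if_neg hI, if_neg hI, map_zero, mul_zero, add_zero]
  · -- (7)
    intro α₀ ϑ₀ hα₀ hϑ₀ x ξ c a hξ hgξ
    have hϑ₀' : (fun j => algebraMap k L (ϑ₀ j)) = ϑ := funext hϑ₀
    refine ⟨fun I => α * cv (prE ϑ) (fun I' => sgE ∅ (op L a * ξ) I') I, fun I => ?_,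
      fun g I => ?_⟩
    · rw [rlc_star C]
      have e1 : (fun I' : Finset (Fin m) => sgE ∅ (op L a * ξ) I' ^ p - sgE ∅ (op L a * ξ) I') =
          sgE ∅ (op L a * algebraMap k L x) := by
        funext I'
        by_cases hI : I' = ∅
        · rw [sgE, sgE, if_pos hI, if_pos hI, mul_pow, rlc_op_pow, ← hξ]
          ring
        · rw [sgE, sgE, if_neg hI, if_neg hI, zero_pow hp.out.ne_zero, sub_zero]
      rw [e1, c1 (prE fun j => ϑ j ^ p - ϑ j), c7, rlc_smul2 C]
      simp only
      rw [map_mul, map_mul, map_mul, map_pow, hα₀, (C m k).2.2.2.2.2.2.2.2.2 L (algebraMap k L),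
        rlc_prE_map, rlc_prE_map, hϑ₀', hD', c1 (prE ϑ)]
      have e2 : algebraMap k L (op k a) = op L a := by
        rw [op, op, map_natCast]
      rw [e2]
      ring
    · have e1 : (fun I' : Finset (Fin m) => op L (sgE ∅ (c g * a) I')) =
          sgE ∅ (op L (c g) * op L a) := by
        funext I'
        rw [sgE, sgE]
        split_ifs
        · rw [rlc_op, rlc_op, rlc_op, map_mul]
        · rw [rlc_op, map_zero]
      have hgα : g α = α := by
        rw [← hα₀]
        exact AlgEquiv.commutes g α₀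
      have hgϑ : (fun j => (g : L →+* L) (ϑ j)) = ϑ := by
        funext j
        rw [← hϑ₀]
        exact AlgEquiv.commutes g (ϑ₀ j)
      have e2 : ∀ z : L, cv (prE ϑ) (fun I' => sgE ∅ z I') I = z * prE ϑ I := by
        intro z
        have h1 : (fun I' : Finset (Fin m) => sgE ∅ z I') = sgE ∅ z := rfl
        rw [h1, c1, c7]
      have e3 : g (prE ϑ I) = prE ϑ I := by
        have h1 := congrFun (rlc_prE_map (g : L →+* L) ϑ) I
        rw [hgϑ] at h1
        exact h1
      rw [e1, e2]
      have e4 : g (α * cv (prE ϑ) (fun I' => sgE ∅ (op L a * ξ) I') I) =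
          α * cv (prE ϑ) (fun I' => sgE ∅ (op L a * ξ) I') I +
            α * (op L (c g) * op L a * prE ϑ I) := by
        rw [e2, map_mul, map_mul, map_mul, hgα, e3, hgξ, rlc_gal_op]
        ring
      exact e4

end Pool.Agent.MP72P
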