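import Pool.Agent.Lib.MP_72e2e6_nt.P3.M.Spec

/-!
# MP_72e2e6_nt, theorem T3p, part M: Rsl
-/

namespace Pool.Agent.MP72P

open IntermediateField Finset

private theorem Rsl_prE {m : ℕ} {L L' : Type} [CommRing L] [CommRing L'] (σ : L →+* L')
    (a : Fin m → L) (I : Finset (Fin m)) : σ (prE a I) = prE (fun j => σ (a j)) I := by
  rw [prE, prE, map_prod]

private theorem Rsl_op {p : ℕ} {L L' : Type} [Field L] [Field L'] (σ : L →+* L') (c : ZMod p) :
    σ (op L c) = op L' c := by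
  rw [op, op, map_natCast]

private theorem Rsl_PsE (hC : S_Cvl) (p : ℕ) {m : ℕ} {L L' : Type} [CommRing L] [CommRing L']
    (σ : L →+* L') (h : L) (D : Fin m → L) (y : Finset (Fin m) → L) (I : Finset (Fin m)) :
    σ (PsE p h D y I) = PsE p (σ h) (fun j => σ (D j)) (fun I' => σ (y I')) I := by
  have h1 := (hC m L).2.2.2.2.2.2.2.2.2 L' σ (prE D) y I
  rw [PsE, PsE, map_sub, map_mul, map_pow, h1]
  simp only [Rsl_prE]

theorem tRsl : S_Hst → S_Rgo → S_Cvl → S_Rsl := by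
  intro hH hR hC p _ K _ _ hG J av α h hs v ι m ϑ c Y hY
  obtain ⟨-, -, -, -, halo, -⟩ := hH p K hG J av α h hs
  obtain ⟨-, -, -, -, -, -, hR'⟩ := hR p K hG J av α h hs
  obtain ⟨-, -, hres, -⟩ := hR' v ι
  obtain ⟨y, hy, hg⟩ := hY
  let σ : OmS p av α →+* Kvs v := ((ι.comp (OmS p av α).val : OmS p av α →ₐ[K] Kvs v) :
    OmS p av α →+* Kvs v)
  have hσ : ∀ x : OmS p av α, σ x = ι (x : Kgs K) := fun x => rfl
  have hσa : σ (alo p av α) = ι α := by rw [hσ, halo]
  refine ⟨fun I => σ (y I), fun I => ?_, fun g I => ?_⟩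
  · have h1 := congrArg σ (hy I)
    rw [Rsl_PsE hC, map_pow, hσa] at h1
    have h2 : σ (algebraMap K (OmS p av α) (Y I)) =
        algebraMap v.Completion (Kvs v) (algebraMap K v.Completion (Y I)) := by
      rw [← IsScalarTower.algebraMap_apply K v.Completion (Kvs v)]
      exact (ι.comp (OmS p av α).val).commutes (Y I)
    rw [h2] at h1
    have h3 : (fun j => σ (ϑ j ^ p - ϑ j)) = fun j => ι (ϑ j : Kgs K) ^ p - ι (ϑ j : Kgs K) := by
      funext j
      rw [map_sub, map_pow, hσ]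
    rw [h3] at h1
    exact h1
  · have h1 := congrArg σ (hg (rOm p av α ι g) I)
    have h2 : g (σ (y I)) = σ (rOm p av α ι g (y I)) := hres g (y I)
    rw [h2, h1, map_add, map_mul, hσa]
    have h3 := (hC m (OmS p av α)).2.2.2.2.2.2.2.2.2 (Kvs v) σ (prE ϑ)
      (fun I' => op (OmS p av α) (c (rOm p av α ι g) I')) I
    rw [h3]
    simp only [Rsl_prE, Rsl_op]
    rfl

end Pool.Agent.MP72P
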