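import Pool.Agent.Lib.MP_72e2e6_nt.P3.M.Spec

/-!
# MP_72e2e6_nt, theorem T3p, part M: Tkz
-/

namespace Pool.Agent.MP72P

open IntermediateField Finset

/-- `hS D` vanishes on the local groups at the places `j ≠ b`. -/
private theorem Tkz_hS (hHas : S_Has) (hR : S_Rgo) (p : ℕ) [Fact p.Prime] (K : Type) [Field K]
    [CharP K p] (hG : GFld p K) (J : Type) (av : J → AbsoluteValue K ℝ) (α : Kgs K) (h : K)
    (hs : HS p av α h) (ι : ∀ j, Kgs K →ₐ[K] Kvs (av j)) (b : J) (D : OS av)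
    (hD : D ∈ BS p av b) (j : J) (hj : j ≠ b) (g : GS p av α) (hg : g ∈ DS p av α ι j) :
    hS p av α (D : K) g = 0 := by
  obtain ⟨g, rfl⟩ := hg
  obtain ⟨-, -, -, -, -, -, hR'⟩ := hR p K hG J av α h hs
  obtain ⟨-, -, -, -, hhS, -⟩ := hR' (av j) (ι j)
  rw [hhS D D.2 g]
  have hch := charP_of_injective_algebraMap
    (algebraMap K (av j).Completion).injective p
  obtain ⟨-, -, -, -, h5, h6⟩ := hHas p (av j).Completion (Kvs (av j)) 1 1 one_ne_zero
    (by rw [one_pow, map_one])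
  obtain ⟨y, hy⟩ := hD j hj
  have hy' : Ph p 1 y = algebraMap K (av j).Completion (D : K) := by
    rw [Ph, one_mul, hy]
  have h7 := (h5 (algebraMap K (av j).Completion (D : K))
    ⟨algebraMap (av j).Completion (Kvs (av j)) y, by
      rw [← hy', Ph, Ph, map_sub, map_mul, map_pow]⟩).2 ⟨y, hy'⟩
  obtain ⟨c, hc⟩ := h7
  rw [hc g, h6 g, one_mul, sub_self]

private theorem Tkz_rE {p m : ℕ} {G : Type} (ω : G → ZMod p) (δ : Fin m → G → ZMod p) (g : G)
    (h1 : ω g = 1) (h2 : ∀ i, δ i g = 0) (f : Finset (Fin m) → ZMod p) : rE ω δ g f = f := by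
  funext I
  rw [rE, h1, one_mul, Finset.sum_eq_single ∅]
  · simp
  · intro A _ hA
    obtain ⟨i, hi⟩ := Finset.nonempty_iff_ne_empty.2 hA
    rw [Finset.prod_eq_zero hi (h2 i), zero_mul]
  · intro hA
    exact absurd (Finset.empty_mem_powerset I) hA

theorem tTkz : S_Has → S_Hst → S_Rgo → S_Uni2 → S_Act2 → S_Tkz := by
  classical
  intro hHas hH hR hU hA p _ K _ _ hG J av α h ι d T t w₀ e y b hT m D hD ζ hζ hζt
  obtain ⟨-, -, -, -, -, -, hch, hh2, -, -, -, -, -, hhom, -, -⟩ := hH p K hG J av α h hT.hs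
  set ρ : GS p av α → (Finset (Fin m) → ZMod p) → Finset (Fin m) → ZMod p :=
    rE (omS p av α) fun i => hS p av α (D i : K) with hρ
  have hact : ActP p (omS p av α) ρ := hA p (GS p av α) (omS p av α) hch m
    (fun i => hS p av α (D i : K)) (fun i => hhom (D i) (D i).2)
  have hsub : ∀ g x y, ρ g (x - y) = ρ g x - ρ g y := fun g x y => by
    have h1 := hact.add g (x - y) y
    rw [sub_add_cancel] at h1
    rw [h1, add_sub_cancel_right]
  have hid : ∀ w, w ≠ b → (∀ g ∈ DS p av α ι w, omS p av α g = 1) → ∀ g ∈ DS p av α ι w,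
      ∀ x, ρ g x = x := fun w hw hω g hg x =>
    Tkz_rE _ _ g (hω g hg) (fun i => Tkz_hS hHas hR p K hG J av α h hT.hs ι b (D i) (hD i) w hw g hg) x
  set T' := tsL (fun j => rOm p av α (ι j)) t w₀ e fun k => Sum.inr (y k) with hT'
  have hcard : Nat.card (Finset (Fin m) → ZMod p) = p ^ (2 ^ m) := by
    have := Fact.out (p := p.Prime)
    have hnz : NeZero p := ⟨this.ne_zero⟩
    rw [Nat.card_eq_fintype_card, Fintype.card_fun, ZMod.card, Fintype.card_finset, Fintype.card_fin]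
  have hnz : NeZero p := ⟨(Fact.out : p.Prime).ne_zero⟩
  obtain ⟨hu, -⟩ := hU p (GS p av α) J d (omS p av α) (DS p av α ι) T' hch hh2 hT.ok
    (Finset (Fin m) → ZMod p) (2 ^ m) hcard ρ hact
  set β : Finset (Fin m) → ZMod p := ζ.2 b with hβ
  let ζ' : (GS p av α → Finset (Fin m) → ZMod p) × (J → Finset (Fin m) → ZMod p) :=
    (fun g => β - ρ g β, fun w => if w ∈ Set.range y then ζ.2 w else β)
  have hpsi : ∀ w, ∀ g ∈ DS p av α ι w, psi ρ ζ' w g = 0 := by
    intro w g hg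
    have h1 : psi ρ ζ' w g = (β - ζ'.2 w) - ρ g (β - ζ'.2 w) := by
      rw [hsub]
      simp only [psi, ζ']
      abel
    by_cases hw : w ∈ Set.range y
    · by_cases hwb : w = b
      · have h2 : ζ'.2 w = β := by
          simp only [ζ', hβ, hwb, ite_self]
        rw [h1, h2, sub_self]
        have h3 := hsub g 0 0
        rw [sub_self, sub_self] at h3
        rw [h3, sub_zero]
      · have hω := ((hT.yr w).1 hw).resolve_left hwb
        rw [h1, hid w hwb hω g hg, sub_self]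
    · have h2 : ζ'.2 w = β := by
        simp only [ζ', if_neg hw]
      rw [h1, h2, sub_self]
      have h3 := hsub g 0 0
      rw [sub_self, sub_self] at h3
      rw [h3, sub_zero]
  have hcoc : Coc ρ ζ'.1 := by
    refine ⟨?_, fun g h => ?_⟩
    · exact (IsLocallyConstant.const β).sub (hact.loc β)
    · simp only [ζ']
      rw [hact.mul, hsub]
      abel
  have hcoe : ∀ k, T'.co ζ' k = T'.co ζ k := fun k => by
    simp only [Tst.co, hT', tsL, Sum.elim_inr, ζ', if_pos (Set.mem_range_self k)]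
  have hv : {i : T'.I | (fun _ => (0 : Finset (Fin m) → ZMod p)) i ≠ 0}.Finite := by
    simp
  obtain ⟨z, -, hz⟩ := hu (fun _ => 0) hv (fun k => T'.co ζ k)
  have h1 : ζ = z := hz ζ ⟨hζ, fun i => hζt i.1 i.2, fun k => rfl⟩
  have h2 : ζ' = z := hz ζ' ⟨hcoc, fun i => hpsi _ _ (hT.ok.ti i), hcoe⟩
  rw [h1, ← h2]
  exact ⟨hcoc, hpsi⟩

end Pool.Agent.MP72P
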