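import Pool.Agent.Lib.MP_72e2e6_nt.P3.M.Spec

/-!
# MP_72e2e6_nt, block M: products of Artin-Schreier roots are linearly independent
-/

namespace Pool.Agent.MP72P

open Finset Polynomial

open scoped Classical

private theorem asl_fp {p : ℕ} [Fact p.Prime] {L : Type} [Field L] [CharP L p] (z : L)
    (hz : z ^ p = z) : ∃ a : ZMod p, ZMod.castHom (dvd_refl p) L a = z := by
  by_contra h
  push Not at h
  have hp1 : 1 < p := (Fact.out : p.Prime).one_lt
  have hP : (X ^ p - X : L[X]) ≠ 0 := FiniteField.X_pow_card_sub_X_ne_zero L hp1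
  have hdeg : (X ^ p - X : L[X]).natDegree = p := FiniteField.X_pow_card_sub_X_natDegree_eq L hp1
  have hinj : Function.Injective (ZMod.castHom (dvd_refl p) L) := RingHom.injective _
  let S : Finset L := insert z (univ.image (ZMod.castHom (dvd_refl p) L))
  have hS : S ⊆ (X ^ p - X : L[X]).roots.toFinset := by
    intro x hx
    rw [Multiset.mem_toFinset, mem_roots hP]
    rcases Finset.mem_insert.mp hx with h' | h'
    · simp [h', hz]
    · obtain ⟨a, -, ha⟩ := Finset.mem_image.mp h'
      rw [← ha]
      have : (ZMod.castHom (dvd_refl p) L) a ^ p = (ZMod.castHom (dvd_refl p) L) a := by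
        rw [← map_pow, ZMod.pow_card]
      simp only [IsRoot, eval_sub, eval_pow, eval_X, this, sub_self]
  have hc : S.card = p + 1 := by
    rw [Finset.card_insert_of_notMem, Finset.card_image_of_injective _ hinj, Finset.card_univ,
      ZMod.card]
    intro h'
    obtain ⟨a, -, ha⟩ := Finset.mem_image.mp h'
    exact h a ha
  have h1 := Finset.card_le_card hS
  have h2 := Multiset.toFinset_card_le (X ^ p - X : L[X]).roots
  have h3 := card_roots' (X ^ p - X : L[X])
  omega

theorem tAsl : S_Asl := by
  intro p _ k L _ _ _ _ _ m ϑ D hϑ hD u hu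
  have : CharP L p := charP_of_injective_algebraMap (algebraMap k L).injective p
  let φ : ZMod p →+* L := ZMod.castHom (dvd_refl p) L
  let φk : ZMod p →+* k := ZMod.castHom (dvd_refl p) k
  have hφφ : ∀ a, algebraMap k L (φk a) = φ a := by
    intro a
    have : (algebraMap k L).comp φk = φ := Subsingleton.elim _ _
    exact congrArg (fun f : ZMod p →+* L => f a) this
  have hφi : Function.Injective φ := RingHom.injective _
  have hδ : ∀ (σ : Gal(L/k)) (j : Fin m), ∃ a : ZMod p, σ (ϑ j) = ϑ j + φ a := by
    intro σ j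
    have e1 : (σ (ϑ j)) ^ p - σ (ϑ j) = algebraMap k L (D j) := by
      rw [← map_pow, ← map_sub, hϑ j, AlgEquiv.commutes]
    obtain ⟨a, ha⟩ := asl_fp (p := p) (σ (ϑ j) - ϑ j) (by
      rw [sub_pow_char]
      linear_combination e1 - hϑ j)
    exact ⟨a, by rw [show φ a = σ (ϑ j) - ϑ j from ha]; ring⟩
  choose δ hδ using hδ
  have hmul : ∀ (σ τ : Gal(L/k)) (j : Fin m), δ (σ * τ) j = δ σ j + δ τ j := by
    intro σ τ j
    apply hφi
    have e := hδ (σ * τ) j
    rw [AlgEquiv.mul_apply, hδ τ j, map_add, hδ σ j, ← hφφ (δ τ j), AlgEquiv.commutes, hφφ] at e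
    rw [map_add]
    linear_combination -e
  let Δ : Additive Gal(L/k) →+ (Fin m → ZMod p) :=
    AddMonoidHom.mk' (fun σ => δ (Additive.toMul σ)) fun σ τ => by
      funext j
      exact hmul _ _ j
  let S : Submodule (ZMod p) (Fin m → ZMod p) := AddSubgroup.toZModSubmodule p Δ.range
  have hS : S = ⊤ := by
    by_contra hne
    obtain ⟨f, hf0, hf⟩ := Submodule.exists_le_ker_of_lt_top S (lt_top_iff_ne_top.mpr hne)
    let c : Fin m → ZMod p := fun j => f (Pi.single j 1)
    have hfc : ∀ v : Fin m → ZMod p, f v = ∑ j, c j * v j := by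
      intro v
      conv_lhs => rw [pi_eq_sum_univ' v]
      rw [map_sum]
      refine Finset.sum_congr rfl fun j _ => ?_
      rw [map_smul, smul_eq_mul, mul_comm]
    have hc0 : c ≠ 0 := by
      intro hc
      apply hf0
      ext1 j
      ext
      have := congrFun hc j
      simpa [c] using this
    have hσ0 : ∀ σ : Gal(L/k), ∑ j, c j * δ σ j = 0 := by
      intro σ
      rw [← hfc]
      have : δ σ ∈ S := ⟨Additive.ofMul σ, rfl⟩
      exact hf this
    let x : L := ∑ j, φ (c j) * ϑ j
    have hx : ∀ σ : Gal(L/k), σ x = x := by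
      intro σ
      have : σ x = ∑ j, (φ (c j) * ϑ j + φ (c j * δ σ j)) := by
        change σ (∑ j, φ (c j) * ϑ j) = _
        rw [map_sum]
        refine Finset.sum_congr rfl fun j _ => ?_
        rw [map_mul, hδ σ j, ← hφφ (c j), AlgEquiv.commutes, hφφ, map_mul]
        ring
      rw [this, Finset.sum_add_distrib, ← map_sum, hσ0 σ, map_zero, add_zero]
    obtain ⟨y, hy⟩ := (InfiniteGalois.mem_range_algebraMap_iff_fixed x).mpr hx
    apply hc0
    apply hD c
    refine ⟨y, (algebraMap k L).injective ?_⟩
    rw [map_sub, map_pow, hy, map_sum]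
    change (∑ j, φ (c j) * ϑ j) ^ p - ∑ j, φ (c j) * ϑ j = _
    rw [sum_pow_char, ← Finset.sum_sub_distrib]
    refine Finset.sum_congr rfl fun j _ => ?_
    rw [mul_pow, ← map_pow, ZMod.pow_card, ← mul_sub, hϑ j, nsmul_eq_mul, map_mul, map_natCast]
    congr 1
    change ZMod.castHom (dvd_refl p) L (c j) = _
    rw [ZMod.castHom_apply, ZMod.natCast_val]
  have hex : ∀ j : Fin m, ∃ σ : Gal(L/k), δ σ = Pi.single j 1 := by
    intro j
    have : (Pi.single j 1 : Fin m → ZMod p) ∈ S := by rw [hS]; exact Submodule.mem_top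
    obtain ⟨σ, hσ⟩ := this
    exact ⟨Additive.toMul σ, hσ⟩
  choose s hs using hex
  have hss : ∀ i j, i ≠ j → s j (ϑ i) = ϑ i := by
    intro i j hij
    rw [hδ, hs, Pi.single_eq_of_ne hij, map_zero, add_zero]
  have hsj : ∀ j, s j (ϑ j) = ϑ j + 1 := by
    intro j
    rw [hδ, hs, Pi.single_eq_same, map_one]
  have rel : ∀ J : Finset (Fin m),
      ∑ I, (if J ⊆ I then algebraMap k L (u I) * ∏ i ∈ I \ J, ϑ i else 0) = 0 := by
    intro J
    induction J using Finset.induction_on with
    | empty => simpa using hu
    | insert j J hj ih =>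
      have e := congrArg (s j) ih
      rw [map_zero, map_sum] at e
      have e2 : ∑ I, (s j (if J ⊆ I then algebraMap k L (u I) * ∏ i ∈ I \ J, ϑ i else 0) -
          (if J ⊆ I then algebraMap k L (u I) * ∏ i ∈ I \ J, ϑ i else 0)) = 0 := by
        rw [Finset.sum_sub_distrib, e, ih, sub_zero]
      refine Eq.trans (Finset.sum_congr rfl fun I _ => ?_) e2
      by_cases hJI : J ⊆ I
      · by_cases hjI : j ∈ I
        · have hI : I \ J = insert j (I \ insert j J) := by
            ext i
            simp only [Finset.mem_sdiff, Finset.mem_insert]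
            constructor
            · rintro ⟨h1, h2⟩
              by_cases hij : i = j
              · exact Or.inl hij
              · exact Or.inr ⟨h1, by tauto⟩
            · rintro (h | ⟨h1, h2⟩)
              · subst h; exact ⟨hjI, hj⟩
              · exact ⟨h1, by tauto⟩
          have hni : j ∉ I \ insert j J := by simp
          rw [if_pos (Finset.insert_subset hjI hJI), if_pos hJI, map_mul, AlgEquiv.commutes,
            map_prod, hI, Finset.prod_insert hni, Finset.prod_insert hni, hsj]
          have hp : ∏ i ∈ I \ insert j J, s j (ϑ i) = ∏ i ∈ I \ insert j J, ϑ i :=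
            Finset.prod_congr rfl fun i hi => hss i j (by
              intro hij
              subst hij
              exact hni hi)
          rw [hp]
          ring
        · rw [if_neg (fun h => hjI (h (Finset.mem_insert_self j J))), if_pos hJI, map_mul,
            AlgEquiv.commutes, map_prod]
          have hp : ∏ i ∈ I \ J, s j (ϑ i) = ∏ i ∈ I \ J, ϑ i :=
            Finset.prod_congr rfl fun i hi => hss i j (by
              intro hij
              subst hij
              exact hjI (Finset.mem_sdiff.mp hi).1)
          rw [hp, sub_self]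
      · rw [if_neg (fun h => hJI ((Finset.subset_insert j J).trans h)), if_neg hJI, map_zero,
          sub_zero]
  by_contra hne
  obtain ⟨I₁, hI₁⟩ := Function.ne_iff.mp hne
  obtain ⟨I₀, hI₀, hmax⟩ := Finset.exists_max_image (univ.filter fun I => u I ≠ 0) Finset.card
    ⟨I₁, by simpa using hI₁⟩
  have e := rel I₀
  rw [Finset.sum_eq_single I₀] at e
  · rw [if_pos (Finset.Subset.refl _), Finset.sdiff_self, Finset.prod_empty, mul_one] at e
    have : u I₀ = 0 := (map_eq_zero _).mp e
    exact (Finset.mem_filter.mp hI₀).2 this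
  · intro I _ hI
    split_ifs with h
    · have : u I = 0 := by
        by_contra h0
        have h1 := hmax I (by simp [h0])
        exact hI (Finset.eq_of_subset_of_card_le h h1).symm
      rw [this, map_zero, zero_mul]
    · rfl
  · exact fun h => absurd (Finset.mem_univ _) h

end Pool.Agent.MP72P
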