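import Pool.Agent.Lib.MP_72e2e6_nt.P3.L.Defs

/-!
# MP_72e2e6_nt, theorem T3p, part M (nondegeneracy): definitions
-/

namespace Pool.Agent.MP72P

open Finset

/-- The product of `∑ f I t_I` and `∑ g I t_I`, where `t_I = ∏_{j ∈ I} t_j`, `t_j ^ 2 = 0`. -/
def cv {m : ℕ} {L : Type*} [CommRing L] (f g : Finset (Fin m) → L) (I : Finset (Fin m)) : L :=
  ∑ A ∈ I.powerset, f A * g (I \ A)

/-- The element `∏ (1 + a j t_j)`. -/
def prE {m : ℕ} {L : Type*} [CommRing L] (a : Fin m → L) (I : Finset (Fin m)) : L := ∏ j ∈ I, a j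

/-- The element `x t_I`. -/
def sgE {m : ℕ} {L : Type*} [Zero L] (I : Finset (Fin m)) (x : L) (I' : Finset (Fin m)) : L :=
  if I' = I then x else 0

/-- The operator `y ↦ φ(y) - h ∏ (1 + D j t_j) y`, `φ` the `p`-th power on the coefficients. -/
def PsE (p : ℕ) {m : ℕ} {L : Type*} [CommRing L] (h : L) (D : Fin m → L)
    (y : Finset (Fin m) → L) (I : Finset (Fin m)) : L :=
  y I ^ p - h * cv (prE D) y I

/-- The function `c` on the Galois group belongs to `Y`: `g y - y = α ∏ (1 + ϑ j t_j) c(g)` for some `y` with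
`PsE y = Y`. -/
def RlE (p : ℕ) {m : ℕ} {k L : Type} [Field k] [Field L] [Algebra k L] (α : L) (ϑ : Fin m → L)
    (c : Gal(L/k) → Finset (Fin m) → ZMod p) (Y : Finset (Fin m) → k) : Prop :=
  ∃ y : Finset (Fin m) → L,
    (∀ I, PsE p (α ^ (p - 1)) (fun j => ϑ j ^ p - ϑ j) y I = algebraMap k L (Y I)) ∧
    ∀ (g : Gal(L/k)) I, g (y I) = y I + α * cv (prE ϑ) (fun I' => op L (c g I')) I

/-- The continuous functionals on the product of the completions which vanish on `OS av`. -/
structure Fnc (p : ℕ) {K : Type} [Field K] {J : Type} (av : J → AbsoluteValue K ℝ)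
    (μ : (∀ j, (av j).Completion) →+ ZMod p) : Prop where
  con : ∃ r : ℝ, 0 < r ∧ ∀ y : ∀ j, (av j).Completion, (∀ j, ‖y j‖ ≤ r) → μ y = 0
  van : ∀ a ∈ OS av, μ (fun j => algebraMap K (av j).Completion a) = 0

/-- The functions which are regular outside the `av j` and of the form `y ^ p - y` in the completions for
`j ≠ b`. -/
def BS (p : ℕ) [Fact p.Prime] {K : Type} [Field K] [CharP K p] {J : Type}
    (av : J → AbsoluteValue K ℝ) (b : J) : AddSubgroup (OS av) where
  carrier := {x | ∀ j, j ≠ b → ∃ y : (av j).Completion,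
    y ^ p - y = algebraMap K (av j).Completion (x : K)}
  add_mem' := fun {x x'} hx hx' j hj => by
    have := charP_of_injective_algebraMap (algebraMap K (av j).Completion).injective p
    obtain ⟨y, hy⟩ := hx j hj
    obtain ⟨y', hy'⟩ := hx' j hj
    refine ⟨y + y', ?_⟩
    have h : ((x + x' : OS av) : K) = x + x' := rfl
    rw [h, map_add, ← hy, ← hy', add_pow_char]
    ring
  zero_mem' := fun j _ => ⟨0, by
    have h : ((0 : OS av) : K) = 0 := rfl
    rw [h, map_zero, zero_pow (Fact.out : p.Prime).ne_zero, sub_zero]⟩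
  neg_mem' := fun {x} hx j hj => by
    have := charP_of_injective_algebraMap (algebraMap K (av j).Completion).injective p
    obtain ⟨y, hy⟩ := hx j hj
    refine ⟨-y, ?_⟩
    have h : ((-x : OS av) : K) = -x := rfl
    have h' : (-y) ^ p = - y ^ p := by
      have := sub_pow_char (R := (av j).Completion) (p := p) (x := 0) (y := y)
      rwa [zero_sub, zero_pow (Fact.out : p.Prime).ne_zero, zero_sub] at this
    rw [h, map_neg, ← hy, h']
    ring

/-- The functions of the form `y ^ p - y`, `y ∈ K`. -/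
def NS (p : ℕ) [Fact p.Prime] {K : Type} [Field K] [CharP K p] {J : Type}
    (av : J → AbsoluteValue K ℝ) : AddSubgroup (OS av) where
  carrier := {x | ∃ y : K, y ^ p - y = (x : K)}
  add_mem' := fun {x x'} hx hx' => by
    obtain ⟨y, hy⟩ := hx
    obtain ⟨y', hy'⟩ := hx'
    refine ⟨y + y', ?_⟩
    have h : ((x + x' : OS av) : K) = x + x' := rfl
    rw [h, ← hy, ← hy', add_pow_char]
    ring
  zero_mem' := ⟨0, by
    have h : ((0 : OS av) : K) = 0 := rfl
    rw [h, zero_pow (Fact.out : p.Prime).ne_zero, sub_zero]⟩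
  neg_mem' := fun {x} hx => by
    obtain ⟨y, hy⟩ := hx
    refine ⟨-y, ?_⟩
    have h : ((-x : OS av) : K) = -x := rfl
    have h' : (-y) ^ p = - y ^ p := by
      have := sub_pow_char (R := K) (p := p) (x := 0) (y := y)
      rwa [zero_sub, zero_pow (Fact.out : p.Prime).ne_zero, zero_sub] at this
    rw [h, ← hy, h']
    ring

end Pool.Agent.MP72P
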