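import Pool.Agent.Lib.MP_72e2e6_nt.P3.M.Spec

/-!
# MP_72e2e6_nt, theorem T3p, part M: `S_Nds` (nondegeneracy)
-/

set_option autoImplicit false

namespace Pool.Agent.MP72P

open IntermediateField Finset

/-! ### 1. The functionals `μ_I` -/

private theorem nds_sg_add {m : ℕ} {F : Type} [Field F] (I : Finset (Fin m)) (a b : F) :
    sgE I (a + b) = sgE I a + sgE I b := by
  funext I'
  by_cases h : I' = I <;> simp [sgE, h]

private theorem nds_sg_zero {m : ℕ} {F : Type} [Field F] (I : Finset (Fin m)) :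
    sgE I (0 : F) = 0 := by
  funext I'
  simp [sgE]

/-- The functional `μ_I (y) = lam (j ↦ y j t_I)`. -/
private def ndsMu {p : ℕ} {J : Type} {m : ℕ} {F : J → Type} [∀ j, Field (F j)]
    (lam : (∀ j, Finset (Fin m) → F j) →+ ZMod p) (I : Finset (Fin m)) :
    (∀ j, F j) →+ ZMod p where
  toFun y := lam fun j => sgE I (y j)
  map_zero' := by
    have : (fun j => sgE I ((0 : ∀ j, F j) j)) = (0 : ∀ j, Finset (Fin m) → F j) := by
      funext j
      exact nds_sg_zero I
    rw [this, map_zero]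
  map_add' := fun a b => by
    have : (fun j => sgE I ((a + b) j)) =
        (fun j => sgE I (a j) : ∀ j, Finset (Fin m) → F j) + fun j => sgE I (b j) := by
      funext j
      exact nds_sg_add I (a j) (b j)
    rw [this, map_add]

private theorem nds_dec {p : ℕ} {J : Type} {m : ℕ} {F : J → Type} [∀ j, Field (F j)]
    (lam : (∀ j, Finset (Fin m) → F j) →+ ZMod p) (Y : ∀ j, Finset (Fin m) → F j) :
    lam Y = ∑ I, ndsMu lam I fun j => Y j I := by
  have h : Y = ∑ I, (fun j => sgE I (Y j I) : ∀ j, Finset (Fin m) → F j) := by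
    funext j I'
    rw [Finset.sum_apply, Finset.sum_apply]
    simp [sgE]
  conv_lhs => rw [h]
  rw [map_sum]
  rfl

private theorem nds_fnc {p : ℕ} {K : Type} [Field K] {J : Type} {av : J → AbsoluteValue K ℝ}
    {m : ℕ} (lam : (∀ j, Finset (Fin m) → (av j).Completion) →+ ZMod p)
    (h1 : ∀ Y : Finset (Fin m) → K, (∀ I, Y I ∈ OS av) →
      lam (fun j I => algebraMap K (av j).Completion (Y I)) = 0)
    (h2 : ∃ r : ℝ, 0 < r ∧ ∀ Y : ∀ j, Finset (Fin m) → (av j).Completion,
      (∀ j I, ‖Y j I‖ ≤ r) → lam Y = 0) (I : Finset (Fin m)) : Fnc p av (ndsMu lam I) := by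
  refine ⟨?_, ?_⟩
  · obtain ⟨r, hr, hY⟩ := h2
    refine ⟨r, hr, fun y hy => hY _ fun j I' => ?_⟩
    by_cases h : I' = I
    · simpa [sgE, h] using hy j
    · simpa [sgE, h] using hr.le
  · intro a ha
    have h3 := h1 (sgE I a) fun I' => by
      by_cases h : I' = I
      · simpa [sgE, h] using ha
      · simp [sgE, h]
    rw [← h3]
    show lam _ = lam _
    refine congrArg lam ?_
    funext j I'
    by_cases h : I' = I <;> simp [sgE, h]

/-- The coefficients `κ_I` and the constant `κ`. -/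
private theorem nds_kap (hRk1 : S_Rk1) (hLnz : S_Lnz) {p : ℕ} [Fact p.Prime] {K : Type} [Field K]
    [CharP K p] (hK : GFld p K) {J : Type} [Fintype J] [Nonempty J]
    {av : J → AbsoluteValue K ℝ} (hav : Pls av) {m : ℕ}
    (lam : (∀ j, Finset (Fin m) → (av j).Completion) →+ ZMod p)
    (h1 : ∀ Y : Finset (Fin m) → K, (∀ I, Y I ∈ OS av) →
      lam (fun j I => algebraMap K (av j).Completion (Y I)) = 0)
    (h2 : ∃ r : ℝ, 0 < r ∧ ∀ Y : ∀ j, Finset (Fin m) → (av j).Completion,
      (∀ j I, ‖Y j I‖ ≤ r) → lam Y = 0)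
    (h3 : ∃ x : ∀ j, (av j).Completion, lam (fun j => sgE univ (x j)) ≠ 0)
    (q : ∀ j, Finset (Fin m) → (av j).Completion)
    (hq : ∀ x : OS av, (lam fun j I => algebraMap K (av j).Completion (x : K) * q j I) = 0) :
    ∃ κ : Finset (Fin m) → K, κ univ = 1 ∧ ∃ c : K, ∀ j,
      ∑ I, algebraMap K (av j).Completion (κ I) * q j I = algebraMap K (av j).Completion c := by
  classical
  have hF := nds_fnc lam h1 h2
  set μ₀ : (∀ j, (av j).Completion) →+ ZMod p := ndsMu lam univ with hμ₀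
  have hμ : μ₀ ≠ 0 := by
    intro h
    obtain ⟨x, hx⟩ := h3
    exact hx (DFunLike.congr_fun h x)
  have hk : ∀ I : Finset (Fin m), ∃ κ : K, (I = univ → κ = 1) ∧
      ∀ y, ndsMu lam I y = μ₀ fun j => algebraMap K (av j).Completion κ * y j := by
    intro I
    by_cases hI : I = univ
    · subst hI
      refine ⟨1, fun _ => rfl, fun y => ?_⟩
      simp only [map_one, one_mul]
      rfl
    · obtain ⟨κ, hκ⟩ := hRk1 p K hK J av hav μ₀ (ndsMu lam I) (hF univ) (hF I) hμ
      exact ⟨κ, fun h => absurd h hI, hκ⟩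
  choose κ hκ1 hκ using hk
  refine ⟨κ, hκ1 univ rfl, ?_⟩
  have hdec : ∀ Y : ∀ j, Finset (Fin m) → (av j).Completion,
      lam Y = μ₀ fun j => ∑ I, algebraMap K (av j).Completion (κ I) * Y j I := by
    intro Y
    have h4 : (fun j => ∑ I, algebraMap K (av j).Completion (κ I) * Y j I) =
        ∑ I, (fun j => algebraMap K (av j).Completion (κ I) * Y j I : ∀ j, (av j).Completion) := by
      funext j
      rw [Finset.sum_apply]
    rw [nds_dec, h4, map_sum]
    exact Finset.sum_congr rfl fun I _ => hκ I _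
  set v : ∀ j, (av j).Completion :=
    fun j => ∑ I, algebraMap K (av j).Completion (κ I) * q j I with hv
  -- the functional `y ↦ μ₀ (v y)`
  have hv0 : ∀ a ∈ OS av, μ₀ (fun j => v j * algebraMap K (av j).Completion a) = 0 := by
    intro a ha
    have h5 := hq ⟨a, ha⟩
    rw [hdec] at h5
    rw [← h5]
    refine congrArg μ₀ ?_
    funext j
    rw [hv, Finset.sum_mul]
    refine Finset.sum_congr rfl fun I _ => ?_
    ring
  let μ : (∀ j, (av j).Completion) →+ ZMod p :=
    μ₀.comp (AddMonoidHom.mulLeft v)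
  have hμv : ∀ y, μ y = μ₀ fun j => v j * y j := fun y => rfl
  have hμF : Fnc p av μ := by
    refine ⟨?_, fun a ha => hv0 a ha⟩
    obtain ⟨r, hr, hY⟩ := (hF univ).con
    have hM : 0 < 1 + ∑ j, ‖v j‖ := by
      have : 0 ≤ ∑ j, ‖v j‖ := Finset.sum_nonneg fun j _ => norm_nonneg _
      linarith
    refine ⟨r / (1 + ∑ j, ‖v j‖), div_pos hr hM, fun y hy => ?_⟩
    rw [hμv]
    refine hY _ fun j => ?_
    rw [norm_mul]
    have h6 : ‖v j‖ ≤ 1 + ∑ j, ‖v j‖ := by
      have := Finset.single_le_sum (f := fun j => ‖v j‖) (fun j _ => norm_nonneg (v j))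
        (Finset.mem_univ j)
      linarith
    calc ‖v j‖ * ‖y j‖ ≤ (1 + ∑ j, ‖v j‖) * (r / (1 + ∑ j, ‖v j‖)) :=
          mul_le_mul h6 (hy j) (norm_nonneg _) hM.le
      _ = r := by field_simp
  obtain ⟨c, hc⟩ := hRk1 p K hK J av hav μ₀ μ (hF univ) hμF hμ
  refine ⟨c, fun j => ?_⟩
  by_contra hne
  have hne' : v j - algebraMap K (av j).Completion c ≠ 0 := sub_ne_zero.mpr hne
  obtain ⟨y, hy⟩ := hLnz p K hK J av hav μ₀ (hF univ) hμ j _ hne'
  apply hy
  have h7 := hc (Pi.single j y)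
  rw [hμv] at h7
  have h8 : (Pi.single j ((v j - algebraMap K (av j).Completion c) * y) :
      ∀ j, (av j).Completion) =
      (fun i => v i * (Pi.single j y : ∀ j, (av j).Completion) i) -
      fun i => algebraMap K (av i).Completion c * (Pi.single j y : ∀ j, (av j).Completion) i := by
    funext i
    by_cases hi : i = j
    · subst hi
      simp [sub_mul]
    · simp [Pi.single_eq_of_ne hi]
  rw [h8, map_sub, h7, sub_self]

/-! ### 2. The independence of the products of the roots -/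

/-- The expansion of `∑ κ_I (𝓑 Θ)_I` in the products of the roots. -/
private theorem nds_exp (hCvl : S_Cvl) {m : ℕ} {K L : Type} [Field K] [Field L] [Algebra K L]
    (κ : Finset (Fin m) → K) (D : Fin m → K) (ϑ : Fin m → L) :
    ∑ I, algebraMap K L (κ I) * cv (prE fun i => algebraMap K L (D i)) (prE ϑ) I =
      ∑ A, algebraMap K L (∑ I ∈ univ.filter (fun I => A ⊆ I), κ I * ∏ i ∈ I \ A, D i) *
        ∏ i ∈ A, ϑ i := by
  rw [((hCvl m L).1 (prE fun i => algebraMap K L (D i)) (prE ϑ))]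
  have h1 : ∀ I : Finset (Fin m),
      algebraMap K L (κ I) * cv (prE ϑ) (prE fun i => algebraMap K L (D i)) I =
      ∑ A, if A ⊆ I then algebraMap K L (κ I * ∏ i ∈ I \ A, D i) * ∏ i ∈ A, ϑ i else 0 := by
    intro I
    rw [cv, Finset.mul_sum, ← Finset.sum_filter]
    refine Finset.sum_congr ?_ fun A _ => ?_
    · ext A
      simp
    · rw [map_mul, map_prod, prE, prE]
      ring
  rw [Finset.sum_congr rfl fun I _ => h1 I, Finset.sum_comm]
  refine Finset.sum_congr rfl fun A _ => ?_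
  rw [← Finset.sum_filter, map_sum, Finset.sum_mul]

private theorem nds_map (hCvl : S_Cvl) {m : ℕ} {L L' : Type} [Field L] [Field L'] (σ : L →+* L')
    (k : Finset (Fin m) → L) (a b : Fin m → L) :
    σ (∑ I, k I * cv (prE a) (prE b) I) =
      ∑ I, σ (k I) * cv (prE fun i => σ (a i)) (prE fun i => σ (b i)) I := by
  have h : ∀ a : Fin m → L, (fun I' => σ (prE a I')) = prE fun i => σ (a i) := by
    intro a
    funext I'
    simp [prE, map_prod]
  rw [map_sum]
  refine Finset.sum_congr rfl fun I _ => ?_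
  rw [map_mul, (hCvl m L).2.2.2.2.2.2.2.2.2 L' σ, h, h]

private theorem nds_key (hCvl : S_Cvl) (hAsl : S_Asl) {p : ℕ} [Fact p.Prime] {m : ℕ} {K L : Type}
    [Field K] [Field L] [Algebra K L] [CharP K p] [IsGalois K L] (κ : Finset (Fin m) → K)
    (D : Fin m → K) (ϑ : Fin m → L) (hϑ : ∀ j, ϑ j ^ p - ϑ j = algebraMap K L (D j))
    (hD : ∀ c : Fin m → ZMod p, (∃ x : K, x ^ p - x = ∑ j, (c j).val • D j) → c = 0)
    (h0 : ∑ I, algebraMap K L (κ I) * cv (prE fun i => algebraMap K L (D i)) (prE ϑ) I = 0) :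
    κ univ = 0 := by
  rw [nds_exp hCvl] at h0
  have h1 := hAsl p K L m ϑ D hϑ hD _ h0
  have h2 := congrFun h1 univ
  simp only [Finset.univ_subset_iff, Pi.zero_apply] at h2
  rw [Finset.filter_eq', if_pos (Finset.mem_univ _), Finset.sum_singleton, sdiff_self] at h2
  simpa using h2

/-! ### 3. The theorem -/

theorem tNds : S_Dsc → S_Hst → S_Uni2 → S_Act2 → S_Lk1 → S_Cvl → S_Asl → S_Rk1 → S_Lnz → S_Fnl →
    S_Fn2 → S_Ndv → S_Nds := by
  intro _ hHst _ _ hLk1 hCvl hAsl hRk1 hLnz hFnl hFn2 hNdv p _ K _ _ hK J av α h ι d T t w₀ e y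
    b hT z hz hcs m D hD hind η hη
  obtain ⟨-, -, hGal, hα, hαo, -, -, -, -, -, hroot, -⟩ := hHst p K hK J av α h hT.hs
  have hD' : ∀ i, D i ∈ BS p av b := hD
  have hrt : ∀ i, ∃ x : OmS p av α, x ^ p - x = algebraMap K (OmS p av α) (D i : K) := by
    intro i
    obtain ⟨x, hx⟩ := hroot (D i : K) (D i).2
    refine ⟨x, ?_⟩
    rw [← hx, Ph, one_mul]
  choose ϑ hϑ using hrt
  obtain ⟨lam, hlam⟩ := hFnl p K hK J av α h ι d T t w₀ e y b hT m D hD' ϑ hϑ η
  obtain ⟨hl1, hl2, hl3⟩ := hFn2 p K hK J av α h ι d T t w₀ e y b hT m D hD' ϑ hϑ η lam hlam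
  obtain ⟨q, hq0, hq1, hq2⟩ :=
    hNdv p K hK J av α h ι d T t w₀ e y b hT m D hD' ϑ hϑ η lam hlam z hz
  by_contra hno
  push Not at hno
  have hq : ∀ x : OS av, (lam fun j I => algebraMap K (av j).Completion (x : K) * q j I) = 0 := by
    intro x
    obtain ⟨ζ, hζ1, hζ2, hζ3, hζ4⟩ := hno x
    rw [← hq2 x ζ hζ1 (fun j i => hζ2 ⟨j, i⟩) hζ3]
    exact hζ4
  have := hT.hs.fin
  have := hT.hs.nem
  have := Fintype.ofFinite J
  obtain ⟨κ, hκ1, c, hc⟩ := nds_kap hRk1 hLnz hK hT.hs.pls lam hl1 hl2 (hl3 hη) q hq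
  -- the constant is `0`
  have hc0 : c = 0 := by
    have h1 := hc b
    rw [hq0 b rfl] at h1
    simp only [Pi.zero_apply, mul_zero, Finset.sum_const_zero] at h1
    exact (map_eq_zero_iff _ (algebraMap K (av b).Completion).injective).mp h1.symm
  subst hc0
  -- a place where `z` is different
  have hj : ∃ j, z.2 j ≠ z.2 b := by
    by_contra hall
    push Not at hall
    apply hcs
    obtain ⟨b₂, hb1, hb2⟩ := ((hLk1 p K hK J av α h hT.hs hT.sha ι).1 z).mp hz
    refine ⟨z.2 b, ?_, hall⟩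
    rcases hT.bs with h1 | h1
    · intro g
      show z.1 g = z.2 b - omS p av α g * z.2 b
      rw [hb1 g, h1 g]
      ring
    · intro g
      rw [hb1 g, hb2 b h1]
  obtain ⟨j, hj⟩ := hj
  obtain ⟨α₀, ϑ₀, hα₀, hϑ₀, hqj⟩ := hq1 j hj
  have hα₀0 : α₀ ≠ 0 := by
    rintro rfl
    rw [map_zero] at hα₀
    exact hα ((map_eq_zero_iff _ (ι j).toRingHom.injective).mp hα₀.symm)
  have hop : op (av j).Completion (z.2 j - z.2 b) ≠ 0 := by
    have := charP_of_injective_algebraMap (algebraMap K (av j).Completion).injective p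
    intro h1
    rw [op, CharP.cast_eq_zero_iff (av j).Completion p] at h1
    have h2 : (z.2 j - z.2 b) = 0 := by
      rw [← ZMod.natCast_zmod_val (z.2 j - z.2 b), ZMod.natCast_eq_zero_iff]
      exact h1
    exact hj (sub_eq_zero.mp h2)
  have h3 : ∑ I, algebraMap K (av j).Completion (κ I) *
      cv (prE fun i => algebraMap K (av j).Completion (D i : K)) (prE ϑ₀) I = 0 := by
    have h4 := hc j
    rw [map_zero] at h4
    have h5 : ∑ I, algebraMap K (av j).Completion (κ I) * q j I =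
        (op (av j).Completion (z.2 j - z.2 b) * α₀ ^ p) *
        ∑ I, algebraMap K (av j).Completion (κ I) *
          cv (prE fun i => algebraMap K (av j).Completion (D i : K)) (prE ϑ₀) I := by
      rw [Finset.mul_sum]
      refine Finset.sum_congr rfl fun I _ => ?_
      rw [hqj I]
      ring
    rw [h5] at h4
    exact (mul_eq_zero.mp h4).resolve_left (mul_ne_zero hop (pow_ne_zero p hα₀0))
  -- map to the separable closure, and come back to `OmS`
  have h6 : ∑ I, algebraMap K (OmS p av α) (κ I) *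
      cv (prE fun i => algebraMap K (OmS p av α) (D i : K)) (prE ϑ) I = 0 := by
    have hΨ : Function.Injective ((ι j).comp (OmS p av α).val : OmS p av α →+* Kvs (av j)) :=
      RingHom.injective _
    refine hΨ ?_
    rw [map_zero, nds_map hCvl]
    have h7 := congrArg (algebraMap (av j).Completion (Kvs (av j))) h3
    rw [map_zero, nds_map hCvl] at h7
    rw [← h7]
    have h8 : ∀ x : K, ((ι j).comp (OmS p av α).val : OmS p av α →+* Kvs (av j))
        (algebraMap K (OmS p av α) x) =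
        algebraMap (av j).Completion (Kvs (av j)) (algebraMap K (av j).Completion x) := by
      intro x
      rw [← IsScalarTower.algebraMap_apply K (av j).Completion (Kvs (av j)) x]
      exact ((ι j).comp (OmS p av α).val).commutes x
    have h9 : ∀ i, ((ι j).comp (OmS p av α).val : OmS p av α →+* Kvs (av j)) (ϑ i) =
        algebraMap (av j).Completion (Kvs (av j)) (ϑ₀ i) := fun i => (hϑ₀ i).symm
    simp only [h8, h9]
  have h7 := nds_key hCvl hAsl κ (fun i => (D i : K)) ϑ hϑ (fun c' hc' => by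
    refine hind c' ?_
    obtain ⟨x, hx⟩ := hc'
    refine ⟨x, ?_⟩
    rw [hx]
    simp only [AddSubmonoidClass.coe_finsetSum, AddSubmonoidClass.coe_nsmul]) h6
  rw [hκ1] at h7
  exact one_ne_zero h7

end Pool.Agent.MP72P
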