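import Pool.Agent.Lib.MP_72e2e6_nt.P3.M.Defs
import Pool.Agent.Lib.MP_72e2e6_nt.P3.L.Spec
import Pool.Agent.Lib.MP_72e2e6_nt.P3.N2.SpecB

/-!
# MP_72e2e6_nt, theorem T3p, part M: nondegeneracy, the axioms `Fm.Good`

The proofs are complete in the docstrings; every module is independent (used statements are
hypotheses): file `P3/M/<Name>.lean` (import this file only) with `theorem t<Name> : S_<Name>` or
`theorem t<Name> (h1 : S_X) (h2 : S_Y) .. : S_<Name>` (in the order of the docstring), namespace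
`Pool.Agent.MP72P`, other declarations `private`. All types are in `Type`. Notation: `A = OS av`, `G = GS p av α`,
`ω = omS p av α`, `K_j = (av j).Completion`, `Γ_j` its Galois group, `r_j = rOm p av α (ι j)`, `D_j = DS p av α ι j`,
`T` the test system of `TsH`; `E = Finset (Fin m) → ZMod p`, `ρ = rE ω δ` the action on `E` with `δ i = hS p av α (D i)`,
`D i ∈ BS p av b`. A pair is `ζ = (c, a)`, `c : G → E`, `a : J → E`; `psi ρ ζ j g = c g - (a j - ρ g (a j))`. For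
`e ∈ E` the pair `(g ↦ e - ρ g e, j ↦ e)` is constant, its `psi` is `0`. For `D i ∈ BS p av b` and `j ≠ b`: `hS (D i) = 0` on
`D_j` (`S_Rgo`: `hS f (r_j g) = hP p 1 f g`, a coboundary for the trivial character by `S_Has` (5)), so if moreover
`ω = 1` on `D_j` then `ρ g = id` for `g ∈ D_j` (+).
-/

namespace Pool.Agent.MP72P

open IntermediateField Finset

/-! ### 1. Algebra -/

/-- **Cvl** (150 lines). The product `cv`.

Proof. Associativity: both sides are `∑ f A * g B * h C` over the disjoint `A, B, C` with union `I`. (5)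
`Finset.prod_add`. -/
def S_Cvl : Prop :=
  ∀ (m : ℕ) (L : Type) [CommRing L],
    (∀ f g : Finset (Fin m) → L, cv f g = cv g f) ∧
    (∀ f g h : Finset (Fin m) → L, cv (cv f g) h = cv f (cv g h)) ∧
    (∀ f g h : Finset (Fin m) → L, cv f (g + h) = cv f g + cv f h) ∧
    (∀ (c : L) (f g : Finset (Fin m) → L), cv (fun I => c * f I) g = fun I => c * cv f g I) ∧
    (∀ a b : Fin m → L, cv (prE a) (prE b) = prE (a + b)) ∧
    (∀ (I : Finset (Fin m)) (x : L) (f : Finset (Fin m) → L) (I' : Finset (Fin m)),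
      cv (sgE I x) f I' = if I ⊆ I' then x * f (I' \ I) else 0) ∧
    (∀ (x : L) (f : Finset (Fin m) → L), cv (sgE ∅ x) f = fun I => x * f I) ∧
    (∀ (x : L) (f : Finset (Fin m) → L), cv (sgE univ x) f = sgE univ (x * f ∅)) ∧
    prE (0 : Fin m → L) = sgE ∅ 1 ∧
    ∀ (L' : Type) [CommRing L'] (σ : L →+* L') (f g : Finset (Fin m) → L) (I : Finset (Fin m)),
      σ (cv f g I) = cv (fun I' => σ (f I')) (fun I' => σ (g I')) I

/-- **Rlc** (350 lines, uses `S_Cvl`). The relation `RlE`: crossed homomorphisms for `rE ω δ` and elements of `k`.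

Proof. Write products for `cv` (commutative, associative, unit `sgE ∅ 1`), `Θ = prE ϑ`, `𝓑 = prE D`, `φ` for the `p`-th power of the
coefficients (a ring homomorphism, `Frobenius`), `Ψ(y) = PsE p h D y = φ(y) - h 𝓑 y`, additive and compatible with the
action of `g`. `Θ` is invertible (inverse `prE (- ϑ)`), `φ(Θ) = Θ 𝓑` (`ϑ ^ p = ϑ + D`), so `φ(α Θ) = h 𝓑 α Θ`. For `g`:
`g Θ = prE (δ g) Θ`, so `g (α Θ) = ρ_g (α Θ)` where `ρ_g = ω(g) prE (δ g)`, and `rE ω δ g f = ρ_g f`. (*) `Ψ(y) = 0` iff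
`y = α Θ e` with `e ∈ E` (coefficients in the prime field): let `y = α Θ e`; `Ψ(y) = h 𝓑 α Θ (φ(e) - e)`.
(1) `α Θ c(g) = g y - y`: `c` is locally constant (stabilizers are open) and
`α Θ c(g g') = g (g' y - y) + (g y - y) = g (α Θ) c(g') + α Θ c(g) = α Θ (ρ_g c(g') + c(g))`. (2) `y ± y'`. (3) by (*)
`y = α Θ e`, `α Θ c(g) = (ρ_g - 1) α Θ e`; take `- e`. (4) `c` belongs to `0` with `y - y₁`, `y₁` the given element of `k`; (3).
(5) Solve `Ph p (α ^ (p - 1)) (y I) = Y I + h ∑_{∅ ≠ A ⊆ I} (∏_{j ∈ A} D j) y (I \ A)` by recursion on the number of elements of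
`I`; then `Ψ(g y - y) = 0`, so `g y - y = α Θ c(g)` by (*). (6) the element `y t_univ`: `𝓑 y t_univ = y t_univ`,
`Θ t_univ = t_univ`. (7) the element `y = a α Θ ξ`: `Ψ(y) = a h 𝓑 α Θ (ξ ^ p - ξ)`, `h α = α ^ p`, `g y - y = a α Θ c(g)`. -/
def S_Rlc : Prop :=
  ∀ (p : ℕ) [Fact p.Prime] (k L : Type) [Field k] [Field L] [Algebra k L] [CharP k p]
    [IsGalois k L] (m : ℕ) (α : L) (h : k) (ϑ : Fin m → L) (D : Fin m → k), α ≠ 0 →
    α ^ (p - 1) = algebraMap k L h → (∀ j, ϑ j ^ p - ϑ j = algebraMap k L (D j)) →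
    ∀ (ω : Gal(L/k) → ZMod p) (δ : Fin m → Gal(L/k) → ZMod p),
      (∀ g, g α = op L (ω g) * α) → (∀ j g, g (ϑ j) = ϑ j + op L (δ j g)) →
    (∀ (c : Gal(L/k) → Finset (Fin m) → ZMod p) (Y : Finset (Fin m) → k), RlE p α ϑ c Y →
      Coc (rE ω δ) c) ∧
    (∀ (c c' : Gal(L/k) → Finset (Fin m) → ZMod p) (Y Y' : Finset (Fin m) → k),
      RlE p α ϑ c Y → RlE p α ϑ c' Y' →
      RlE p α ϑ (c + c') (Y + Y') ∧ RlE p α ϑ (c - c') (Y - Y')) ∧
    (∀ c : Gal(L/k) → Finset (Fin m) → ZMod p, RlE p α ϑ c (0 : Finset (Fin m) → k) → ∃ e : Finset (Fin m) → ZMod p, ∀ g, c g = e - rE ω δ g e) ∧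
    (∀ (c : Gal(L/k) → Finset (Fin m) → ZMod p) (y : Finset (Fin m) → k),
      RlE p α ϑ c (PsE p h D y) →
      ∃ e : Finset (Fin m) → ZMod p, ∀ g, c g = e - rE ω δ g e) ∧
    (∀ (O : Subring L) (Y : Finset (Fin m) → k),
      (∀ x ∈ O, ∃ y ∈ O, Ph p (α ^ (p - 1)) y = x) → α ^ (p - 1) ∈ O →
      (∀ j, algebraMap k L (D j) ∈ O) → (∀ I, algebraMap k L (Y I) ∈ O) →
      ∃ c : Gal(L/k) → Finset (Fin m) → ZMod p, RlE p α ϑ c Y) ∧
    (∀ (c : Gal(L/k) → ZMod p) (x : k) (y : L), Ph p (α ^ (p - 1)) y = algebraMap k L x →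
      (∀ g, g y = y + op L (c g) * α) → RlE p α ϑ (fun g => sgE univ (c g)) (sgE univ x)) ∧
    ∀ (α₀ : k) (ϑ₀ : Fin m → k), algebraMap k L α₀ = α → (∀ j, algebraMap k L (ϑ₀ j) = ϑ j) →
      ∀ (x : k) (ξ : L) (c : Gal(L/k) → ZMod p) (a : ZMod p), ξ ^ p - ξ = algebraMap k L x →
        (∀ g, g ξ = ξ + op L (c g)) → RlE p α ϑ (fun g => sgE ∅ (c g * a))
          fun I => x * (op k a * α₀ ^ p * cv (prE D) (prE ϑ₀) I)

/-- **Omr** (120 lines, uses `S_Twb`, `S_Hst`). A ring in `OmS` which is closed under roots.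

Proof. `O` is the ring of the elements which are integral over `A`. Let `x ∈ O`. `α`, `α⁻¹` are integral (`h`, `h⁻¹ ∈ A`). Let
`y ∈ K^s` with `y ^ p - y = x / α ^ p` (separable polynomial), integral over `A`; `y ∈ OmS` by `S_Twb` (6). `θ = α y` satisfies
`θ ^ p - h θ = α ^ p (y ^ p - y) = x`. -/
def S_Omr : Prop :=
  ∀ (p : ℕ) [Fact p.Prime] (K : Type) [Field K] [CharP K p], GFld p K →
    ∀ (J : Type) (av : J → AbsoluteValue K ℝ) (α : Kgs K) (h : K), HS p av α h →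
    ∃ O : Subring (OmS p av α), (∀ f ∈ OS av, algebraMap K (OmS p av α) f ∈ O) ∧
      ∀ x ∈ O, ∃ θ ∈ O, Ph p (alo p av α ^ (p - 1)) θ = x

/-- **Rsl** (120 lines, uses `S_Hst`, `S_Rgo`, `S_Cvl`). Restriction of the relation.

Proof. Apply the ring homomorphism `x ↦ ι x` from `OmS` to `Kvs v` to the equations; `g (ι x) = ι (rOm ι g x)` (`S_Rgo`). -/
def S_Rsl : Prop :=
  ∀ (p : ℕ) [Fact p.Prime] (K : Type) [Field K] [CharP K p], GFld p K →
    ∀ (J : Type) (av : J → AbsoluteValue K ℝ) (α : Kgs K) (h : K), HS p av α h →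
    ∀ (v : AbsoluteValue K ℝ) (ι : Kgs K →ₐ[K] Kvs v) (m : ℕ) (ϑ : Fin m → OmS p av α)
      (c : GS p av α → Finset (Fin m) → ZMod p) (Y : Finset (Fin m) → K),
      RlE p (alo p av α) ϑ c Y →
      RlE p (ι α) (fun j => ι (ϑ j : Kgs K)) (fun g => c (rOm p av α ι g))
        fun I => algebraMap K v.Completion (Y I)

/-- **Bal** (120 lines, uses `S_Lc1`). Small elements are in the image of `PsE`.

Proof. Let `ρ` be as in `S_Lc1` (11) for `h`, `C ≥ 1` a bound for all `‖∏_{j ∈ A} D j‖`, and `C ^ m r ≤ ρ`. Solve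
`Ph p h (y I) = Y I + h ∑_{∅ ≠ A ⊆ I} (∏_{j ∈ A} D j) y (I \ A)` by recursion on the number of elements of `I`, with
`‖y I‖ ‖h‖ ≤ C ^ #I * r`. -/
def S_Bal : Prop :=
  ∀ (p : ℕ) [Fact p.Prime] (K : Type) [Field K] [CharP K p] (v : AbsoluteValue K ℝ) (Q : ℕ)
    (ϖ : K) (R : Finset K), LF v p Q ϖ R → ∀ (m : ℕ) (h : v.Completion) (D : Fin m → v.Completion),
    h ≠ 0 → ∃ r : ℝ, 0 < r ∧ ∀ Y : Finset (Fin m) → v.Completion, (∀ I, ‖Y I‖ ≤ r) →
      ∃ y : Finset (Fin m) → v.Completion, PsE p h D y = Y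

/-- **Asl** (150 lines). Products of Artin-Schreier roots are linearly independent.

Proof. Let `δ j g` be defined by `g (ϑ j) = ϑ j + op L (δ j g)`, homomorphisms from `G = Gal(L/k)` to `ZMod p`. If
`∑ c j δ j = 0` then `x = ∑ (c j).val • ϑ j` is fixed by `G`, so it is in `k` and `x ^ p - x = ∑ (c j).val • D j`: so
`c = 0`. So the image of `G → (ZMod p) ^ m` is everything (a proper subspace is killed by a linear form), and there are
`σ_j ∈ G` with `δ i (σ_j) = if i = j then 1 else 0`. `(σ_j - 1)(∏_{i ∈ I} ϑ i) = ∏_{i ∈ I \ {j}} ϑ i` if `j ∈ I` and `0` otherwise. Suppose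
some `u I ≠ 0`, let `I₀` be such a set with the largest number of elements, and apply `∏_{j ∈ I₀} (σ_j - 1)` to the relation:
only `I ⊇ I₀` contribute, so `u I₀ = 0`, a contradiction. -/
def S_Asl : Prop :=
  ∀ (p : ℕ) [Fact p.Prime] (k L : Type) [Field k] [Field L] [Algebra k L] [CharP k p]
    [IsGalois k L] (m : ℕ) (ϑ : Fin m → L) (D : Fin m → k),
    (∀ j, ϑ j ^ p - ϑ j = algebraMap k L (D j)) →
    (∀ c : Fin m → ZMod p, (∃ x : k, x ^ p - x = ∑ j, (c j).val • D j) → c = 0) →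
    ∀ u : Finset (Fin m) → k, ∑ I, algebraMap k L (u I) * ∏ j ∈ I, ϑ j = 0 → u = 0

/-! ### 2. Functionals -/

/-- **Rk1** (300 lines, uses `S_Na`, `S_Den`, `S_Frc`, `S_Dgu`, `S_Chi`). RANK ONE.

Proof. Let `r` be a radius for `μ₀` and `μ` (`Fnc.con`), `d j`, `ϖ j` the degrees and uniformizers (`S_Dgu`), `D = ∑ d j ≥ 1`,
`K(n) = BlZ av ϖ (fun _ => n)`, `R` a natural number with `av j (ϖ j) ^ R ≤ r` for all `j`; `a(n) = #(A ∩ K(n))`,
`c(n) = [K : A + K(n)]`, finite and `≥ 1`. `S_Chi` for `(-N, N)`: `a(-N) c(0) = a(0) c(-N) p ^ (N D)`, so `a(-N) c(0) ≥ p ^ (N D)`.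
`S_Chi` for `(0, R + N)`: `a(0) c(R + N) = a(R + N) c(0) p ^ ((R + N) D)`, so `c(R + N) ≤ c(0) p ^ ((R + N) D)` (`a` is
decreasing). So for large `N` `a(-N) ^ 2 > c(R + N)`. For `a, b ∈ A ∩ K(-N)` let `F_{a,b}(y) = μ(a y) - μ₀(b y)` (multiplication in every
component). It vanishes on `A` (diagonally embedded) and on `{y | ‖y j‖ ≤ av j (ϖ j) ^ (R + N)}`. As `K` is dense
(`S_Den`), it is determined by its restriction to `K`, a homomorphism `K / (A + K(R + N)) → ZMod p`; a finite abelian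
group killed by `p` of order `M` has exactly `M` homomorphisms to `ZMod p` (at most `M`: it is generated by `s` elements
with `M = p ^ s`). By the pigeonhole principle there are `(a, b) ≠ (a', b')` with the same `F`; the difference
`(a, b) ≠ 0` satisfies `μ(a y) = μ₀(b y)` for all `y`. If `a = 0` then `b ≠ 0` and `μ₀ = 0` (`y = b⁻¹ y'`): excluded. So
`a ≠ 0` and `μ(y) = μ₀((b / a) y)`. -/
def S_Rk1 : Prop :=
  ∀ (p : ℕ) [Fact p.Prime] (K : Type) [Field K] [CharP K p], GFld p K →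
    ∀ (J : Type) [Fintype J] [Nonempty J] (av : J → AbsoluteValue K ℝ), Pls av →
    ∀ μ₀ μ : (∀ j, (av j).Completion) →+ ZMod p, Fnc p av μ₀ → Fnc p av μ → μ₀ ≠ 0 →
      ∃ κ : K, ∀ y, μ y = μ₀ fun j => algebraMap K (av j).Completion κ * y j

/-- **Lnz** (80 lines, uses `S_Str`, `S_Den`). A functional is nonzero at every place.

Proof. Otherwise `μ₀ (Pi.single j y) = 0` for all `y ∈ K_j` (`y = κ (κ⁻¹ y)`). Let `y` be arbitrary, `x i ∈ K` near `y i`, and `f ∈ A` with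
`‖y i - f‖ ≤ r` for `i ≠ j` (`S_Str`). `μ₀ y = μ₀ (y - f)`, and `y - f` is the sum of an element with components of norm `≤ r` and of
an element `Pi.single j _`, so `μ₀ y = 0`. -/
def S_Lnz : Prop :=
  ∀ (p : ℕ) [Fact p.Prime] (K : Type) [Field K] [CharP K p], GFld p K →
    ∀ (J : Type) [Fintype J] [DecidableEq J] (av : J → AbsoluteValue K ℝ), Pls av →
    ∀ μ₀ : (∀ j, (av j).Completion) →+ ZMod p, Fnc p av μ₀ → μ₀ ≠ 0 →
      ∀ (j : J) (κ : (av j).Completion), κ ≠ 0 →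
        ∃ y : (av j).Completion, μ₀ (Pi.single j (κ * y)) ≠ 0

/-! ### 3. Pairs with values in `E` -/

/-- **Tkz** (200 lines, uses `S_Has`, `S_Hst`, `S_Rgo`, `S_Uni2`, `S_Act2`). Pairs with tests `0` are in the kernel.

Proof. Let `β = ζ.2 b` (`b` is in the range of `y`), `ζ' = (g ↦ β - ρ g β, w ↦ if w ∈ range y then ζ.2 w else β)`. For
`g ∈ D_w`: `psi ρ ζ' w g = (β - ζ'.2 w) - ρ g (β - ζ'.2 w)`, which is `0`: if `w = b` or `w` is not in the range then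
`ζ'.2 w = β`; otherwise `ω = 1` on `D_w`, `w ≠ b` and `ρ g = id` by (+). So `ζ' ∈ Ker`, its tests are `0` (`ti`), its coordinates are those
of `ζ`; by uniqueness (`S_Uni2` for `E`, `S_Act2`) `ζ = ζ'`. -/
def S_Tkz : Prop :=
  ∀ (p : ℕ) [Fact p.Prime] (K : Type) [Field K] [CharP K p], GFld p K →
    ∀ (J : Type) (av : J → AbsoluteValue K ℝ) (α : Kgs K) (h : K)
      (ι : ∀ j, Kgs K →ₐ[K] Kvs (av j)) (d : ℕ) (T : J → Type)
      (t : ∀ j, T j → Gal(Kvs (av j)/(av j).Completion)) (w₀ : J)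
      (e : Fin d → Gal(Kvs (av w₀)/(av w₀).Completion)) (y : Fin (d + 1) → J) (b : J),
      TsH p av α h ι t w₀ e y b →
    ∀ (m : ℕ) (D : Fin m → OS av), (∀ i, D i ∈ BS p av b) →
    ∀ ζ : (GS p av α → Finset (Fin m) → ZMod p) × (J → Finset (Fin m) → ZMod p),
      Coc (rE (omS p av α) fun i => hS p av α (D i : K)) ζ.1 →
      (∀ j (i : T j), psi (rE (omS p av α) fun i => hS p av α (D i : K)) ζ j
        (rOm p av α (ι j) (t j i)) = 0) →
      ζ ∈ Ker (rE (omS p av α) fun i => hS p av α (D i : K)) (DS p av α ι)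

/-- **Ndf** (300 lines, uses `S_Has`, `S_Hst`, `S_Rgo`, `S_Uni2`, `S_Act2`, `S_Lk1`). The first derivative of the pair `ζ'`
in the direction `x`.

Proof. Let `ρ' = rE ω δ'` be the action on `E' = Finset (Fin (m + 1)) → ZMod p`, `δ' = (hS x, hS (D 0), ..)`, `b₁ = z.2 b`,
`a w = z.2 w - b₁`. By `S_Lk1` `z = (c, z.2)` with `c = b₂ - ω b₂` and `z.2 w = b₂` if `ω ≠ 1` on `D_w`; so `a w = 0` if `ω ≠ 1` on
`D_w` (if `ω ≠ 1` then `b₂ = b₁` by `TsH.bs`), and `a b = 0`. (1) Let `ζ''` be `ζ'` minus the constant pair of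
`b' = sgE ∅ b₁ ∈ E'`: a crossed homomorphism pair with tests `0` and coordinates `sgE ∅ (a (y k))`. For `f ∈ E'` let
`f₀ I = f (succ I)`, `f₁ I = f ({0} ∪ succ I)` (`succ I = I.map Fin.succEmb`), elements of `E`. Then `(ρ' g f)₀ = ρ g f₀` and
`(ρ' g f)₁ = ρ g f₁ + hS x g • ρ g f₀` (the subsets of `{0} ∪ succ I` are the `succ A` and the `{0} ∪ succ A`, `A ⊆ I`).
(2) `ζ''₀` is a pair for `ρ` with tests `0` and coordinates `sgE ∅ (a (y k))`. The pair `(0, w ↦ sgE ∅ (a w))` has the same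
properties: for `g ∈ D_w` `psi = - (sgE ∅ (a w) - ρ g (sgE ∅ (a w))) = 0` since `a w ≠ 0` implies `w ≠ b`, `ω = 1` on `D_w`,
`ρ g = id` by (+). By uniqueness (`S_Uni2`, `S_Act2`) `ζ''₀ = (0, w ↦ sgE ∅ (a w))`. (3) `ζ₁ = ζ''₁`: as `ζ''₀.1 = 0`, `ζ₁.1` is a
crossed homomorphism for `ρ`, and for `g ∈ D_w`
`(psi ρ' ζ'' w g)₁ = psi ρ ζ₁ w g + hS x g • ρ g (sgE ∅ (a w)) = psi ρ ζ₁ w g + sgE ∅ (hS x g * a w)`. The left side is `0` for the
tests. Let `ζ = - ζ₁`. For the extra tests take the coefficient at `univ = {0} ∪ succ univ`; `psi ρ' ζ'' = psi ρ' ζ'`. -/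
def S_Ndf : Prop :=
  ∀ (p : ℕ) [Fact p.Prime] (K : Type) [Field K] [CharP K p], GFld p K →
    ∀ (J : Type) (av : J → AbsoluteValue K ℝ) (α : Kgs K) (h : K)
      (ι : ∀ j, Kgs K →ₐ[K] Kvs (av j)) (d : ℕ) (T : J → Type)
      (t : ∀ j, T j → Gal(Kvs (av j)/(av j).Completion)) (w₀ : J)
      (e : Fin d → Gal(Kvs (av w₀)/(av w₀).Completion)) (y : Fin (d + 1) → J) (b : J),
      TsH p av α h ι t w₀ e y b →
    ∀ (m : ℕ) (D : Fin m → OS av), (∀ i, D i ∈ BS p av b) →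
    ∀ z ∈ Ker (fun g (x : ZMod p) => omS p av α g * x) (DS p av α ι), ∀ (x : OS av)
      (ζ' : (GS p av α → Finset (Fin (m + 1)) → ZMod p) × (J → Finset (Fin (m + 1)) → ZMod p)),
      Coc (rE (omS p av α) fun i => hS p av α ((Fin.cons x D : Fin (m + 1) → OS av) i : K)) ζ'.1 →
      (∀ j (i : T j), psi (rE (omS p av α) fun i => hS p av α
        ((Fin.cons x D : Fin (m + 1) → OS av) i : K)) ζ' j (rOm p av α (ι j) (t j i)) = 0) →
      (∀ k I, ζ'.2 (y k) I = if I = ∅ then z.2 (y k) else 0) →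
      ∃ ζ : (GS p av α → Finset (Fin m) → ZMod p) × (J → Finset (Fin m) → ZMod p),
        Coc (rE (omS p av α) fun i => hS p av α (D i : K)) ζ.1 ∧
        (∀ j (i : T j), psi (rE (omS p av α) fun i => hS p av α (D i : K)) ζ j
          (rOm p av α (ι j) (t j i)) =
            sgE ∅ (hS p av α (x : K) (rOm p av α (ι j) (t j i)) * (z.2 j - z.2 b))) ∧
        ∀ i : Fin d, psi (rE (omS p av α) fun i => hS p av α
            ((Fin.cons x D : Fin (m + 1) → OS av) i : K)) ζ' w₀ (rOm p av α (ι w₀) (e i)) univ =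
          sgE (m := m) ∅ (hS p av α (x : K) (rOm p av α (ι w₀) (e i)) * (z.2 w₀ - z.2 b)) univ -
            psi (rE (omS p av α) fun i => hS p av α (D i : K)) ζ w₀
              (rOm p av α (ι w₀) (e i)) univ

/-- **Fnl** (300 lines, uses `S_Dsc`, `S_Lc2`, `S_Has`, `S_Sep`, `S_Hst`, `S_Rgo`, `S_Uni2`, `S_Act2`, `S_Rlc`, `S_Tkz`). The
functional.

Proof. For every `j` apply `S_Rlc` to `k = K_j`, `L = Kvs (av j)`, `ι j α`, `h`, `ι j (ϑ i)`, `D i` with the functions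
`ω ∘ r_j`, `hS (D i) ∘ r_j` (the hypotheses: `S_Has` (1), (2) for `alo`, `ϑ i` in `OmS` and `g (ι j x) = ι j (r_j g x)`, `S_Rgo`).
(a) For every `Y` there are `f j` with `RlE .. (f j) (Y j)` (`S_Rlc` (5), `O = ⊤`: `Ph` is surjective on `Kvs`, `S_Sep` (2)); `f j` is a
crossed homomorphism for `ρ ∘ r_j`, and only finitely many `f j (t j i)` are `≠ 0` (`f j` is locally constant, `f j 1 = 0`, `LTs.conv`, `J`
finite). By `S_Uni2` (`E`, `S_Act2`) there is a pair `ζ` with the tests `f j (t j i)` (and the coordinates `0`). (b) The value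
`V(f, ζ) = ∑ i, η i * (f w₀ (e i) univ - psi ρ ζ w₀ (r (e i)) univ)` depends only on `Y`: for two choices the differences `f`, `ζ`
satisfy `RlE .. (f j) 0`, so `f j g = ε j - ρ (r_j g) (ε j)` (`S_Rlc` (3)); the pair `ζ + (0, ε)` has the tests
`psi ρ ζ j - (ε j - ρ ε j) = 0`, so by `S_Tkz` (and `ej`) its extra tests are `0`: `psi ρ ζ w₀ (r (e i)) = f w₀ (e i)`.
(c) Additivity: `S_Rlc` (2), sums of pairs. -/
def S_Fnl : Prop :=
  ∀ (p : ℕ) [Fact p.Prime] (K : Type) [Field K] [CharP K p], GFld p K →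
    ∀ (J : Type) (av : J → AbsoluteValue K ℝ) (α : Kgs K) (h : K)
      (ι : ∀ j, Kgs K →ₐ[K] Kvs (av j)) (d : ℕ) (T : J → Type)
      (t : ∀ j, T j → Gal(Kvs (av j)/(av j).Completion)) (w₀ : J)
      (e : Fin d → Gal(Kvs (av w₀)/(av w₀).Completion)) (y : Fin (d + 1) → J) (b : J),
      TsH p av α h ι t w₀ e y b →
    ∀ (m : ℕ) (D : Fin m → OS av), (∀ i, D i ∈ BS p av b) →
    ∀ ϑ : Fin m → OmS p av α, (∀ i, ϑ i ^ p - ϑ i = algebraMap K (OmS p av α) (D i : K)) →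
    ∀ η : Fin d → ZMod p,
    ∃ lam : (∀ j, Finset (Fin m) → (av j).Completion) →+ ZMod p,
      ∀ (Y : ∀ j, Finset (Fin m) → (av j).Completion)
        (f : ∀ j, Gal(Kvs (av j)/(av j).Completion) → Finset (Fin m) → ZMod p)
        (ζ : (GS p av α → Finset (Fin m) → ZMod p) × (J → Finset (Fin m) → ZMod p)),
        (∀ j, RlE p (ι j α) (fun i => ι j (ϑ i : Kgs K)) (f j) (Y j)) →
        Coc (rE (omS p av α) fun i => hS p av α (D i : K)) ζ.1 →
        (∀ j (i : T j), psi (rE (omS p av α) fun i => hS p av α (D i : K)) ζ j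
          (rOm p av α (ι j) (t j i)) = f j (t j i)) →
        lam Y = ∑ i, η i * (f w₀ (e i) univ -
          psi (rE (omS p av α) fun i => hS p av α (D i : K)) ζ w₀ (rOm p av α (ι w₀) (e i)) univ)

/-- **Fn2** (250 lines, uses `S_Dsc`, `S_Has`, `S_Sep`, `S_Hst`, `S_Rgo`, `S_Rlc`, `S_Omr`, `S_Rsl`, `S_Bal`). Properties of
the functional.

Proof. The setting of `S_Fnl` (a). (1) By `S_Rlc` (5) for `k = K`, `L = OmS`, `alo`, the ring `O` of `S_Omr` there is `c` with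
`RlE p alo ϑ c Y`; it is a crossed homomorphism for `ρ` (`S_Rlc` (1)), and `S_Rsl` gives `RlE` for `f j = c ∘ r_j`. The pair
`ζ = (c, 0)` has `psi ρ ζ j (r_j g) = c (r_j g)` (`ρ g 0 = 0`): the value is `0`. (2) Let `r` be the minimum of the radii of `S_Bal` (for
`h`, `D i` in `K_j`). `Y j = PsE p h D (y j)`; choose `f j` with `RlE .. (f j) (Y j)` (`S_Rlc` (5)); by `S_Rlc` (4)
`f j g = ε j - ρ (r_j g) (ε j)`; the pair `ζ = (0, - ε)` has `psi ρ ζ j (r_j g) = f j g`: the value is `0`. (3) Let `c i` with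
`∑ η i * c i ≠ 0`; by `LTs.u0` there is a crossed homomorphism `f₀` on `Γ_(w₀)` with the tests `0` and `f₀ (e i) = c i`.
`f₀ = hP p (ι α) x + (β - ω β)`, `x ∈ K_(w₀)` (`S_Sep` (3)), so there is `y` with `Ph y = x`, `g y = y + op (f₀ g) * ι α` (`S_Has` (3), subtract
`op β * ι α`). By `S_Rlc` (6) `f w₀ = sgE univ (f₀ g)` belongs to `sgE univ x`; `f j = 0`, `Y j = 0` for `j ≠ w₀`; `ζ = 0`. The value is
`∑ η i * c i`. Take `x' = Pi.single w₀ x`. -/
def S_Fn2 : Prop :=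
  ∀ (p : ℕ) [Fact p.Prime] (K : Type) [Field K] [CharP K p], GFld p K →
    ∀ (J : Type) (av : J → AbsoluteValue K ℝ) (α : Kgs K) (h : K)
      (ι : ∀ j, Kgs K →ₐ[K] Kvs (av j)) (d : ℕ) (T : J → Type)
      (t : ∀ j, T j → Gal(Kvs (av j)/(av j).Completion)) (w₀ : J)
      (e : Fin d → Gal(Kvs (av w₀)/(av w₀).Completion)) (y : Fin (d + 1) → J) (b : J),
      TsH p av α h ι t w₀ e y b →
    ∀ (m : ℕ) (D : Fin m → OS av), (∀ i, D i ∈ BS p av b) →
    ∀ ϑ : Fin m → OmS p av α, (∀ i, ϑ i ^ p - ϑ i = algebraMap K (OmS p av α) (D i : K)) →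
    ∀ (η : Fin d → ZMod p) (lam : (∀ j, Finset (Fin m) → (av j).Completion) →+ ZMod p),
      (∀ (Y : ∀ j, Finset (Fin m) → (av j).Completion)
        (f : ∀ j, Gal(Kvs (av j)/(av j).Completion) → Finset (Fin m) → ZMod p)
        (ζ : (GS p av α → Finset (Fin m) → ZMod p) × (J → Finset (Fin m) → ZMod p)),
        (∀ j, RlE p (ι j α) (fun i => ι j (ϑ i : Kgs K)) (f j) (Y j)) →
        Coc (rE (omS p av α) fun i => hS p av α (D i : K)) ζ.1 →
        (∀ j (i : T j), psi (rE (omS p av α) fun i => hS p av α (D i : K)) ζ j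
          (rOm p av α (ι j) (t j i)) = f j (t j i)) →
        lam Y = ∑ i, η i * (f w₀ (e i) univ -
          psi (rE (omS p av α) fun i => hS p av α (D i : K)) ζ w₀
            (rOm p av α (ι w₀) (e i)) univ)) →
      (∀ Y : Finset (Fin m) → K, (∀ I, Y I ∈ OS av) →
        lam (fun j I => algebraMap K (av j).Completion (Y I)) = 0) ∧
      (∃ r : ℝ, 0 < r ∧ ∀ Y : ∀ j, Finset (Fin m) → (av j).Completion,
        (∀ j I, ‖Y j I‖ ≤ r) → lam Y = 0) ∧
      (η ≠ 0 → ∃ x : ∀ j, (av j).Completion, lam (fun j => sgE univ (x j)) ≠ 0)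

/-- **Ndv** (250 lines, uses `S_Dsc`, `S_Has`, `S_Sep`, `S_Hst`, `S_Rgo`, `S_Lk1`, `S_Rlc`, `S_Ndf`). The value in `Nd`.

Proof. Let `a w = z.2 w - z.2 b`. If `a w ≠ 0` then `w ≠ b` and `ω = 1` on `D_w` (see the proof of `S_Ndf`; `S_Lk1`), and
`hS (D i) = 0` on `D_w` by (+), so `ι w α` and the `ι w (ϑ i)` are fixed by `Γ_w` (`g (ι x) = ι (r_w g x)`, `S_Has` (1), (2)), so they come from
elements `α₀`, `ϑ₀ i` of `K_w`. Define `q w` by the formula, and `q w = 0` if `a w = 0`. Let `x ∈ A`, `f w g = sgE ∅ (hS x (r_w g) * a w)`.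
Then `RlE .. (f w) (x q w)`: for `a w ≠ 0` this is `S_Rlc` (7), `ξ` the image in `Kvs` of a root of `ξ ^ p - ξ = x` in `OmS`
(`S_Hst`), `g ξ = ξ + op (hS x (r_w g))` (`S_Has` (2), `omc p 1 = 1`); for `a w = 0` it is trivial (`y = 0`). Let `ζ` be as in
`S_Ndf`. The property of `lam` gives the claim. -/
def S_Ndv : Prop :=
  ∀ (p : ℕ) [Fact p.Prime] (K : Type) [Field K] [CharP K p], GFld p K →
    ∀ (J : Type) (av : J → AbsoluteValue K ℝ) (α : Kgs K) (h : K)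
      (ι : ∀ j, Kgs K →ₐ[K] Kvs (av j)) (d : ℕ) (T : J → Type)
      (t : ∀ j, T j → Gal(Kvs (av j)/(av j).Completion)) (w₀ : J)
      (e : Fin d → Gal(Kvs (av w₀)/(av w₀).Completion)) (y : Fin (d + 1) → J) (b : J),
      TsH p av α h ι t w₀ e y b →
    ∀ (m : ℕ) (D : Fin m → OS av), (∀ i, D i ∈ BS p av b) →
    ∀ ϑ : Fin m → OmS p av α, (∀ i, ϑ i ^ p - ϑ i = algebraMap K (OmS p av α) (D i : K)) →
    ∀ (η : Fin d → ZMod p) (lam : (∀ j, Finset (Fin m) → (av j).Completion) →+ ZMod p),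
      (∀ (Y : ∀ j, Finset (Fin m) → (av j).Completion)
        (f : ∀ j, Gal(Kvs (av j)/(av j).Completion) → Finset (Fin m) → ZMod p)
        (ζ : (GS p av α → Finset (Fin m) → ZMod p) × (J → Finset (Fin m) → ZMod p)),
        (∀ j, RlE p (ι j α) (fun i => ι j (ϑ i : Kgs K)) (f j) (Y j)) →
        Coc (rE (omS p av α) fun i => hS p av α (D i : K)) ζ.1 →
        (∀ j (i : T j), psi (rE (omS p av α) fun i => hS p av α (D i : K)) ζ j
          (rOm p av α (ι j) (t j i)) = f j (t j i)) →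
        lam Y = ∑ i, η i * (f w₀ (e i) univ -
          psi (rE (omS p av α) fun i => hS p av α (D i : K)) ζ w₀
            (rOm p av α (ι w₀) (e i)) univ)) →
    ∀ z ∈ Ker (fun g (x : ZMod p) => omS p av α g * x) (DS p av α ι),
      ∃ q : ∀ j, Finset (Fin m) → (av j).Completion,
        (∀ j, z.2 j = z.2 b → q j = 0) ∧
        (∀ j, z.2 j ≠ z.2 b → ∃ (α₀ : (av j).Completion) (ϑ₀ : Fin m → (av j).Completion),
          algebraMap (av j).Completion (Kvs (av j)) α₀ = ι j α ∧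
          (∀ i, algebraMap (av j).Completion (Kvs (av j)) (ϑ₀ i) = ι j (ϑ i : Kgs K)) ∧
          ∀ I, q j I = op (av j).Completion (z.2 j - z.2 b) * α₀ ^ p *
            cv (prE fun i => algebraMap K (av j).Completion (D i : K)) (prE ϑ₀) I) ∧
        ∀ (x : OS av) (ζ' : (GS p av α → Finset (Fin (m + 1)) → ZMod p) ×
            (J → Finset (Fin (m + 1)) → ZMod p)),
          Coc (rE (omS p av α) fun i => hS p av α
            ((Fin.cons x D : Fin (m + 1) → OS av) i : K)) ζ'.1 →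
          (∀ j (i : T j), psi (rE (omS p av α) fun i => hS p av α
            ((Fin.cons x D : Fin (m + 1) → OS av) i : K)) ζ' j (rOm p av α (ι j) (t j i)) = 0) →
          (∀ k I, ζ'.2 (y k) I = if I = ∅ then z.2 (y k) else 0) →
          ∑ i, η i * psi (rE (omS p av α) fun i => hS p av α
            ((Fin.cons x D : Fin (m + 1) → OS av) i : K)) ζ' w₀ (rOm p av α (ι w₀) (e i)) univ =
          lam fun j I => algebraMap K (av j).Completion (x : K) * q j I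

/-- **Nds** (350 lines, uses `S_Dsc`, `S_Hst`, `S_Uni2`, `S_Act2`, `S_Lk1`, `S_Cvl`, `S_Asl`, `S_Rk1`, `S_Lnz`, `S_Fnl`, `S_Fn2`,
`S_Ndv`). NONDEGENERACY.

Proof. Let `z ∈ Ker` be nonconstant, `D i ∈ BS p av b` independent modulo `NS`, `η ≠ 0`. Let `ϑ i ∈ OmS` be roots (`S_Hst`, `Ph p 1`), `lam` as in
`S_Fnl` and `q` as in `S_Ndv`. Suppose for every `x ∈ A` there is a pair `ζ'` as in `Nd` with the sum `0`. Then by `S_Ndv`
`lam (x q) = 0` for all `x ∈ A`. (*) For `I ⊆ Fin m` let `μ_I (y) = lam (j ↦ sgE I (y j))`; by `S_Fn2` all `μ_I` satisfy `Fnc`, and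
`μ₀ = μ_univ ≠ 0`. By `S_Rk1` `μ_I (y) = μ₀ (κ_I y)`, `κ_I ∈ K`; for `I = univ` take `κ_I = 1`. Hence
`lam Y = ∑_I μ_I (Y_I) = μ₀ (j ↦ ∑_I κ_I Y j I)`. Let `v j = ∑_I κ_I q j I ∈ K_j`. By (*) `μ₀ (x v) = 0` for all `x ∈ A`. So the functional
`μ (y) = μ₀ (v y)` satisfies `Fnc` (a radius: `r / max (1, ‖v j‖)`), and by `S_Rk1` `μ₀ (v y) = μ₀ (κ y)` for some `κ ∈ K`. So
`μ₀ ((v - κ) y) = 0` for all `y`, and by `S_Lnz` `v j = κ` for all `j` (apply it to `y = Pi.single j _`). `q b = 0`, so `κ = v b = 0`, and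
`v j = 0` for all `j`. As `z` is not constant there is `j` with `z.2 j ≠ z.2 b`: otherwise with `b₁ = z.2 b` all `z.2 j = b₁`, and
`z.1 g = b₂ - ω g * b₂` (`S_Lk1`) with `b₂ = b₁` if `ω ≠ 1` (`TsH.bs`), and `z.1 = 0` if `ω = 1`; so `z` would be constant. For this `j`
`0 = v j = op (a) α₀ ^ p ∑_I κ_I cv (prE D) (prE ϑ₀) I`, `a = z.2 j - z.2 b ≠ 0`, `α₀ ≠ 0`, so
`0 = ∑_I κ_I ∑_{A ⊆ I} (∏_{i ∈ I \ A} D i) (∏_{i ∈ A} ϑ₀ i) = ∑_A u_A ∏_{i ∈ A} ϑ₀ i` in `K_j` with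
`u_A = ∑_{I ⊇ A} κ_I ∏_{i ∈ I \ A} D i ∈ K`. Map to `Kvs`: `ι j (∑_A u_A ∏_{i ∈ A} ϑ i) = 0`, so the sum is `0` in `OmS`, and by `S_Asl`
(`k = K`, `L = OmS`; independence: `NS`) `u = 0`. But `u_univ = κ_univ = 1`, a contradiction. So there is `x` such that for every
`ζ'` as in `Nd` the sum is not `0` (the `ζ'` exists and is unique by `S_Uni2`, so the negation of the claim gives such a
`ζ'` with sum `0` for every `x`; the statement of `Nd` for `fmS`, `tsL` unfolds to this: `T.co z k = z.2 (y k)`, the tests are indexed by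
`Σ j, T j`). -/
def S_Nds : Prop :=
  ∀ (p : ℕ) [Fact p.Prime] (K : Type) [Field K] [CharP K p], GFld p K →
    ∀ (J : Type) (av : J → AbsoluteValue K ℝ) (α : Kgs K) (h : K)
      (ι : ∀ j, Kgs K →ₐ[K] Kvs (av j)) (d : ℕ) (T : J → Type)
      (t : ∀ j, T j → Gal(Kvs (av j)/(av j).Completion)) (w₀ : J)
      (e : Fin d → Gal(Kvs (av w₀)/(av w₀).Completion)) (y : Fin (d + 1) → J) (b : J),
      TsH p av α h ι t w₀ e y b →
    ∀ z ∈ Ker (fun g (x : ZMod p) => omS p av α g * x) (DS p av α ι),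
      ¬ IsCs (fun g (x : ZMod p) => omS p av α g * x) z →
      Nd (fmS p av α ι (BS p av b))
        (tsL (fun j => rOm p av α (ι j)) t w₀ e fun k => Sum.inr (y k)) (NS p av) z

/-! ### 4. The axioms -/

/-- **Bgl** (200 lines, uses `S_Dsc`, `S_App`, `S_FiK`, `S_Lc1`). Many directions.

Proof. Let `w = av b`, `ϖ` a uniformizer. Let `ρ > 0` be such that for `j ≠ b` every `f ∈ K_j` with `‖f‖ ≤ ρ` is of the form
`y ^ p - y` (`S_Lc1` (8) or (11) for `h = 1`), `C₁` as in `S_App` for `j0 = b`, `ε = ρ`. Let `L = C + 1` and `l_1 < .. < l_L` integers prime to `p`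
with `w ϖ ^ (- l_1) > max C₁ 1`, and `D_i ∈ A` with `w (ϖ ^ (- l_i) - D_i) ≤ C₁`, `av j D_i < ρ` for `j ≠ b`: so
`D_i ∈ BS`, `w D_i = w ϖ ^ (- l_i)`. For `i ≠ k` `w (D_i - D_k) = w ϖ ^ (- max l_i l_k) > 1` is not of the form `w (y ^ p - y)`, `y ∈ K`
(if `w y ≤ 1` then `w (y ^ p - y) ≤ 1`, otherwise it is `(w y) ^ p = w ϖ ^ (- p n)`), so `D_i - D_k ∉ NS`. Let `e` be such that all
`D_i ∈ FS av e`. The cosets `D_i + (FS ∩ BS ∩ NS)` are disjoint subsets of `FS ∩ BS`, a finite set (`S_FiK`). -/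
def S_Bgl : Prop :=
  ∀ (p : ℕ) [Fact p.Prime] (K : Type) [Field K] [CharP K p], GFld p K →
    ∀ (J : Type) [Finite J] (av : J → AbsoluteValue K ℝ), Pls av → ∀ (b : J) (C : ℕ), ∃ e : ℕ,
      C * {x | x ∈ FS av e ∧ x ∈ BS p av b ∧ x ∈ NS p av}.ncard ≤
        {x | x ∈ FS av e ∧ x ∈ BS p av b}.ncard

/-- **Gdx** (150 lines, uses `S_Na`, `S_FiK`, `S_Has`, `S_Hst`, `S_Bgl`, `S_Nds`). The axioms `Fm.Good`.

Proof. `om`, `hom`, `add`, `h2`: `S_Hst`. `fin`: `S_FiK`. `mono`: clear. `exh`: `J` is finite. `ok`: `TsH.ok`. `pn`: `p • x = 0` in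
characteristic `p`. `big`: `S_Bgl`. `nd`: `S_Nds`. -/
def S_Gdx : Prop :=
  ∀ (p : ℕ) [Fact p.Prime] (K : Type) [Field K] [CharP K p], GFld p K →
    ∀ (J : Type) (av : J → AbsoluteValue K ℝ) (α : Kgs K) (h : K)
      (ι : ∀ j, Kgs K →ₐ[K] Kvs (av j)) (d : ℕ) (T : J → Type)
      (t : ∀ j, T j → Gal(Kvs (av j)/(av j).Completion)) (w₀ : J)
      (e : Fin d → Gal(Kvs (av w₀)/(av w₀).Completion)) (y : Fin (d + 1) → J) (b : J),
      TsH p av α h ι t w₀ e y b →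
      (fmS p av α ι (BS p av b)).Good
        (tsL (fun j => rOm p av α (ι j)) t w₀ e fun k => Sum.inr (y k)) (NS p av)

/-- **T3g** (150 lines, uses `S_Has`, `S_Hst`, `S_Rgo`, `S_S0x`, `S_Lts`, `S_Gdx`). The final statement of the parts N, L, M.

Proof. `av₀` as in `S_S0x`. `HS` is clear. If `h` is not a `(p - 1)`-st power in `K` let `b` be a place such that `h` is not a
`(p - 1)`-st power in `K_b`; then `ω ≠ 1` on `D_b` (otherwise `ι b α` is fixed by `Γ_b` (`S_Rgo`, `S_Has` (1)), so it is in `K_b`, and its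
`(p - 1)`-st power is `h`). If `h = y ^ (p - 1)`, `y ∈ K`, then `α / y` is in the prime field (a root of `x ^ (p - 1) = 1`), so `α ∈ K` and
`ω = 1`; `b` is arbitrary. `S_Lts`, `S_Gdx`. -/
def S_T3g : Prop :=
  ∀ (p : ℕ) [Fact p.Prime] (K : Type) [Field K] [CharP K p], GFld p K → ∀ (α : Kgs K) (h : K),
    h ≠ 0 → α ^ (p - 1) = algebraMap K (Kgs K) h →
    ∃ (m : ℕ) (av₀ : Fin m → AbsoluteValue K ℝ), Pls av₀ ∧
      ∀ (J : Type) [Fintype J] (av : J → AbsoluteValue K ℝ), Pls av →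
        (∀ i, ∃ j, (av j).IsEquiv (av₀ i)) → HS p av α h ∧
        ∀ ι : ∀ j, Kgs K →ₐ[K] Kvs (av j), ∃ b : J, ∀ w₀ : J,
          ∃ (d : ℕ) (T : J → Type) (t : ∀ j, T j → Gal(Kvs (av j)/(av j).Completion))
            (e : Fin d → Gal(Kvs (av w₀)/(av w₀).Completion)) (y : Fin (d + 1) → J),
            TsH p av α h ι t w₀ e y b ∧
            (fmS p av α ι (BS p av b)).Good
              (tsL (fun j => rOm p av α (ι j)) t w₀ e fun k => Sum.inr (y k)) (NS p av)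

end Pool.Agent.MP72P
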