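import Pool.Agent.Lib.MP_72e2e6_nt.P3.M.Spec

/-!
# MP_72e2e6_nt, theorem T3p, part M: T3g, the final statement of the parts N, L, M (helper69)
-/

namespace Pool.Agent.MP72P

set_option autoImplicit false

open IntermediateField Finset

private theorem tg_op1 (p : ℕ) [Fact p.Prime] (L : Type) [Field L] : op L (1 : ZMod p) = 1 := by
  unfold op
  have : Fact (1 < p) := ⟨(Fact.out : p.Prime).one_lt⟩
  rw [ZMod.val_one, Nat.cast_one]

private theorem tg_op {p : ℕ} [Fact p.Prime] {L : Type} [Field L] [CharP L p] {c : ZMod p}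
    (h : op L c = 1) : c = 1 := by
  unfold op at h
  have h1 : ((c.val : ℕ) : L) = ((1 : ℕ) : L) := by rw [h, Nat.cast_one]
  rw [CharP.natCast_eq_natCast L p] at h1
  have h2 := (ZMod.natCast_eq_natCast_iff _ _ p).2 h1
  rw [ZMod.natCast_zmod_val, Nat.cast_one] at h2
  exact h2

/-- if `α` is fixed by the Galois group, then `h` is a power -/
private theorem tg_fix {p : ℕ} [Fact p.Prime] {k L : Type} [Field k] [Field L] [Algebra k L]
    [CharP k p] [IsGalois k L] (has : S_Has) {α : L} {h : k} (hα : α ≠ 0)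
    (hh : α ^ (p - 1) = algebraMap k L h) (h1 : ∀ g : Gal(L/k), omc p α g = 1) :
    ∃ y : k, y ^ (p - 1) = h := by
  obtain ⟨⟨-, h2⟩, -⟩ := has p k L α h hα hh
  have h3 : ∀ g : Gal(L/k), g α = α := by
    intro g
    rw [h2 g, h1 g, tg_op1, one_mul]
  obtain ⟨y, hy⟩ := (InfiniteGalois.mem_range_algebraMap_iff_fixed α).2 h3
  refine ⟨y, (algebraMap k L).injective ?_⟩
  rw [map_pow, hy, hh]

/-- if `h` is a power, then `ω` is trivial -/
private theorem tg_triv {p : ℕ} [Fact p.Prime] {k L : Type} [Field k] [Field L] [Algebra k L]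
    [CharP k p] [IsGalois k L] (has : S_Has) {α : L} {h : k} (hα : α ≠ 0)
    (hh : α ^ (p - 1) = algebraMap k L h) {y : k} (hy0 : y ≠ 0) (hy : y ^ (p - 1) = h)
    (g : Gal(L/k)) : omc p α g = 1 := by
  have : CharP L p := charP_of_injective_algebraMap (algebraMap k L).injective p
  obtain ⟨⟨-, h2⟩, -⟩ := has p k L α h hα hh
  have hyL : algebraMap k L y ≠ 0 := by
    rw [Ne, map_eq_zero]
    exact hy0
  have h3 : (α / algebraMap k L y) ^ p = α / algebraMap k L y := by
    have h4 : (α / algebraMap k L y) ^ (p - 1) = 1 := by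
      rw [div_pow, hh, ← map_pow, hy, div_self]
      rw [← hh]
      exact pow_ne_zero _ hα
    have h5 : p = p - 1 + 1 := (Nat.succ_pred_eq_of_pos (Fact.out : p.Prime).pos).symm
    conv_lhs => rw [h5]
    rw [pow_succ, h4, one_mul]
  have h6 : α / algebraMap k L y ∈ (⊥ : Subfield L) :=
    (Subfield.mem_bot_iff_pow_eq_self L p).2 h3
  obtain ⟨n, hn⟩ := (mem_bot_iff_intCast p L).1 h6
  have h7 : g (α / algebraMap k L y) = α / algebraMap k L y := by
    rw [← hn, map_intCast]
  have h8 : g α = α := by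
    rw [map_div₀, g.commutes] at h7
    exact (div_left_inj' hyL).1 h7
  rw [h2 g] at h8
  exact tg_op (mul_right_cancel₀ hα (h8.trans (one_mul α).symm))

theorem tT3g (has : S_Has) (hst : S_Hst) (rgo : S_Rgo) (s0x : S_S0x) (lts : S_Lts)
    (gdx : S_Gdx) : S_T3g := by
  intro p _ K _ _ hG α h h0 hα
  obtain ⟨m, av₀, hpl, H⟩ := s0x p K hG h h0
  refine ⟨m, av₀, hpl, fun J _ av hav hsub => ?_⟩
  obtain ⟨c2, hu, sha, npow⟩ := H J av hav hsub
  have hne : Nonempty J := Fintype.card_pos_iff.1 (by omega)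
  have hHS : HS p av α h := ⟨inferInstance, hne, hav, hα, h0, hu⟩
  obtain ⟨-, -, -, hα0, -⟩ := hst p K hG J av α h hHS
  obtain ⟨-, rsur, -, rom, -, -, rloc⟩ := rgo p K hG J av α h hHS
  have hp1 : p - 1 ≠ 0 := by
    have := (Fact.out : p.Prime).two_le
    omega
  refine ⟨hHS, fun ι => ?_⟩
  have hb : ∃ b : J, (∀ g, omS p av α g = 1) ∨ ∃ g ∈ DS p av α ι b, omS p av α g ≠ 1 := by
    by_cases hy : ∃ y : K, y ^ (p - 1) = h
    · obtain ⟨y, hy⟩ := hy
      obtain ⟨b⟩ := hne
      refine ⟨b, Or.inl fun g => ?_⟩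
      obtain ⟨σ, rfl⟩ := rsur g
      rw [rom σ]
      refine tg_triv has hα0 hα (y := y) ?_ hy σ
      rintro rfl
      rw [zero_pow hp1] at hy
      exact h0 hy.symm
    · push Not at hy
      obtain ⟨b, hb⟩ := npow hy
      refine ⟨b, Or.inr ?_⟩
      by_contra hcon
      push Not at hcon
      have : CharP (av b).Completion p :=
        charP_of_injective_algebraMap (algebraMap K (av b).Completion).injective p
      obtain ⟨-, -, -, r4, -⟩ := rloc (av b) (ι b)
      have h1 : ∀ g : Gal(Kvs (av b)/(av b).Completion), omc p (ι b α) g = 1 := by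
        intro g
        rw [← r4 g]
        exact hcon _ ⟨g, rfl⟩
      have h2 : (ι b α) ^ (p - 1) =
          algebraMap (av b).Completion (Kvs (av b)) (algebraMap K (av b).Completion h) := by
        rw [← map_pow, hα, AlgHom.commutes, ← IsScalarTower.algebraMap_apply]
      have h3 : ι b α ≠ 0 := by
        rw [Ne, map_eq_zero]
        exact hα0
      obtain ⟨y, hy'⟩ := tg_fix has h3 h2 h1
      exact hb y hy'
  obtain ⟨b, hb⟩ := hb
  refine ⟨b, fun w₀ => ?_⟩
  obtain ⟨d, T, t, e, y, hT⟩ := lts p K hG J av α h hHS sha ι w₀ b hb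
  exact ⟨d, T, t, e, y, hT, gdx p K hG J av α h ι d T t w₀ e y b hT⟩

end Pool.Agent.MP72P
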